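import Pool.Agent.H721R2.Quart.G4Vertex
import Pool.Agent.H721R2.Ivrii.Normal

set_option autoImplicit false

open MeasureTheory Set Filter Topology
open scoped InnerProductSpace
open Pool.Agent.H721R2.Quart Pool.Agent.H721R2.Ivrii

namespace Pool.Agent.TH746

variable {E : Type*} [NormedAddCommGroup E] [InnerProductSpace ℝ E] [FiniteDimensional ℝ E]

/-- The second derivative of a function which vanishes on a parametrised hypersurface. -/
theorem second_vanish {Z : Type*} [NormedAddCommGroup Z] [NormedSpace ℝ Z] {F : E → ℝ} {X : Z → E}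
    (hX : ContDiffAt ℝ 2 X 0) (hF : ContDiffAt ℝ 3 F (X 0)) (h0 : ∀ᶠ z in 𝓝 0, F (X z) = 0)
    (ζ : Z) :
    fderiv ℝ (fderiv ℝ F) (X 0) (fderiv ℝ X 0 ζ) (fderiv ℝ X 0 ζ) +
      fderiv ℝ F (X 0) (fderiv ℝ (fderiv ℝ X) 0 ζ ζ) = 0 := by
  have hXc : Tendsto X (𝓝 0) (𝓝 (X 0)) := hX.continuousAt
  have h1 : ∀ᶠ z in 𝓝 (0 : Z), fderiv ℝ F (X z) (fderiv ℝ X z ζ) = 0 := by
    filter_upwards [hX.eventually (by norm_num), hXc.eventually (hF.eventually (by norm_num)),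
      h0.eventually_nhds] with z h2 h3 h4
    have h5 : fderiv ℝ (F ∘ X) z = 0 := by
      have : (F ∘ X) =ᶠ[𝓝 z] fun _ => (0 : ℝ) := by
        filter_upwards [h4] with y hy
        exact hy
      rw [this.fderiv_eq]; simp
    rw [fderiv_comp z (h3.differentiableAt (by norm_num)) (h2.differentiableAt (by norm_num))] at h5
    have h6 := congrArg (fun L : Z →L[ℝ] ℝ => L ζ) h5
    exact h6
  have hDF : HasFDerivAt (fderiv ℝ F) (fderiv ℝ (fderiv ℝ F) (X 0)) (X 0) := by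
    have : ContDiffAt ℝ 2 (fderiv ℝ F) (X 0) := hF.fderiv_right (m := 2) (by norm_num)
    exact (this.differentiableAt (by norm_num)).hasFDerivAt
  have hDX : HasFDerivAt (fderiv ℝ X) (fderiv ℝ (fderiv ℝ X) 0) 0 := by
    have : ContDiffAt ℝ 1 (fderiv ℝ X) 0 := hX.fderiv_right (m := 1) (by norm_num)
    exact (this.differentiableAt (by norm_num)).hasFDerivAt
  have hXd : HasFDerivAt X (fderiv ℝ X 0) 0 := (hX.differentiableAt (by norm_num)).hasFDerivAt
  have h2 := (hDF.comp (0 : Z) hXd).clm_apply (hDX.clm_apply (hasFDerivAt_const ζ (0 : Z)))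
  have h3 : HasFDerivAt (fun z : Z => fderiv ℝ F (X z) (fderiv ℝ X z ζ)) (0 : Z →L[ℝ] ℝ) 0 :=
    (hasFDerivAt_const (0 : ℝ) (0 : Z)).congr_of_eventuallyEq h1
  have h4 := congrArg (fun L : Z →L[ℝ] ℝ => L ζ) (h2.unique h3)
  simp only [_root_.add_apply, ContinuousLinearMap.comp_apply,
    ContinuousLinearMap.flip_apply, _root_.zero_apply, map_zero, zero_add, Function.comp_apply] at h4
  rw [add_comm] at h4
  exact h4

/-- The curvature does not depend on the defining function. -/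
theorem curv_indep {Ω : Set E} {q : E} {F F' : E → ℝ} (h : LocalDef Ω q F) (h' : LocalDef Ω q F')
    (hz : ∀ w : E, ⟪gradient F' q, w⟫_ℝ = 0 → fderiv ℝ (fderiv ℝ F') q w w = 0) (w : E)
    (hw : ⟪gradient F q, w⟫_ℝ = 0) : fderiv ℝ (fderiv ℝ F) q w w = 0 := by
  obtain ⟨X, cX, X0, Xz, -, Xs⟩ := G4_chart h.smooth h.zero h.grad
  have hXc : Tendsto X (𝓝 0) (𝓝 q) := by
    have := cX.continuousAt.tendsto
    rwa [X0] at this
  have hgc : ContinuousAt (gradient F) q := (G2_contDiff_grad h.smooth).continuousAt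
  -- `F'` vanishes on the hypersurface
  have e1 : ∀ᶠ z in 𝓝 0, F' (X z) = 0 := by
    filter_upwards [Xz, hXc.eventually (h.smooth.eventually (by norm_num)),
      hXc.eventually (hgc.eventually_ne h.grad), hXc.eventually (eventually_eventually_nhds.2 h.mem),
      hXc.eventually (h'.smooth.eventually (by norm_num)),
      hXc.eventually (eventually_eventually_nhds.2 h'.mem)] with z z1 z2 z3 z4 z5 z6
    exact zero_of_mem z5.continuousAt z6 ⟨z2, z1, z3, z4⟩
  obtain ⟨ζ, hζ⟩ := Xs.self_of_nhds w (by rw [X0]; exact hw)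
  have k1 := second_vanish cX (by rw [X0]; exact h.smooth) Xz ζ
  have k2 := second_vanish cX (by rw [X0]; exact h'.smooth) e1 ζ
  rw [hζ, X0] at k1 k2
  obtain ⟨l, hl, hll⟩ := grad_parallel h h'
  have hw' : ⟪gradient F' q, w⟫_ℝ = 0 := by rw [hll, real_inner_smul_left, hw, mul_zero]
  rw [hz w hw', zero_add, G4_fderiv_eq, hll, real_inner_smul_left] at k2
  have k3 := (mul_eq_zero.1 k2).resolve_left hl
  rw [G4_fderiv_eq F, k3, add_zero] at k1
  exact k1

/-- A mirror, including the vanishing of the shape operator at the points of zero curvature. -/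
theorem exists_mirror' {Ω : Set E} {F : E → ℝ} {q : E} (h : LocalDef Ω q F) :
    ∃ (ν : E → E) (σ : E → E →L[ℝ] E), ContDiffAt ℝ 2 ν q ∧ ContDiffAt ℝ 1 σ q ∧
      (∀ᶠ x in 𝓝 q, gradient F x ≠ 0 ∧ ν x = dir (gradient F x) ∧ ⟪ν x, ν x⟫_ℝ = 1 ∧
        (∀ v w, ⟪σ x v, w⟫_ℝ = ⟪v, σ x w⟫_ℝ) ∧ σ x (ν x) = 0 ∧
        (∀ X, ⟪ν x, X⟫_ℝ = 0 → fderiv ℝ ν x X = -σ x X)) ∧
      ∀ᶠ x in 𝓝 q, LocalDef Ω x F → ZeroCurv Ω x → σ x = 0 := by
  obtain ⟨ν, σ, h1, h2, h3⟩ := exists_mirror h.smooth h.grad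
  refine ⟨ν, σ, h1, h2, h3, ?_⟩
  have h4 : ∀ᶠ x in 𝓝 q, ν x = dir (gradient F x) := h3.mono fun x hx => hx.2.1
  filter_upwards [h3, h4.eventually_nhds] with x hx hxn hdf hzc
  obtain ⟨F', hF', hz⟩ := hzc
  obtain ⟨k0, k1, k2, k3, k4, k5⟩ := hx
  have hq := curv_indep hdf hF' hz
  have hsymm := hdf.smooth.isSymmSndFDerivAt (by simp; norm_num)
  have hq2 : ∀ a b, ⟪gradient F x, a⟫_ℝ = 0 → ⟪gradient F x, b⟫_ℝ = 0 →
      fderiv ℝ (fderiv ℝ F) x a b = 0 := by
    intro a b ha hb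
    have e1 := hq a ha
    have e2 := hq b hb
    have e3 := hq (a + b) (by rw [inner_add_right, ha, hb, add_zero])
    simp only [map_add, _root_.add_apply, e1, e2] at e3
    rw [hsymm.eq b a] at e3
    linarith
  have hperp : ∀ a, ⟪ν x, a⟫_ℝ = 0 → ⟪gradient F x, a⟫_ℝ = 0 := by
    intro a ha
    rw [k1] at ha
    unfold dir at ha
    rw [real_inner_smul_left] at ha
    exact (mul_eq_zero.1 ha).resolve_left (inv_ne_zero (norm_ne_zero_iff.2 k0))
  have htan : ∀ a, ⟪ν x, a⟫_ℝ = 0 → σ x a = 0 := by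
    intro a ha
    apply ext_inner_right ℝ
    intro b
    rw [inner_zero_left]
    have hb : b = (b - ⟪ν x, b⟫_ℝ • ν x) + ⟪ν x, b⟫_ℝ • ν x := by abel
    have hb' : ⟪ν x, b - ⟪ν x, b⟫_ℝ • ν x⟫_ℝ = 0 := by
      rw [inner_sub_right, inner_smul_right, k2]; ring
    rw [hb, inner_add_right, inner_smul_right]
    have e1 : ⟪σ x a, ν x⟫_ℝ = 0 := by rw [k3, k4, inner_zero_right]
    have e2 : ⟪σ x a, b - ⟪ν x, b⟫_ℝ • ν x⟫_ℝ = 0 := by
      have e3 : σ x a = -fderiv ℝ (fun y => dir (gradient F y)) x a := by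
        have e4 : fderiv ℝ ν x = fderiv ℝ (fun y => dir (gradient F y)) x := by
          have : ν =ᶠ[𝓝 x] fun y => dir (gradient F y) := hxn
          rw [this.fderiv_eq]
        rw [← e4, k5 a ha, neg_neg]
      rw [e3, inner_neg_left, G2_key hdf.smooth k0 (by rw [← k1]; exact hb'),
        hq2 a _ (hperp a ha) (hperp _ hb')]
      ring
    rw [e1, e2]; ring
  ext v
  have hv : v = (v - ⟪ν x, v⟫_ℝ • ν x) + ⟪ν x, v⟫_ℝ • ν x := by abel
  rw [hv, map_add, map_smul, k4, smul_zero, add_zero, htan _ (by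
    rw [inner_sub_right, inner_smul_right, k2]; ring)]
  rfl

end Pool.Agent.TH746
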