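import Pool.Agent.TH746.Cyc

set_option autoImplicit false

open MeasureTheory Set Filter Topology
open scoped InnerProductSpace
open Pool.Agent.H721R2.Quart

namespace Pool.Agent.TH746

variable {E Z : Type*} [NormedAddCommGroup E] [InnerProductSpace ℝ E]
  [NormedAddCommGroup Z] [NormedSpace ℝ Z]

/-- The reflection as a continuous linear map. -/
noncomputable def rfC (n : E) : E →L[ℝ] E :=
  ContinuousLinearMap.id ℝ E - (2 : ℝ) • (innerSL ℝ n).smulRight n

theorem rfC_apply (n v : E) : rfC n v = rf n v := by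
  unfold rfC rf
  simp [smul_smul]

theorem rfC_diff (n : E) : DifferentiableAt ℝ (rfC : E → E →L[ℝ] E) n := by
  unfold rfC
  have h : ContDiff ℝ 1 (fun n : E => ContinuousLinearMap.id ℝ E -
      (2 : ℝ) • (innerSL ℝ n).smulRight n) :=
    contDiff_const.sub ((((innerSL ℝ).contDiff).smulRight contDiff_id).const_smul (2 : ℝ))
  exact h.contDiffAt.differentiableAt (by norm_num)

theorem rf_map (V : E → E) (hadd : ∀ v w, V (v - w) = V v - V w) (hsm : ∀ (r : ℝ) v, V (r • v) =
    r • V v) (hiso : ∀ v w, ⟪V v, V w⟫_ℝ = ⟪v, w⟫_ℝ) (n v : E) : V (rf n v) = rf (V n) (V v) := by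
  unfold rf
  rw [hadd, hsm, hiso]

namespace Cyc

section C

variable (F : Cyc E Z) (j : ℕ → ℕ)

open Classical in
/-- The unfolding of the flat mirrors (those whose index is not in the range of `j`). -/
noncomputable def T : ℕ → Z → E →L[ℝ] E
  | 0, _ => ContinuousLinearMap.id ℝ E
  | k + 1, z => if k + 1 ∈ Set.range j then T k z else (T k z).comp (rfC (F.n (k + 1) z))

open Classical in
/-- The inverse of the unfolding. -/
noncomputable def Ti : ℕ → Z → E →L[ℝ] E
  | 0, _ => ContinuousLinearMap.id ℝ E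
  | k + 1, z => if k + 1 ∈ Set.range j then Ti k z else (rfC (F.n (k + 1) z)).comp (Ti k z)

variable {F j} {z : Z}

theorem T_mark {k : ℕ} (h : k + 1 ∈ Set.range j) : F.T j (k + 1) = F.T j k := by
  funext z; rw [T, if_pos h]

theorem T_flat {k : ℕ} (h : k + 1 ∉ Set.range j) : F.T j (k + 1) = fun z =>
    (F.T j k z).comp (rfC (F.n (k + 1) z)) := by
  funext z; rw [T, if_neg h]

theorem Ti_mark {k : ℕ} (h : k + 1 ∈ Set.range j) : F.Ti j (k + 1) = F.Ti j k := by
  funext z; rw [Ti, if_pos h]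

theorem Ti_flat {k : ℕ} (h : k + 1 ∉ Set.range j) : F.Ti j (k + 1) = fun z =>
    (rfC (F.n (k + 1) z)).comp (F.Ti j k z) := by
  funext z; rw [Ti, if_neg h]

theorem T_iso (hz : z ∈ F.A) (k : ℕ) (v w : E) : ⟪F.T j k z v, F.T j k z w⟫_ℝ = ⟪v, w⟫_ℝ := by
  induction k generalizing v w with
  | zero => rfl
  | succ k ih =>
    by_cases h : k + 1 ∈ Set.range j
    · rw [T_mark h]; exact ih v w
    · rw [T_flat h]
      simp only [ContinuousLinearMap.comp_apply, rfC_apply]
      rw [ih, G3_rf_inner (F.nn (k + 1) z hz)]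

theorem T_rf (hz : z ∈ F.A) (k : ℕ) (n v : E) :
    F.T j k z (rf n v) = rf (F.T j k z n) (F.T j k z v) :=
  rf_map _ (fun v w => map_sub _ v w) (fun r v => map_smul _ r v) (T_iso hz k) n v

theorem T_Ti (hz : z ∈ F.A) (k : ℕ) (v : E) : F.T j k z (F.Ti j k z v) = v := by
  induction k generalizing v with
  | zero => rfl
  | succ k ih =>
    by_cases h : k + 1 ∈ Set.range j
    · rw [T_mark h, Ti_mark h]; exact ih v
    · rw [T_flat h, Ti_flat h]
      simp only [ContinuousLinearMap.comp_apply, rfC_apply]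
      rw [G3_rf_invol (F.nn (k + 1) z hz), ih]

theorem Ti_T (hz : z ∈ F.A) (k : ℕ) (v : E) : F.Ti j k z (F.T j k z v) = v := by
  induction k generalizing v with
  | zero => rfl
  | succ k ih =>
    by_cases h : k + 1 ∈ Set.range j
    · rw [T_mark h, Ti_mark h]; exact ih v
    · rw [T_flat h, Ti_flat h]
      simp only [ContinuousLinearMap.comp_apply, rfC_apply]
      rw [ih, G3_rf_invol (F.nn (k + 1) z hz)]

theorem T_adj (hz : z ∈ F.A) (k : ℕ) (v w : E) : ⟪F.T j k z v, w⟫_ℝ = ⟪v, F.Ti j k z w⟫_ℝ := by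
  nth_rewrite 1 [← T_Ti (j := j) hz k w]
  rw [T_iso hz]

variable (hS : ∀ k, k ∉ Set.range j → ∀ z ∈ F.A, F.S k z = 0)
include hS

theorem flat_dn (hz : z ∈ F.A) {k : ℕ} (h : k ∉ Set.range j) :
    HasFDerivAt (F.n k) (0 : Z →L[ℝ] E) z := by
  have h1 := (F.dn k z hz).hasFDerivAt
  have h2 : fderiv ℝ (F.n k) z = 0 := by
    ext ζ
    rw [F.njac k z hz, hS k h z hz]
    simp
  rwa [h2] at h1

theorem flat_rf (hz : z ∈ F.A) {k : ℕ} (h : k ∉ Set.range j) :
    HasFDerivAt (fun z => rfC (F.n k z)) (0 : Z →L[ℝ] E →L[ℝ] E) z := by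
  have h1 := (rfC_diff (F.n k z)).hasFDerivAt.comp z (flat_dn hS hz h)
  rwa [ContinuousLinearMap.comp_zero] at h1

theorem dT (hz : z ∈ F.A) (k : ℕ) : HasFDerivAt (F.T j k) (0 : Z →L[ℝ] E →L[ℝ] E) z := by
  induction k with
  | zero => exact hasFDerivAt_const _ _
  | succ k ih =>
    by_cases h : k + 1 ∈ Set.range j
    · rw [T_mark h]; exact ih
    · rw [T_flat h]
      have h1 := ih.clm_comp (flat_rf hS hz h)
      refine h1.congr_fderiv ?_
      ext; simp

theorem dTi (hz : z ∈ F.A) (k : ℕ) : HasFDerivAt (F.Ti j k) (0 : Z →L[ℝ] E →L[ℝ] E) z := by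
  induction k with
  | zero => exact hasFDerivAt_const _ _
  | succ k ih =>
    by_cases h : k + 1 ∈ Set.range j
    · rw [Ti_mark h]; exact ih
    · rw [Ti_flat h]
      have h1 := (flat_rf hS hz h).clm_comp ih
      refine h1.congr_fderiv ?_
      ext; simp

/-- The derivative of an unfolded vector. -/
theorem dTv (hz : z ∈ F.A) (k : ℕ) {v : Z → E} (hv : DifferentiableAt ℝ v z) :
    HasFDerivAt (fun z => F.T j k z (v z)) ((F.T j k z).comp (fderiv ℝ v z)) z := by
  have h1 := (dT hS hz k).clm_apply hv.hasFDerivAt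
  refine h1.congr_fderiv ?_
  ext; simp

omit hS in
/-- The unfolded directions at flat vertices. -/
theorem T_e (hz : z ∈ F.A) (k : ℕ) (h : k + 1 ∉ Set.range j) :
    F.T j (k + 1) z (F.e (k + 1) z) = F.T j k z (F.e k z) := by
  rw [T_flat h]
  simp only [ContinuousLinearMap.comp_apply, rfC_apply]
  rw [refl' hz k]

theorem T_de (hz : z ∈ F.A) (k : ℕ) (h : k + 1 ∉ Set.range j) (ζ : Z) :
    F.T j (k + 1) z (fderiv ℝ (F.e (k + 1)) z ζ) = F.T j k z (fderiv ℝ (F.e k) z ζ) := by
  rw [T_flat h]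
  simp only [ContinuousLinearMap.comp_apply, rfC_apply]
  have h1 : fderiv ℝ (F.n (k + 1)) z ζ = 0 := by
    rw [(flat_dn hS hz h).fderiv]; rfl
  rw [F.refljac k z hz ζ, h1, inner_zero_left, mul_zero, zero_smul, smul_zero, sub_zero, sub_zero,
    G3_rf_invol (F.nn (k + 1) z hz)]

omit hS in
theorem T_X (hz : z ∈ F.A) (k : ℕ) (ζ : Z) :
    F.T j (k + 1) z (F.X (k + 1) z ζ) = F.T j k z (F.X (k + 1) z ζ) := by
  by_cases h : k + 1 ∈ Set.range j
  · rw [T_mark h]
  · rw [T_flat h]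
    simp only [ContinuousLinearMap.comp_apply, rfC_apply]
    rw [G3_rf_tan (F.tan (k + 1) z hz ζ)]

omit hS in
theorem chain_e (hz : z ∈ F.A) {a b : ℕ} (h : ∀ k, a < k → k < b → k ∉ Set.range j) (k : ℕ)
    (hak : a ≤ k) (hkb : k < b) : F.T j k z (F.e k z) = F.T j a z (F.e a z) := by
  induction k, hak using Nat.le_induction with
  | base => rfl
  | succ k hk ih => rw [T_e hz k (h _ (by omega) hkb), ih (by omega)]

theorem chain_de (hz : z ∈ F.A) {a b : ℕ} (h : ∀ k, a < k → k < b → k ∉ Set.range j) (k : ℕ)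
    (hak : a ≤ k) (hkb : k < b) (ζ : Z) :
    F.T j k z (fderiv ℝ (F.e k) z ζ) = F.T j a z (fderiv ℝ (F.e a) z ζ) := by
  induction k, hak using Nat.le_induction with
  | base => rfl
  | succ k hk ih => rw [T_de hS hz k (h _ (by omega) hkb), ih (by omega)]

theorem chain_X (hz : z ∈ F.A) {a b : ℕ} (h : ∀ k, a < k → k < b → k ∉ Set.range j) (k : ℕ)
    (hak : a ≤ k) (hkb : k ≤ b) (ζ : Z) :
    F.T j k z (F.X k z ζ) = F.T j a z (F.X a z ζ) +
      (∑ l ∈ Finset.Ico a k, fderiv ℝ (F.L l) z ζ) • F.T j a z (F.e a z) +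
      (∑ l ∈ Finset.Ico a k, F.L l z) • F.T j a z (fderiv ℝ (F.e a) z ζ) := by
  induction k, hak using Nat.le_induction with
  | base => simp
  | succ k hk ih =>
    rw [T_X hz, F.stepjac k z hz ζ, map_add, map_add, map_smul, map_smul, ih (by omega),
      chain_e hz h k hk (by omega), chain_de hS hz h k hk (by omega),
      Finset.sum_Ico_succ_top hk, Finset.sum_Ico_succ_top hk]
    module

end C

section D

variable (F : Cyc E Z) (j : ℕ → ℕ) (q' : ℕ) (hj : StrictMono j) (hj0 : j 0 = 0)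
  (hjq : ∀ i, j (i + q') = j i + F.q)
  (hV : ∀ z v w, ⟪F.V z v, F.V z w⟫_ℝ = ⟪v, w⟫_ℝ)

include hj hj0 hjq in
theorem mark_per (k : ℕ) : k + F.q ∈ Set.range j ↔ k ∈ Set.range j := by
  constructor
  · rintro ⟨i, hi⟩
    rcases Nat.lt_or_ge i q' with h | h
    · exfalso
      have h1 := hj h
      have h2 := hjq 0
      rw [zero_add, hj0, zero_add] at h2
      omega
    · refine ⟨i - q', ?_⟩
      have h1 := hjq (i - q')
      rw [Nat.sub_add_cancel h] at h1
      omega
  · rintro ⟨i, rfl⟩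
    exact ⟨i + q', hjq i⟩

include hj hj0 hjq hV in
theorem T_per (k : ℕ) (z : Z) (v : E) :
    F.T j (k + F.q) z (F.V z v) = F.T j F.q z (F.V z (F.T j k z v)) := by
  induction k generalizing v with
  | zero => rw [zero_add]; rfl
  | succ k ih =>
    rw [show k + 1 + F.q = (k + F.q) + 1 by omega]
    have hm := mark_per F j q' hj hj0 hjq (k + 1)
    rw [show k + 1 + F.q = (k + F.q) + 1 by omega] at hm
    by_cases h : k + 1 ∈ Set.range j
    · rw [T_mark h, T_mark (hm.2 h)]; exact ih v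
    · rw [T_flat h, T_flat (fun h' => h (hm.1 h'))]
      simp only [ContinuousLinearMap.comp_apply, rfC_apply]
      rw [← ih, rf_map (F.V z) (fun v w => map_sub _ v w) (fun r v => map_smul _ r v) (hV z)]
      congr 2
      have := F.pn (k + 1) z
      rwa [show k + 1 + F.q = (k + F.q) + 1 by omega] at this

/-- Unfolding the flat mirrors. -/
noncomputable def contract (hS : ∀ k, k ∉ Set.range j → ∀ z ∈ F.A, F.S k z = 0) : Cyc E Z where
  q := q'
  A := F.A
  e i z := F.T j (j i) z (F.e (j i) z)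
  n i z := F.T j (j i) z (F.n (j i) z)
  L i z := ∑ l ∈ Finset.Ico (j i) (j (i + 1)), F.L l z
  S i z := (F.T j (j i) z).comp ((F.S (j i) z).comp (F.Ti j (j i) z))
  X i z ζ := F.T j (j i) z (F.X (j i) z ζ)
  V z := (F.T j F.q z).comp (F.V z)
  pe i z := by
    rw [hjq, F.pe, T_per F j q' hj hj0 hjq hV]; rfl
  pn i z := by
    rw [hjq, F.pn, T_per F j q' hj hj0 hjq hV]; rfl
  pL i z := by
    have h1 : j (i + q' + 1) = j (i + 1) + F.q := by
      rw [show i + q' + 1 = i + 1 + q' by omega, hjq]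
    rw [h1, hjq, ← Finset.sum_Ico_add']
    exact Finset.sum_congr rfl fun l _ => F.pL l z
  pX i z hz ζ := by
    rw [hjq, F.pX _ z hz, T_per F j q' hj hj0 hjq hV]; rfl
  de i z hz := (dTv hS hz (j i) (F.de (j i) z hz)).differentiableAt
  dn i z hz := (dTv hS hz (j i) (F.dn (j i) z hz)).differentiableAt
  dL i z hz := DifferentiableAt.fun_sum fun l _ => F.dL l z hz
  dS i z hz := (dT hS hz (j i)).differentiableAt.clm_comp
    ((F.dS (j i) z hz).clm_comp (dTi hS hz (j i)).differentiableAt)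
  dV z hz := by
    have h1 := (dT hS hz F.q).clm_comp (F.dV z hz)
    refine h1.congr_fderiv ?_
    ext; simp
  iso z hz v w := by
    simp only [ContinuousLinearMap.comp_apply]
    rw [T_iso hz, F.iso z hz]
  Lpos i z hz := Finset.sum_pos (fun l _ => F.Lpos l z hz)
    (Finset.nonempty_Ico.2 (hj (Nat.lt_succ_self i)))
  ee i z hz := by rw [T_iso hz, F.ee _ z hz]
  nn i z hz := by rw [T_iso hz, F.nn _ z hz]
  refl i z hz := by
    obtain ⟨b, hb⟩ : ∃ b, j (i + 1) = b + 1 :=
      ⟨j (i + 1) - 1, by have := hj (Nat.lt_succ_self i); simp only [Nat.succ_eq_add_one] at this; omega⟩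
    have hlt := hj (Nat.lt_succ_self i)
    simp only [Nat.succ_eq_add_one] at hlt
    have hflat : ∀ k, j i < k → k < j (i + 1) → k ∉ Set.range j := by
      rintro k h1 h2 ⟨m, rfl⟩
      have := hj.lt_iff_lt.1 h1
      have := hj.lt_iff_lt.1 h2
      omega
    have hm : b + 1 ∈ Set.range j := ⟨i + 1, hb⟩
    rw [← chain_e hz hflat b (by omega) (by omega), hb, F.refl b z hz, T_mark hm, T_rf hz]
  tr i z hz := by rw [T_iso hz]; exact F.tr _ z hz
  sym i z hz v w := by
    simp only [ContinuousLinearMap.comp_apply]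
    rw [T_adj hz, F.sym _ z hz, ← T_iso (j := j) hz (j i), T_Ti hz]
  Sn i z hz := by
    simp only [ContinuousLinearMap.comp_apply]
    rw [Ti_T hz, F.Sn _ z hz, map_zero]
  ejac i z hz ζ := by
    rw [(dTv hS hz (j i) (F.de (j i) z hz)).fderiv]
    simp only [ContinuousLinearMap.comp_apply]
    rw [T_iso hz, F.ejac _ z hz]
  tan i z hz ζ := by rw [T_iso hz, F.tan _ z hz]
  njac i z hz ζ := by
    rw [(dTv hS hz (j i) (F.dn (j i) z hz)).fderiv]
    simp only [ContinuousLinearMap.comp_apply]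
    rw [Ti_T hz, F.njac _ z hz, map_neg]
  Sjac i z hz ζ h := by
    have h1 : F.X (j i) z ζ = 0 := by
      rw [← Ti_T (j := j) hz (j i) (F.X (j i) z ζ), h, map_zero]
    have h2 := F.Sjac _ z hz ζ h1
    have h3 := (dT hS hz (j i)).clm_comp ((F.dS (j i) z hz).hasFDerivAt.clm_comp
      (dTi hS hz (j i)))
    rw [h3.fderiv]
    ext v
    simp [h2]
  stepjac i z hz ζ := by
    have hlt := hj (Nat.lt_succ_self i)
    simp only [Nat.succ_eq_add_one] at hlt
    have hflat : ∀ k, j i < k → k < j (i + 1) → k ∉ Set.range j := by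
      rintro k h1 h2 ⟨m, rfl⟩
      have := hj.lt_iff_lt.1 h1
      have := hj.lt_iff_lt.1 h2
      omega
    rw [chain_X hS hz hflat (j (i + 1)) hlt.le le_rfl,
      (dTv hS hz (j i) (F.de (j i) z hz)).fderiv]
    have h1 : HasFDerivAt (fun z => ∑ l ∈ Finset.Ico (j i) (j (i + 1)), F.L l z)
        (∑ l ∈ Finset.Ico (j i) (j (i + 1)), fderiv ℝ (F.L l) z) z :=
      HasFDerivAt.fun_sum fun l _ => (F.dL l z hz).hasFDerivAt
    rw [h1.fderiv]
    simp only [ContinuousLinearMap.comp_apply, sum_apply]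
  refljac i z hz ζ := by
    obtain ⟨b, hb⟩ : ∃ b, j (i + 1) = b + 1 :=
      ⟨j (i + 1) - 1, by have := hj (Nat.lt_succ_self i); simp only [Nat.succ_eq_add_one] at this; omega⟩
    have hlt := hj (Nat.lt_succ_self i)
    simp only [Nat.succ_eq_add_one] at hlt
    have hflat : ∀ k, j i < k → k < j (i + 1) → k ∉ Set.range j := by
      rintro k h1 h2 ⟨m, rfl⟩
      have := hj.lt_iff_lt.1 h1
      have := hj.lt_iff_lt.1 h2
      omega
    have hm : b + 1 ∈ Set.range j := ⟨i + 1, hb⟩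
    rw [(dTv hS hz (j i) (F.de (j i) z hz)).fderiv]
    simp only [ContinuousLinearMap.comp_apply]
    rw [← chain_e hz hflat b (by omega) (by omega), ← chain_de hS hz hflat b (by omega) (by omega),
      (dTv hS hz (j (i + 1)) (F.de (j (i + 1)) z hz)).fderiv,
      (dTv hS hz (j (i + 1)) (F.dn (j (i + 1)) z hz)).fderiv]
    simp only [ContinuousLinearMap.comp_apply]
    rw [hb, F.refljac b z hz, T_mark hm, map_sub, map_sub, T_rf hz, map_smul, map_smul,
      T_iso hz, T_iso hz]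
  surj i z hz Y δ hY hδ := by
    obtain ⟨ζ, h1, h2⟩ := F.surj (j i) z hz (F.Ti j (j i) z Y) (F.Ti j (j i) z δ)
      (by rw [← T_adj hz]; exact hY) (by rw [← T_adj hz]; exact hδ)
    refine ⟨ζ, ?_, ?_⟩
    · rw [h1, T_Ti hz]
    · rw [(dTv hS hz (j i) (F.de (j i) z hz)).fderiv]
      simp only [ContinuousLinearMap.comp_apply]
      rw [h2, T_Ti hz]

end D

end Cyc

end Pool.Agent.TH746
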