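import Pool.Agent.TH746.Three

set_option autoImplicit false

open MeasureTheory Set Filter Topology
open scoped InnerProductSpace
open Pool.Agent.H721R2.Quart

namespace Pool.Agent.TH746

namespace Cyc

section A
variable {E Z : Type*} [NormedAddCommGroup E] [InnerProductSpace ℝ E]
  [NormedAddCommGroup Z] [NormedSpace ℝ Z] (F : Cyc E Z)

/-- The quadratic relation is linear in the vector. -/
noncomputable def f2L (z : Z) : E →ₗ[ℝ] E where
  toFun v := F.f2 v z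
  map_add' v w := by
    unfold f2 Pr
    simp only [inner_add_right, map_add, map_sub, map_smul, inner_sub_right, inner_smul_right]
    module
  map_smul' r v := by
    unfold f2 Pr
    simp only [inner_add_right, map_sub, map_smul, inner_sub_right, inner_smul_right,
      RingHom.id_apply]
    module

theorem f2L_apply (z : Z) (v : E) : F.f2L z v = F.f2 v z := rfl

end A

variable {E Z : Type*} [NormedAddCommGroup E] [InnerProductSpace ℝ E] [FiniteDimensional ℝ E]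
  [NormedAddCommGroup Z] [NormedSpace ℝ Z] [FiniteDimensional ℝ Z] [MeasurableSpace Z]
  [BorelSpace Z]

theorem exists_g2 (μ : Measure Z) [μ.IsAddHaarMeasure] (F : Cyc E Z) (hq : F.q = 3)
    (hA : MeasurableSet F.A) :
    ∃ B ⊆ F.A, MeasurableSet B ∧ μ (F.A \ B) = 0 ∧
      ∀ z ∈ B, ∀ v, DifferentiableAt ℝ (F.f2 v) z ∧ fderiv ℝ (F.f2 v) z = 0 := by
  set b := stdOrthonormalBasis ℝ E with hb
  have h : ∀ i, ∃ B ⊆ F.A, MeasurableSet B ∧ μ (F.A \ B) = 0 ∧
      ∀ z ∈ B, F.f2 (b i) z = 0 → fderiv ℝ (F.f2 (b i)) z = 0 := fun i =>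
    ae_zero μ hA (f := F.f2 (b i)) (fun z hz => df2 hz (b i))
  choose B s m n g using h
  refine ⟨F.A ∩ ⋂ i, B i, inter_subset_left, hA.inter (MeasurableSet.iInter m), ?_, ?_⟩
  · rw [Set.sdiff_inter, Set.sdiff_self, empty_union, Set.sdiff_iInter]
    exact measure_iUnion_null n
  · rintro z ⟨hzA, hz⟩ v
    refine ⟨df2 hzA v, ?_⟩
    rw [mem_iInter] at hz
    have h1 : ∀ i, HasFDerivAt (F.f2 (b i)) (0 : Z →L[ℝ] E) z := by
      intro i
      have h2 := (df2 hzA (b i)).hasFDerivAt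
      rwa [g i z (hz i) (f2_zero hq hzA _)] at h2
    have h3 : F.f2 v = fun z => ∑ i, (b.repr v).ofLp i • F.f2 (b i) z := by
      funext z'
      have h4 := congrArg (F.f2L z') (b.sum_repr v)
      rw [map_sum] at h4
      simp only [map_smul, f2L_apply] at h4
      exact h4.symm
    have h5 : HasFDerivAt (fun z => ∑ i, (b.repr v).ofLp i • F.f2 (b i) z)
        (∑ i, (b.repr v).ofLp i • (0 : Z →L[ℝ] E)) z :=
      HasFDerivAt.fun_sum fun i _ => (h1 i).const_smul ((b.repr v).ofLp i)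
    rw [h3, h5.fderiv]
    simp

theorem exists_good0 (μ : Measure Z) [μ.IsAddHaarMeasure] (F : Cyc E Z) (hq : F.q = 3)
    (hA : MeasurableSet F.A) :
    ∃ B ⊆ F.A, MeasurableSet B ∧ μ (F.A \ B) = 0 ∧ ∀ z ∈ B, F.Good z := by
  obtain ⟨B1, s1, m1, n1, g1⟩ := ae_zero μ hA (f := fun z => F.N1 z - F.e 0 z)
    (fun z hz => (dN1 hz).sub (F.de 0 z hz))
  obtain ⟨B2, s2, m2, n2, g2⟩ := exists_g2 μ F hq hA
  obtain ⟨B3, s3, m3, n3, g3⟩ := ae_zero μ hA
    (f := fun z => F.N1 z + F.W z (F.N1 z) - (2 : ℝ) • F.e 0 z)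
    (fun z hz => ((dN1 hz).add (dW hz (dN1 hz))).sub ((F.de 0 z hz).const_smul (2 : ℝ)))
  obtain ⟨B4, s4, m4, n4, g4⟩ := ae_zero μ hA (f := fun z => F.H z - F.W z (F.H z))
    (fun z hz => (dH hz).sub (dW hz (dH hz)))
  obtain ⟨B5, s5, m5, n5, g5⟩ := ae_zero μ hA (f := fun z => F.L 0 z - F.L 1 z)
    (fun z hz => (F.dL 0 z hz).sub (F.dL 1 z hz))
  obtain ⟨B6, s6, m6, n6, g6⟩ := ae_zero μ hA (f := fun z => F.L 1 z - F.L 2 z)
    (fun z hz => (F.dL 1 z hz).sub (F.dL 2 z hz))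
  obtain ⟨B7, s7, m7, n7, g7⟩ := ae_zero μ hA (f := fun z => F.N1 z - F.W z (F.N1 z))
    (fun z hz => (dN1 hz).sub (dW hz (dN1 hz)))
  refine ⟨B1 ∩ (B2 ∩ (B3 ∩ (B4 ∩ (B5 ∩ (B6 ∩ B7))))), fun z hz => s1 hz.1,
    m1.inter (m2.inter (m3.inter (m4.inter (m5.inter (m6.inter m7))))), ?_, ?_⟩
  · have h : F.A \ (B1 ∩ (B2 ∩ (B3 ∩ (B4 ∩ (B5 ∩ (B6 ∩ B7)))))) ⊆
        (F.A \ B1) ∪ ((F.A \ B2) ∪ ((F.A \ B3) ∪ ((F.A \ B4) ∪ ((F.A \ B5) ∪
          ((F.A \ B6) ∪ (F.A \ B7)))))) := by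
      rw [Set.sdiff_inter, Set.sdiff_inter, Set.sdiff_inter, Set.sdiff_inter, Set.sdiff_inter,
        Set.sdiff_inter]
    refine measure_mono_null h ?_
    exact measure_union_null n1 (measure_union_null n2 (measure_union_null n3
      (measure_union_null n4 (measure_union_null n5 (measure_union_null n6 n7)))))
  · rintro z ⟨h1, h2, h3, h4, h5, h6, h7⟩
    exact ⟨g1 z h1, g2 z h2, g3 z h3, g4 z h4, g5 z h5, g6 z h6, g7 z h7⟩

theorem exists_good (μ : Measure Z) [μ.IsAddHaarMeasure] (F : Cyc E Z) (hq : F.q = 3)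
    (hA : MeasurableSet F.A) :
    ∃ B ⊆ F.A, MeasurableSet B ∧ μ (F.A \ B) = 0 ∧ ∀ z ∈ B, ∀ j, (F.shift j).Good z := by
  have h : ∀ j, ∃ B ⊆ F.A, MeasurableSet B ∧ μ (F.A \ B) = 0 ∧
      ∀ z ∈ B, (F.shift j).Good z := fun j => exists_good0 μ (F.shift j) hq hA
  choose B s m n g using h
  refine ⟨⋂ j, B j, fun z hz => s 0 (mem_iInter.mp hz 0), MeasurableSet.iInter m, ?_, ?_⟩
  · rw [Set.sdiff_iInter]
    exact measure_iUnion_null n
  · exact fun z hz j => g j z (mem_iInter.mp hz j)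

/-- Three mirrors: the closed trajectories are negligible. -/
theorem null_three (μ : Measure Z) [μ.IsAddHaarMeasure] (F : Cyc E Z)
    (hd : 3 ≤ Module.finrank ℝ E) (hq : F.q = 3) (hA : MeasurableSet F.A) : μ F.A = 0 := by
  obtain ⟨B, hB, -, hn, hg⟩ := exists_good μ F hq hA
  refine measure_mono_null ?_ hn
  intro z hz
  exact ⟨hz, fun hzB => no_three hd hq hz (hg z hzB)⟩

end Cyc

end Pool.Agent.TH746
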