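import Pool.Agent.TH746.Ok

set_option autoImplicit false

open MeasureTheory Set Filter Topology
open scoped InnerProductSpace
open Pool.Agent.H721R2.Quart

namespace Pool.Agent.TH746

namespace Cyc

section A
variable {E Z : Type*} [NormedAddCommGroup E] [InnerProductSpace ℝ E]
  [NormedAddCommGroup Z] [NormedSpace ℝ Z] {F : Cyc E Z} {z : Z}

/-- Two mirrors: the two sides have the same length. -/
theorem two_len (hq : F.q = 2) (hz : z ∈ F.A) {δ : E} (hδ : ⟪F.e 0 z, δ⟫_ℝ = 0) (hδ0 : δ ≠ 0) :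
    F.L 0 z = F.L 1 z := by
  obtain ⟨ζ, h0, h1⟩ := F.surj 0 z hz 0 δ (inner_zero_right _) hδ
  have hX2 : F.X 2 z ζ = 0 := by
    have h := F.pX 0 z hz ζ
    rw [hq] at h
    change F.X 2 z ζ = _ at h
    rw [h, h0, map_zero]
  have p0 := perp hz 0 ζ
  have p1 := perp hz 1 ζ
  have m0 := next hz 0 ζ
  norm_num at p0 p1 m0
  rw [hX2, inner_zero_right, zero_smul, sub_zero, m0, p0, h0, h1, inner_zero_right, zero_smul,
    sub_zero, zero_add] at p1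
  have hd : F.L 1 z • fderiv ℝ (F.e 1) z ζ = -rf (F.n 1 z) (F.L 0 z • δ) :=
    eq_neg_of_add_eq_zero_right p1.symm
  have r2 := F.refljac 1 z hz ζ
  have dn2 : fderiv ℝ (F.n 2) z ζ = 0 := by rw [F.njac 2 z hz, hX2, map_zero, neg_zero]
  norm_num at r2
  have hD := pD hz 0 ζ
  rw [hq] at hD
  change fderiv ℝ (F.e 2) z ζ = _ at hD
  rw [dn2, hD, h1, inner_zero_left, mul_zero, zero_smul, smul_zero, sub_zero, sub_zero] at r2
  have h3 : ⟪δ, δ⟫_ℝ = ⟪fderiv ℝ (F.e 1) z ζ, fderiv ℝ (F.e 1) z ζ⟫_ℝ := by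
    rw [← F.iso z hz, r2, G3_rf_inner (F.nn 2 z hz)]
  have h4 : F.L 1 z ^ 2 * ⟪δ, δ⟫_ℝ = F.L 0 z ^ 2 * ⟪δ, δ⟫_ℝ := by
    have h5 := congrArg (fun x => ⟪x, x⟫_ℝ) hd
    simp only [inner_neg_neg, G3_rf_inner (F.nn 1 z hz), real_inner_smul_left,
      inner_smul_right] at h5
    rw [← h3] at h5
    linear_combination h5
  have h5 : ⟪δ, δ⟫_ℝ ≠ 0 := fun h => hδ0 (inner_self_eq_zero.1 h)
  have h6 := mul_right_cancel₀ h5 h4
  have p0 := F.Lpos 0 z hz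
  have p1 := F.Lpos 1 z hz
  nlinarith

theorem two_sum (hq : F.q = 2) (hz : z ∈ F.A) (ζ : Z) :
    fderiv ℝ (F.L 0) z ζ + fderiv ℝ (F.L 1) z ζ = 0 := by
  have h0 := side hz 0 ζ
  have h1 := side hz 1 ζ
  norm_num at h0 h1
  have hX := F.pX 0 z hz ζ
  have he := F.pe 0 z
  rw [hq] at hX he
  change F.X 2 z ζ = _ at hX
  change F.e 2 z = _ at he
  rw [h0, h1, he, hX, F.iso z hz]
  ring

/-- Two mirrors: contradiction. -/
theorem no_two (hq : F.q = 2) (hz : z ∈ F.A) {δ : E} (hδ : ⟪F.e 0 z, δ⟫_ℝ = 0) (hδ0 : δ ≠ 0)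
    (g1 : F.L 0 z - F.L 1 z = 0 → fderiv ℝ (fun z => F.L 0 z - F.L 1 z) z = 0)
    (g2 : F.N0 z - F.e 0 z = 0 → fderiv ℝ (fun z => F.N0 z - F.e 0 z) z = 0) : False := by
  have hL := two_len hq hz hδ hδ0
  have g1' := g1 (sub_eq_zero.2 hL)
  have tr0 := F.tr 0 z hz
  have tr1 := tr' hz 0
  norm_num at tr1
  have key : ∀ μ, ⟪F.e 0 z, μ⟫_ℝ = 0 → ⟪F.N0 z, μ⟫_ℝ = 0 := by
    intro μ hμ
    have hN0 : ⟪F.n 0 z, μ - ⟪F.N0 z, μ⟫_ℝ • F.e 0 z⟫_ℝ = 0 := by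
      unfold N0
      rw [inner_sub_right, inner_smul_right, real_inner_smul_left]
      field_simp
      ring
    obtain ⟨ζ, h0, h1⟩ := F.surj 0 z hz (-(F.L 0 z • (μ - ⟪F.N0 z, μ⟫_ℝ • F.e 0 z))) μ
      (by rw [inner_neg_right, inner_smul_right, hN0, mul_zero, neg_zero]) hμ
    have hX1' : F.X 1 z ζ = (F.L 0 z * ⟪F.N0 z, μ⟫_ℝ + fderiv ℝ (F.L 0) z ζ) • F.e 0 z := by
      have h2 := F.stepjac 0 z hz ζ
      norm_num at h2
      rw [h2, h0, h1]; module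
    have hL0 : F.L 0 z * ⟪F.N0 z, μ⟫_ℝ + fderiv ℝ (F.L 0) z ζ = 0 := by
      have h3 := F.tan 1 z hz ζ
      rw [hX1', inner_smul_right] at h3
      exact (mul_eq_zero.1 h3).resolve_right tr1
    have h4 := (path (F.dL 0 z hz) ζ).sub (path (F.dL 1 z hz) ζ)
    have h5 := path_zero ((F.dL 0 z hz).sub (F.dL 1 z hz)) ζ g1'
    have h6 := h4.unique h5
    have h7 := two_sum hq hz ζ
    have h8 : F.L 0 z * ⟪F.N0 z, μ⟫_ℝ = 0 := by linarith
    exact (mul_eq_zero.1 h8).resolve_left (F.Lpos 0 z hz).ne'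
  have hu := N0u hz
  have h1 : ⟪F.e 0 z, F.N0 z - F.e 0 z⟫_ℝ = 0 := by
    rw [inner_sub_right, hu, F.ee 0 z hz, sub_self]
  have h2 := key _ h1
  have h3 : F.N0 z - F.e 0 z = 0 := by
    have h4 : ⟪F.N0 z - F.e 0 z, F.N0 z - F.e 0 z⟫_ℝ = 0 := by
      rw [inner_sub_left, h2, h1, sub_zero]
    exact inner_self_eq_zero.1 h4
  have g2' := g2 h3
  obtain ⟨ζ, h0, hD⟩ := F.surj 0 z hz 0 δ (inner_zero_right _) hδ
  have hn := path (F.dn 0 z hz) ζ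
  have he := path (F.de 0 z hz) ζ
  rw [F.njac 0 z hz, h0, map_zero, neg_zero] at hn
  rw [hD] at he
  have h := (((hn.inner ℝ he).inv (by simpa using tr0)).smul hn).sub he
  have h' := path_zero ((dN0 hz).sub (F.de 0 z hz)) ζ g2'
  have h5 := h.unique h'
  simp only [zero_smul, add_zero, inner_zero_left, smul_zero, zero_add] at h5
  have h6 : ⟪F.n 0 z, δ⟫_ℝ = 0 := by
    have h7 := key δ hδ
    unfold N0 at h7
    rw [real_inner_smul_left] at h7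
    exact (mul_eq_zero.1 h7).resolve_left (inv_ne_zero tr0)
  rw [h6, neg_zero, zero_div, zero_smul, zero_sub] at h5
  exact hδ0 (neg_eq_zero.1 h5)

end A

variable {E Z : Type*} [NormedAddCommGroup E] [InnerProductSpace ℝ E] [FiniteDimensional ℝ E]
  [NormedAddCommGroup Z] [NormedSpace ℝ Z] [FiniteDimensional ℝ Z] [MeasurableSpace Z]
  [BorelSpace Z]

/-- Two mirrors: the closed trajectories are negligible. -/
theorem null_two (μ : Measure Z) [μ.IsAddHaarMeasure] (F : Cyc E Z)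
    (hd : 3 ≤ Module.finrank ℝ E) (hq : F.q = 2) (hA : MeasurableSet F.A) : μ F.A = 0 := by
  obtain ⟨B1, s1, m1, n1, g1⟩ := ae_zero μ hA (f := fun z => F.L 0 z - F.L 1 z)
    (fun z hz => (F.dL 0 z hz).sub (F.dL 1 z hz))
  obtain ⟨B2, s2, m2, n2, g2⟩ := ae_zero μ hA (f := fun z => F.N0 z - F.e 0 z)
    (fun z hz => (dN0 hz).sub (F.de 0 z hz))
  refine measure_mono_null (t := (F.A \ B1) ∪ (F.A \ B2)) ?_ (measure_union_null n1 n2)
  intro z hz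
  by_contra hcon
  rw [mem_union, not_or] at hcon
  have h1 : z ∈ B1 := by by_contra h; exact hcon.1 ⟨hz, h⟩
  have h2 : z ∈ B2 := by by_contra h; exact hcon.2 ⟨hz, h⟩
  obtain ⟨δ, hδ0, hδ, -⟩ := exists_perp hd (F.e 0 z) (F.e 0 z)
  exact no_two hq hz hδ hδ0 (g1 z h1) (g2 z h2)

end Cyc

end Pool.Agent.TH746
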