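import Pool.Agent.TH746.Loc
import Pool.Agent.TH746.Null
import Pool.Agent.TH746.Two
import Pool.Agent.TH746.Contract
import Pool.Agent.H721R2.Ivrii.NPlane

set_option autoImplicit false

open MeasureTheory Set Filter Topology
open scoped InnerProductSpace
open Pool.Agent.H721R2.Quart Pool.Agent.H721R2.Ivrii

namespace Pool.Agent.TH746

section Idx

/-- The enumeration of the three marked mirrors in every period. -/
def idx3 (n b c i : ℕ) : ℕ := n * (i / 3) + if i % 3 = 0 then 0 else if i % 3 = 1 then b else c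

theorem idx3_zero (n b c : ℕ) : idx3 n b c 0 = 0 := by simp [idx3]

theorem idx3_add (n b c i : ℕ) : idx3 n b c (i + 3) = idx3 n b c i + n := by
  unfold idx3
  rw [Nat.add_mod_right, Nat.add_div_right i (by norm_num)]
  ring

theorem idx3_mono {n b c : ℕ} (hb : 0 < b) (hbc : b < c) (hcn : c < n) :
    StrictMono (idx3 n b c) := by
  refine strictMono_nat_of_lt_succ fun i => ?_
  obtain ⟨q, r, hr, rfl⟩ : ∃ q r, r < 3 ∧ i = 3 * q + r :=
    ⟨i / 3, i % 3, Nat.mod_lt _ (by norm_num), (Nat.div_add_mod i 3).symm⟩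
  unfold idx3
  interval_cases r
  · have h1 : (3 * q + 0) / 3 = q := by omega
    have h2 : (3 * q + 0) % 3 = 0 := by omega
    have h3 : (3 * q + 0 + 1) / 3 = q := by omega
    have h4 : (3 * q + 0 + 1) % 3 = 1 := by omega
    rw [h1, h2, h3, h4]
    simpa using hb
  · have h1 : (3 * q + 1) / 3 = q := by omega
    have h2 : (3 * q + 1) % 3 = 1 := by omega
    have h3 : (3 * q + 1 + 1) / 3 = q := by omega
    have h4 : (3 * q + 1 + 1) % 3 = 2 := by omega
    rw [h1, h2, h3, h4]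
    simpa using hbc
  · have h1 : (3 * q + 2) / 3 = q := by omega
    have h2 : (3 * q + 2) % 3 = 2 := by omega
    have h3 : (3 * q + 2 + 1) / 3 = q + 1 := by omega
    have h4 : (3 * q + 2 + 1) % 3 = 0 := by omega
    rw [h1, h2, h3, h4]
    simp only [if_true]
    norm_num
    nlinarith

theorem idx3_per {n b c : ℕ} (hb : 0 < b) (hbc : b < c) (hcn : c < n) (k : ℕ) :
    k + n ∈ Set.range (idx3 n b c) ↔ k ∈ Set.range (idx3 n b c) := by
  constructor
  · rintro ⟨i, hi⟩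
    rcases Nat.lt_or_ge i 3 with h | h
    · exfalso
      have h1 := idx3_mono hb hbc hcn h
      have h2 := idx3_add n b c 0
      rw [zero_add, idx3_zero, zero_add] at h2
      omega
    · refine ⟨i - 3, ?_⟩
      have h1 := idx3_add n b c (i - 3)
      rw [Nat.sub_add_cancel h] at h1
      omega
  · rintro ⟨i, rfl⟩
    exact ⟨i + 3, idx3_add n b c i⟩

theorem idx3_mem (n b c k : ℕ) (h : k = 0 ∨ k = b ∨ k = c) : k ∈ Set.range (idx3 n b c) := by
  rcases h with rfl | rfl | rfl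
  · exact ⟨0, by simp [idx3]⟩
  · exact ⟨1, by simp [idx3]⟩
  · exact ⟨2, by simp [idx3]⟩

end Idx

section D
variable {E : Type*} [NormedAddCommGroup E] [InnerProductSpace ℝ E] [FiniteDimensional ℝ E]
  [MeasurableSpace E] [BorelSpace E]

/-- All families with the given period and the given flat mirrors are negligible. -/
def AllNull (E : Type*) [NormedAddCommGroup E] [InnerProductSpace ℝ E] [FiniteDimensional ℝ E]
    [MeasurableSpace E] [BorelSpace E] (n : ℕ) (M : Set ℕ) : Prop :=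
  ∀ (a b : E) (μ : Measure ((ℝ ∙ a)ᗮ × (ℝ ∙ b)ᗮ)) [μ.IsAddHaarMeasure]
    (F : Cyc E ((ℝ ∙ a)ᗮ × (ℝ ∙ b)ᗮ)), F.q = n → MeasurableSet F.A →
    (∀ z v w, ⟪F.V z v, F.V z w⟫_ℝ = ⟪v, w⟫_ℝ) → (∀ k, k ∉ M → ∀ z ∈ F.A, F.S k z = 0) → μ F.A = 0

theorem allNull_two (hd : 3 ≤ Module.finrank ℝ E) (M : Set ℕ) : AllNull E 2 M :=
  fun _ _ μ _ F hq hA _ _ => Cyc.null_two μ F hd hq hA

theorem allNull_three (hd : 3 ≤ Module.finrank ℝ E) {n b c : ℕ} (hb : 0 < b) (hbc : b < c)
    (hcn : c < n) : AllNull E n (Set.range (idx3 n b c)) := by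
  intro a b' μ _ F hq hA hV hS
  have h := Cyc.null_three μ (Cyc.contract F (idx3 n b c) 3 (idx3_mono hb hbc hcn)
    (idx3_zero n b c) (fun i => by rw [hq]; exact idx3_add n b c i) hV hS) hd rfl hA
  exact h

theorem local_null (hd : 3 ≤ Module.finrank ℝ E) {Ω : Set E} {g : E ≃ᵃⁱ[ℝ] E}
    (hg : g ⁻¹' Ω = Ω) {n : ℕ} {p u : ℕ → E} (h : OrbitMod Ω g n p u) (M : Set ℕ)
    (hM : ∀ k, k + n ∈ M ↔ k ∈ M) (hnull : AllNull E n M) (m : ℕ) (hm : m ≤ n) :
    ∃ Y : Set (E × E), μH[(2 * Module.finrank ℝ E - 2 : ℕ)] Y = 0 ∧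
      ∀ᶠ w : (ℕ → E) × (ℕ → E) in 𝓝 (p, u), (OrbitMod Ω g n w.1 w.2 ∧
        ∀ k < n, k ∉ M → ZeroCurv Ω (w.1 k)) → (w.1 m, w.2 m) ∈ Y := by
  obtain ⟨a, b, C, ha, hb, hCN, hCg, hLip, hev⟩ := exists_chn hg h
  have hfr : Module.finrank ℝ ((ℝ ∙ a)ᗮ × (ℝ ∙ b)ᗮ) = 2 * Module.finrank ℝ E - 2 := by
    have h1 := Submodule.finrank_add_finrank_orthogonal (ℝ ∙ a)
    have h2 := Submodule.finrank_add_finrank_orthogonal (ℝ ∙ b)
    rw [finrank_span_singleton ha] at h1
    rw [finrank_span_singleton hb] at h2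
    rw [Module.finrank_prod]
    omega
  obtain ⟨F, hFq, hFA, hFm, hFn, hFV, hFS⟩ := C.exists_cyc
    (μH[Module.finrank ℝ ((ℝ ∙ a)ᗮ × (ℝ ∙ b)ᗮ)]) M (by rw [hCN]; exact hM)
  have h0 := hnull a b (μH[Module.finrank ℝ ((ℝ ∙ a)ᗮ × (ℝ ∙ b)ᗮ)]) F (by rw [hFq, hCN]) hFm
    hFV hFS
  rw [hfr] at h0 hFn
  have hRA : μH[(2 * Module.finrank ℝ E - 2 : ℕ)] (C.A M) = 0 := by
    refine measure_mono_null (t := F.A ∪ (C.A M \ F.A)) ?_ (measure_union_null h0 hFn)
    intro z hz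
    by_cases h : z ∈ F.A
    · exact Or.inl h
    · exact Or.inr ⟨hz, h⟩
  obtain ⟨K, hK⟩ := hLip m hm
  refine ⟨(fun z => (C.x m z, C.e m z)) '' (C.A M), ?_, ?_⟩
  · have hK' : LipschitzOnWith K (fun z => (C.x m z, C.e m z)) (C.A M) :=
      hK.mono fun z hz => hz.1
    have h1 := hK'.hausdorffMeasure_image_le
      (d := ((2 * Module.finrank ℝ E - 2 : ℕ) : ℝ)) (Nat.cast_nonneg _)
    rw [hRA, mul_zero] at h1
    exact nonpos_iff_eq_zero.mp h1
  · filter_upwards [hev] with w hw hor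
    obtain ⟨z, hzU, hz1, hz2, hz3⟩ := hw hor.1
    refine ⟨z, ⟨hzU, ?_, ?_, hz2, ?_⟩, ?_⟩
    · rw [hCN, (hz1 n le_rfl).1, (hz1 0 (Nat.zero_le _)).1, hCg]
      have := hor.1.perp 0
      rwa [zero_add] at this
    · rw [hCN, (hz1 n le_rfl).2, (hz1 0 (Nat.zero_le _)).2, C.G_apply, hCg]
      have := hor.1.peru 0
      rwa [zero_add] at this
    · intro k hk hkM
      rw [hCN] at hk
      exact hz3 k hk (hor.2 k hk hkM)
    · simp only
      rw [(hz1 m hm).1, (hz1 m hm).2]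

/-- The phase points with the given flat bounces. -/
def Pc (Ω : Set E) (g : E ≃ᵃⁱ[ℝ] E) (n : ℕ) (M : Set ℕ) (m : ℕ) : Set (E × E) :=
  (fun w : (ℕ → E) × (ℕ → E) => (w.1 m, w.2 m)) ''
      {w | OrbitMod Ω g n w.1 w.2 ∧ ∀ k < n, k ∉ M → ZeroCurv Ω (w.1 k)}

theorem pc_null (hd : 3 ≤ Module.finrank ℝ E) {Ω : Set E} {g : E ≃ᵃⁱ[ℝ] E}
    (hg : g ⁻¹' Ω = Ω) {n : ℕ} (M : Set ℕ)
    (hM : ∀ k, k + n ∈ M ↔ k ∈ M) (hnull : AllNull E n M) (m : ℕ) (hm : m ≤ n) :
    μH[(2 * Module.finrank ℝ E - 2 : ℕ)] (Pc Ω g n M m) = 0 := by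
  apply null_of_locally_null
  rintro ⟨p, u⟩ ⟨h, -⟩
  exact local_null hd hg h M hM hnull m hm

omit [FiniteDimensional ℝ E] in
/-- Pulling back by an isometry preserves negligible sets. -/
theorem pull (g : E ≃ᵃⁱ[ℝ] E) (d : ℕ) (Y : Set (E × E)) [SecondCountableTopology E]
    (hY : μH[(d : ℝ)] Y = 0) :
    μH[(d : ℝ)] {z : E × E | (g z.1, g.linearIsometryEquiv z.2) ∈ Y} = 0 := by
  have hlip : LipschitzWith 1
      (fun z : E × E => (g.symm z.1, g.linearIsometryEquiv.symm z.2)) := by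
    refine LipschitzWith.of_dist_le_mul fun x y => ?_
    simp only [Prod.dist_eq, LinearIsometryEquiv.dist_map, AffineIsometryEquiv.dist_map,
      NNReal.coe_one, one_mul]
    exact le_rfl
  have h0 := hlip.hausdorffMeasure_image_le (d := (d : ℝ)) (Nat.cast_nonneg _) Y
  rw [hY, mul_zero] at h0
  refine measure_mono_null ?_ (le_antisymm h0 bot_le)
  intro z hz
  exact ⟨_, hz, by simp⟩

omit [FiniteDimensional ℝ E] [MeasurableSpace E] [BorelSpace E] in
theorem lin_mul' (g h : E ≃ᵃⁱ[ℝ] E) (v : E) : (g * h).linearIsometryEquiv v =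
    g.linearIsometryEquiv (h.linearIsometryEquiv v) := by
  have h1 := (g * h).map_vsub v 0
  have h2 := h.map_vsub v 0
  have h3 := g.map_vsub (h v) (h 0)
  simp only [vsub_eq_sub, sub_zero] at h1 h2 h3
  rw [h1, h2, h3]
  rfl

omit [MeasurableSpace E] [BorelSpace E] in
theorem OrbitMod.shift' {Ω : Set E} {g : E ≃ᵃⁱ[ℝ] E} {n : ℕ} {p u : ℕ → E}
    (h : OrbitMod Ω g n p u) (s : ℕ) :
    OrbitMod Ω g n (fun k => p (k + s)) (fun k => u (k + s)) := by
  refine ⟨h.pos, ?_, fun k => ?_, fun k => ?_, fun k => ?_⟩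
  · have h1 := unit_steps h.step h.unit (0 + s)
    rw [real_inner_self_eq_norm_sq] at h1
    nlinarith [norm_nonneg (u (0 + s))]
  · have := h.perp (k + s)
    rw [← this]; congr 1; ring
  · have := h.peru (k + s)
    rw [← this]; congr 1; ring
  · have := h.step (k + s)
    rw [show k + 1 + s = k + s + 1 by ring]
    exact this

/-- The main theorem. -/
theorem perMod_null_dim (hd : 3 ≤ Module.finrank ℝ E) (Ω : Set E) (Γ : Set (E ≃ᵃⁱ[ℝ] E))
    (hΓ : Γ.Countable) (hinv : ∀ g ∈ Γ, g ⁻¹' Ω = Ω) :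
    μH[(2 * Module.finrank ℝ E - 2 : ℕ)] (PerMod Γ Ω) = 0 := by
  obtain ⟨R, hR⟩ : ∃ R : ℕ → ℕ → ℕ → Set ℕ, R = fun n b c => Set.range (idx3 n b c) := ⟨_, rfl⟩
  refine measure_mono_null (t := ⋃ g ∈ Γ,
    ((Pc Ω g 2 univ 0 ∪ Pc Ω (g * (g * g)) 3 (R 3 1 2) 0) ∪
      ⋃ n : ℕ, ⋃ b : ℕ, ⋃ c : ℕ, ⋃ m : ℕ, ⋃ (_ : 0 < b ∧ b < c ∧ c < n ∧ m ≤ n),
        {z : E × E | (g z.1, g.linearIsometryEquiv z.2) ∈ Pc Ω g n (R n b c) m})) ?_ ?_
  · rintro z ⟨g, hgΓ, n, p, u, h, rfl, hcard⟩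
    have hg := hinv g hgΓ
    refine mem_iUnion₂.2 ⟨g, hgΓ, ?_⟩
    have hpos := h.pos
    rcases Nat.lt_or_ge n 3 with hn | hn
    · have : n = 1 ∨ n = 2 := by omega
      rcases this with rfl | rfl
      · -- period one
        left; right
        refine ⟨(p, u), ⟨⟨by norm_num, h.unit, fun k => ?_, fun k => ?_, h.step⟩, ?_⟩, rfl⟩
        · have e1 := h.perp k
          have e2 := h.perp (k + 1)
          have e3 := h.perp (k + 1 + 1)
          change p (k + 1 + 1 + 1) = g (g (g (p k)))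
          rw [e3, e2, e1]
        · have e1 := h.peru k
          have e2 := h.peru (k + 1)
          have e3 := h.peru (k + 1 + 1)
          rw [lin_mul', lin_mul']
          change u (k + 1 + 1 + 1) = _
          rw [e3, e2, e1]
        · intro k hk hkM
          exfalso
          apply hkM
          rw [hR]
          exact idx3_mem 3 1 2 k (by omega)
      · left; left
        exact ⟨(p, u), ⟨h, fun k _ hk => absurd (mem_univ k) hk⟩, rfl⟩
    right
    obtain ⟨a, b, c, hab, hbc, hcn, hf⟩ := three_indices n hn (fun k => ¬ ZeroCurv Ω (p k)) hcard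
    have hf' : ∀ k, k < n → k ≠ a → k ≠ b → k ≠ c → ZeroCurv Ω (p k) := by
      intro k hk h1 h2 h3
      by_contra hcon
      rcases hf k hk hcon with h4 | h4 | h4
      · exact h1 h4
      · exact h2 h4
      · exact h3 h4
    refine mem_iUnion.2 ⟨n, mem_iUnion.2 ⟨b - a, mem_iUnion.2 ⟨c - a, mem_iUnion.2 ⟨n - a,
      mem_iUnion.2 ⟨⟨by omega, by omega, by omega, by omega⟩, ?_⟩⟩⟩⟩⟩
    refine ⟨(fun k => p (k + a), fun k => u (k + a)), ⟨OrbitMod.shift' h a, ?_⟩, ?_⟩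
    · intro k hk hkM
      have hk3 : k ≠ 0 ∧ k ≠ b - a ∧ k ≠ c - a := by
        refine ⟨fun h => hkM ?_, fun h => hkM ?_, fun h => hkM ?_⟩ <;> rw [hR] <;>
          exact idx3_mem _ _ _ _ (by tauto)
      obtain ⟨k1, k2, k3⟩ := hk3
      change ZeroCurv Ω (p (k + a))
      rcases Nat.lt_or_ge (k + a) n with h1 | h1
      · exact hf' _ h1 (by omega) (by omega) (by omega)
      · have e : k + a = (k + a - n) + n := by omega
        rw [e, h.perp]
        have h5 : ZeroCurv Ω (p (k + a - n)) := hf' _ (by omega) (by omega) (by omega) (by omega)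
        have h6 : ZeroCurv Ω (g.symm (g (p (k + a - n)))) := by
          rw [g.symm_apply_apply]; exact h5
        have h7 := h6.comp g.symm
        rwa [preimage_symm hg] at h7
    · have e : n - a + a = 0 + n := by omega
      simp only [e, h.perp, h.peru]
  · refine (measure_biUnion_null_iff hΓ).2 fun g hgΓ => ?_
    have hg := hinv g hgΓ
    have hg3 : (g * (g * g)) ⁻¹' Ω = Ω := by
      change (fun x => g (g (g x))) ⁻¹' Ω = Ω
      have e : (fun x => g (g (g x))) = g ∘ (g ∘ g) := rfl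
      rw [e, preimage_comp, preimage_comp, hg, hg, hg]
    refine measure_union_null (measure_union_null
      (pc_null hd hg univ (fun k => by simp) (allNull_two hd _) 0 (by norm_num)) ?_) ?_
    · rw [hR]
      exact pc_null hd hg3 _ (idx3_per (by norm_num) (by norm_num) (by norm_num))
        (allNull_three hd (by norm_num) (by norm_num) (by norm_num)) 0 (by norm_num)
    · refine measure_iUnion_null fun n => measure_iUnion_null fun b => measure_iUnion_null fun c =>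
        measure_iUnion_null fun m => measure_iUnion_null fun hbc => ?_
      obtain ⟨h1, h2, h3, h4⟩ := hbc
      rw [hR]
      exact pull g _ _ (pc_null hd hg _ (idx3_per h1 h2 h3) (allNull_three hd h1 h2 h3) m h4)

end D

end Pool.Agent.TH746
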