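import Pool.Agent.TH746.Real

set_option autoImplicit false

open scoped InnerProductSpace

namespace Pool.Agent.TH746

variable {E : Type*} [NormedAddCommGroup E] [InnerProductSpace ℝ E]

/-- First order data of a closed trajectory with three mirrors, seen from the side `0` of direction
`u`: `u + y k` are the normalised unfolded normals, `L k` the lengths, `W` the holonomy. -/
structure Dat (E : Type*) [NormedAddCommGroup E] [InnerProductSpace ℝ E] where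
  u : E
  W : E →ₗ[ℝ] E
  y0 : E
  y1 : E
  y2 : E
  L0 : ℝ
  L1 : ℝ
  L2 : ℝ

/-- Renumbering. -/
def Dat.rot (d : Dat E) : Dat E := ⟨d.u, d.W, d.y1, d.y2, d.W d.y0, d.L1, d.L2, d.L0⟩

/-- The relations between the first order data. -/
structure Dat.OK (d : Dat E) : Prop where
  uu : ⟪d.u, d.u⟫_ℝ = 1
  Wu : d.W d.u = d.u
  WW : ∀ v, d.W (d.W v) = v
  iso : ∀ v w, ⟪d.W v, d.W w⟫_ℝ = ⟪v, w⟫_ℝ
  uy0 : ⟪d.u, d.y0⟫_ℝ = 0
  uy1 : ⟪d.u, d.y1⟫_ℝ = 0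
  uy2 : ⟪d.u, d.y2⟫_ℝ = 0
  L0pos : 0 < d.L0
  L1pos : 0 < d.L1
  L2pos : 0 < d.L2
  ne : d.y1 ≠ 0
  neL : d.L0 = d.L1 → d.L1 = d.L2 → d.y2 = 0
  Qp : ∀ v μ, ⟪d.u, v⟫_ℝ = 0 → ⟪d.u, μ⟫_ℝ = 0 → d.W v = v →
    ⟪μ, d.y1 - d.y2 - d.y0⟫_ℝ * ⟪v, v⟫_ℝ = 2 * ⟪v, μ⟫_ℝ * ⟪v, d.y1⟫_ℝ
  Qm : ∀ v μ, ⟪d.u, v⟫_ℝ = 0 → ⟪d.u, μ⟫_ℝ = 0 → d.W v = -v →
    ⟪μ, (d.L0 + d.L1 - d.L2) • d.y1 + (d.L1 + d.L2 - d.L0) • d.y2 +
      (d.L0 + d.L2 - d.L1) • d.y0⟫_ℝ * ⟪v, v⟫_ℝ =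
      2 * (d.L0 + d.L1 - d.L2) * ⟪v, μ⟫_ℝ * ⟪v, d.y1⟫_ℝ
  Z3 : d.W d.y1 = -d.y1 → ∀ μ, ⟪d.u, μ⟫_ℝ = 0 → d.W μ = μ →
    ((d.L0 + d.L1 + d.L2) * ⟪d.y1, d.y2 + d.y0⟫_ℝ + 2 * d.L2) • μ = 0
  Z4 : d.W (d.y1 - d.y2 - d.y0) = d.y1 - d.y2 - d.y0 → ∀ μ, ⟪d.u, μ⟫_ℝ = 0 → d.W μ = μ →
    (2 * d.L2) • (-(⟪μ, d.y1⟫_ℝ • (d.y1 - d.W d.y1)) + ⟪μ, d.y2⟫_ℝ • (d.y2 - d.W d.y2) +
      ⟪μ, d.y0⟫_ℝ • (d.y0 - d.W d.y0)) +
      ((d.L0 + d.L1 + d.L2) * ⟪μ, d.y1 - d.y2 - d.y0⟫_ℝ) •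
        ((d.y2 - d.W d.y2) + (d.y0 - d.W d.y0)) = 0
  Z7 : d.W d.y1 = d.y1 → ∀ μ, ⟪d.u, μ⟫_ℝ = 0 → d.W μ = -μ →
    ((d.L1 + d.L2 - d.L0) * (1 + ⟪d.y2, d.y1⟫_ℝ) +
      (d.L0 + d.L2 - d.L1) * (1 + ⟪d.y0, d.y1⟫_ℝ)) • μ = 0

/-- The data `d'` is the image of `d` under the isometry `R`. -/
structure Conj (R : E →ₗ[ℝ] E) (d d' : Dat E) : Prop where
  iso : ∀ v w, ⟪R v, R w⟫_ℝ = ⟪v, w⟫_ℝ
  u : d'.u = R d.u
  W : ∀ v, d'.W (R v) = R (d.W v)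
  y0 : d'.y0 = R d.y0
  y1 : d'.y1 = R d.y1
  y2 : d'.y2 = R d.y2
  L0 : d'.L0 = d.L0
  L1 : d'.L1 = d.L1
  L2 : d'.L2 = d.L2

theorem Conj.rot {R : E →ₗ[ℝ] E} {d d' : Dat E} (h : Conj R d d') : Conj R d.rot d'.rot where
  iso := h.iso
  u := h.u
  W := h.W
  y0 := h.y1
  y1 := h.y2
  y2 := by
    change d'.W d'.y0 = R (d.W d.y0)
    rw [h.y0, h.W]
  L0 := h.L1
  L1 := h.L2
  L2 := h.L0

theorem Conj.ok {R : E →ₗ[ℝ] E} {d d' : Dat E} (h : Conj R d d') (hd : d'.OK) : d.OK := by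
  have inj : ∀ v, R v = 0 → v = 0 := by
    intro v hv
    have := h.iso v v
    rw [hv, inner_zero_left] at this
    exact inner_self_eq_zero.1 this.symm
  have inj2 : ∀ v w, R v = R w → v = w := by
    intro v w hvw
    exact sub_eq_zero.1 (inj _ (by rw [map_sub, hvw, sub_self]))
  have hiso := h.iso
  have hu := h.u
  have hW := h.W
  have h0 := h.y0
  have h1 := h.y1
  have h2 := h.y2
  have k0 := h.L0
  have k1 := h.L1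
  have k2 := h.L2
  refine ⟨?_, ?_, ?_, ?_, ?_, ?_, ?_, ?_, ?_, ?_, ?_, ?_, ?_, ?_, ?_, ?_, ?_⟩
  · have := hd.uu
    rwa [hu, hiso] at this
  · apply inj2
    rw [← hW, ← hu, hd.Wu]
  · intro v
    apply inj2
    rw [← hW, ← hW, hd.WW]
  · intro v w
    rw [← hiso, ← hW, ← hW, hd.iso, hiso]
  · have := hd.uy0
    rwa [hu, h0, hiso] at this
  · have := hd.uy1
    rwa [hu, h1, hiso] at this
  · have := hd.uy2
    rwa [hu, h2, hiso] at this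
  · have := hd.L0pos; rwa [k0] at this
  · have := hd.L1pos; rwa [k1] at this
  · have := hd.L2pos; rwa [k2] at this
  · intro hy
    apply hd.ne
    rw [h1, hy, map_zero]
  · intro e1 e2
    have := hd.neL (by rw [k0, k1, e1]) (by rw [k1, k2, e2])
    rw [h2] at this
    exact inj _ this
  · intro v μ hv hμ hWv
    have := hd.Qp (R v) (R μ) (by rw [hu, hiso, hv]) (by rw [hu, hiso, hμ]) (by rw [hW, hWv])
    rw [h0, h1, h2, ← map_sub, ← map_sub] at this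
    simpa only [hiso] using this
  · intro v μ hv hμ hWv
    have := hd.Qm (R v) (R μ) (by rw [hu, hiso, hv]) (by rw [hu, hiso, hμ])
      (by rw [hW, hWv, map_neg])
    rw [h0, h1, h2, k0, k1, k2, ← map_smul, ← map_smul, ← map_smul, ← map_add, ← map_add] at this
    simpa only [hiso] using this
  · intro hy μ hμ hWμ
    have := hd.Z3 (by rw [h1, hW, hy, map_neg]) (R μ) (by rw [hu, hiso, hμ]) (by rw [hW, hWμ])
    rw [h0, h1, h2, k0, k1, k2, ← map_add, hiso, ← map_smul] at this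
    exact inj _ this
  · intro hy μ hμ hWμ
    have := hd.Z4 (by rw [h1, h2, h0, ← map_sub, ← map_sub, hW, hy]) (R μ)
      (by rw [hu, hiso, hμ]) (by rw [hW, hWμ])
    rw [h0, h1, h2, k0, k1, k2] at this
    rw [← map_sub, ← map_sub] at this
    simp only [hW, hiso] at this
    apply inj
    rw [← this]
    simp only [map_add, map_sub, map_smul, map_neg]
  · intro hy μ hμ hWμ
    have := hd.Z7 (by rw [h1, hW, hy]) (R μ) (by rw [hu, hiso, hμ]) (by rw [hW, hWμ, map_neg])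
    rw [h0, h1, h2, k0, k1, k2, hiso, hiso, ← map_smul] at this
    exact inj _ this

variable [FiniteDimensional ℝ E]

theorem exists_perp (hd : 3 ≤ Module.finrank ℝ E) (a b : E) :
    ∃ v : E, v ≠ 0 ∧ ⟪a, v⟫_ℝ = 0 ∧ ⟪b, v⟫_ℝ = 0 := by
  obtain ⟨f, hf⟩ : ∃ f : E →ₗ[ℝ] ℝ × ℝ, ∀ v, f v = (⟪a, v⟫_ℝ, ⟪b, v⟫_ℝ) :=
    ⟨((innerSL ℝ a).prod (innerSL ℝ b)).toLinearMap, fun v => rfl⟩
  have h : LinearMap.ker f ≠ ⊥ := LinearMap.ker_ne_bot_of_finrank_lt (by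
    rw [Module.finrank_prod, Module.finrank_self]; omega)
  obtain ⟨v, hv, hv0⟩ := Submodule.exists_mem_ne_zero_of_ne_bot h
  rw [LinearMap.mem_ker, hf] at hv
  exact ⟨v, hv0, (Prod.mk.inj hv).1, (Prod.mk.inj hv).2⟩

namespace Dat

omit [FiniteDimensional ℝ E] in
theorem OK.sym {d : Dat E} (h : d.OK) (v w : E) : ⟪d.W v, w⟫_ℝ = ⟪v, d.W w⟫_ℝ := by
  rw [← h.iso (d.W v) w, h.WW]

/-- The holonomy is not `-1`. -/
theorem OK.caseA (hd : 3 ≤ Module.finrank ℝ E) {d : Dat E} (h : d.OK)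
    (hW : ∀ v, ⟪d.u, v⟫_ℝ = 0 → d.W v = -v) : d.L0 + d.L1 - d.L2 = 0 := by
  obtain ⟨v, hv0, hvu, hvy⟩ := exists_perp hd d.u d.y1
  have hvv : ⟪v, v⟫_ℝ ≠ 0 := fun h => hv0 (inner_self_eq_zero.1 h)
  have hyy : ⟪d.y1, d.y1⟫_ℝ ≠ 0 := fun h' => h.ne (inner_self_eq_zero.1 h')
  have h1 := h.Qm v d.y1 hvu h.uy1 (hW v hvu)
  have h2 := h.Qm d.y1 d.y1 h.uy1 h.uy1 (hW _ h.uy1)
  rw [real_inner_comm] at hvy
  rw [hvy, mul_zero] at h1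
  have h3 := (mul_eq_zero.1 h1).resolve_right hvv
  rw [h3, zero_mul] at h2
  have h4 : 2 * (d.L0 + d.L1 - d.L2) * ⟪d.y1, d.y1⟫_ℝ * ⟪d.y1, d.y1⟫_ℝ = 0 := h2.symm
  rcases mul_eq_zero.1 h4 with h5 | h5
  · rcases mul_eq_zero.1 h5 with h6 | h6
    · linarith
    · exact absurd h6 hyy
  · exact absurd h5 hyy

omit [FiniteDimensional ℝ E] in
/-- The even and odd parts of `y1 - y2 - y0`. -/
theorem OK.caseC {d : Dat E} (h : d.OK) {e : E} (he0 : e ≠ 0) (heu : ⟪d.u, e⟫_ℝ = 0)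
    (heW : d.W e = e) : d.W (d.y1 - d.y2 - d.y0) = d.y1 - d.y2 - d.y0 := by
  obtain ⟨y, hy⟩ : ∃ y, y = d.y1 - d.y2 - d.y0 := ⟨_, rfl⟩
  rw [← hy]
  have hee : ⟪e, e⟫_ℝ ≠ 0 := fun h => he0 (inner_self_eq_zero.1 h)
  have hyu : ⟪d.u, y⟫_ℝ = 0 := by
    rw [hy, inner_sub_right, inner_sub_right, h.uy1, h.uy2, h.uy0]; ring
  have hWyu : ⟪d.u, d.W y⟫_ℝ = 0 := by rw [← h.sym, h.Wu, hyu]
  have h1 := h.Qp e (y - d.W y) heu (by rw [inner_sub_right, hyu, hWyu, sub_zero]) heW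
  rw [← hy] at h1
  have h2 : ⟪e, y - d.W y⟫_ℝ = 0 := by
    rw [inner_sub_right, ← h.sym, heW, sub_self]
  rw [h2, mul_zero, zero_mul] at h1
  have h3 := (mul_eq_zero.1 h1).resolve_right hee
  have h4 : ⟪y - d.W y, y - d.W y⟫_ℝ = 0 := by
    have h5 : ⟪y - d.W y, d.W y⟫_ℝ = -⟪y - d.W y, y⟫_ℝ := by
      rw [← h.sym, map_sub, h.WW, ← inner_neg_left, neg_sub]
    rw [inner_sub_right, h5, h3]; ring
  exact (sub_eq_zero.1 (inner_self_eq_zero.1 h4)).symm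

omit [FiniteDimensional ℝ E] in
theorem OK.even_ne {d : Dat E} (h : d.OK) {e : E} (he0 : e ≠ 0) (heu : ⟪d.u, e⟫_ℝ = 0)
    (heW : d.W e = e) : d.y1 + d.W d.y1 ≠ 0 := by
  intro hy
  have hy' : d.W d.y1 = -d.y1 := by
    rw [← sub_eq_zero, sub_neg_eq_add, add_comm]; exact hy
  have h1 := h.caseC he0 heu heW
  have h2 := h.Z3 hy' e heu heW
  have h3 : ⟪d.y1, d.y1 - d.y2 - d.y0⟫_ℝ = 0 := by
    have h4 : ⟪d.y1, d.y1 - d.y2 - d.y0⟫_ℝ = -⟪d.y1, d.y1 - d.y2 - d.y0⟫_ℝ := by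
      nth_rewrite 1 [← h1]
      rw [← h.sym, hy', inner_neg_left]
    linarith
  have h4 : ⟪d.y1, d.y2 + d.y0⟫_ℝ = ⟪d.y1, d.y1⟫_ℝ := by
    rw [inner_sub_right, inner_sub_right] at h3
    rw [inner_add_right]; linarith
  rw [h4] at h2
  have h5 : 0 ≤ ⟪d.y1, d.y1⟫_ℝ := real_inner_self_nonneg
  have h6 := h.L0pos
  have h7 := h.L1pos
  have h8 := h.L2pos
  rcases smul_eq_zero.1 h2 with h9 | h9
  · have : 0 ≤ (d.L0 + d.L1 + d.L2) * ⟪d.y1, d.y1⟫_ℝ := mul_nonneg (by linarith) h5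
    linarith
  · exact he0 h9

omit [FiniteDimensional ℝ E] in
/-- The holonomy has a one-dimensional `1`-eigenspace in the orthogonal complement of `u`. -/
theorem OK.one_dim {d : Dat E} (h : d.OK) {v : E} (hvu : ⟪d.u, v⟫_ℝ = 0) (hvW : d.W v = v)
    (hv : ⟪v, d.y1⟫_ℝ = 0) : v = 0 := by
  by_contra hv0
  have hvv : ⟪v, v⟫_ℝ ≠ 0 := fun h => hv0 (inner_self_eq_zero.1 h)
  have hs := h.even_ne hv0 hvu hvW
  obtain ⟨s, hsd⟩ : ∃ s, s = d.y1 + d.W d.y1 := ⟨_, rfl⟩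
  rw [← hsd] at hs
  have hss : ⟪s, s⟫_ℝ ≠ 0 := fun h => hs (inner_self_eq_zero.1 h)
  have hsW : d.W s = s := by rw [hsd, map_add, h.WW, add_comm]
  have hsu : ⟪d.u, s⟫_ℝ = 0 := by
    rw [hsd, inner_add_right, ← h.sym, h.Wu, h.uy1, add_zero]
  have h1 := h.Qp v s hvu hsu hvW
  rw [hv, mul_zero] at h1
  have h2 := (mul_eq_zero.1 h1).resolve_right hvv
  have h3 := h.Qp s s hsu hsu hsW
  rw [h2, zero_mul] at h3
  have h4 : ⟪s, d.y1⟫_ℝ = ⟪s, s⟫_ℝ / 2 := by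
    have : ⟪s, s⟫_ℝ = 2 * ⟪s, d.y1⟫_ℝ := by
      nth_rewrite 2 [hsd]
      rw [inner_add_right, ← h.sym, hsW]; ring
    rw [this]; ring
  rw [h4] at h3
  have h5 : ⟪s, s⟫_ℝ * ⟪s, s⟫_ℝ = 0 := by linarith
  rcases mul_eq_zero.1 h5 with h6 | h6 <;> exact hss h6

omit [FiniteDimensional ℝ E] in
/-- The odd parts in the second relation. -/
theorem OK.odd {d : Dat E} (h : d.OK) {e : E} (he0 : e ≠ 0) (heu : ⟪d.u, e⟫_ℝ = 0)
    (heW : d.W e = e) (w : E) :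
    ⟪w, d.y1 - d.W d.y1⟫_ℝ = ⟪w, d.y2 - d.W d.y2⟫_ℝ + ⟪w, d.y0 - d.W d.y0⟫_ℝ ∧
    (d.L0 + d.L1 - d.L2) * ⟪w, d.y1 - d.W d.y1⟫_ℝ =
      (d.L1 + d.L2 - d.L0) * ⟪w, d.y2 - d.W d.y2⟫_ℝ +
      (d.L0 + d.L2 - d.L1) * ⟪w, d.y0 - d.W d.y0⟫_ℝ := by
  constructor
  · have h1 := h.caseC he0 heu heW
    have h2 : d.y1 - d.W d.y1 = (d.y2 - d.W d.y2) + (d.y0 - d.W d.y0) := by
      rw [map_sub, map_sub] at h1
      have h3 : d.y1 - d.W d.y1 - ((d.y2 - d.W d.y2) + (d.y0 - d.W d.y0)) =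
        (d.y1 - d.y2 - d.y0) - (d.W d.y1 - d.W d.y2 - d.W d.y0) := by abel
      rw [h1, sub_self] at h3
      exact sub_eq_zero.1 h3
    rw [h2, inner_add_right]
  · obtain ⟨b, hb⟩ : ∃ b, b = -((d.L0 + d.L1 - d.L2) • d.y1) + (d.L1 + d.L2 - d.L0) • d.y2 +
      (d.L0 + d.L2 - d.L1) • d.y0 := ⟨_, rfl⟩
    obtain ⟨v, hv⟩ : ∃ v, v = b - d.W b := ⟨_, rfl⟩
    have hub : ⟪d.u, b⟫_ℝ = 0 := by
      rw [hb, inner_add_right, inner_add_right, inner_neg_right, inner_smul_right,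
        inner_smul_right, inner_smul_right, h.uy0, h.uy1, h.uy2]; ring
    have huv : ⟪d.u, v⟫_ℝ = 0 := by
      rw [hv, inner_sub_right, ← h.sym, h.Wu, hub, sub_self]
    have hWv : d.W v = -v := by rw [hv, map_sub, h.WW, neg_sub]
    have h1 := h.Qm v v huv huv hWv
    have h2 : ⟪v, b⟫_ℝ * ⟪v, v⟫_ℝ = 0 := by
      have h3 : ⟪v, b⟫_ℝ = ⟪v, (d.L0 + d.L1 - d.L2) • d.y1 + (d.L1 + d.L2 - d.L0) • d.y2 +
          (d.L0 + d.L2 - d.L1) • d.y0⟫_ℝ - 2 * (d.L0 + d.L1 - d.L2) * ⟪v, d.y1⟫_ℝ := by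
        rw [hb]
        simp only [inner_add_right, inner_neg_right, inner_smul_right]
        ring
      rw [h3, sub_mul, h1]; ring
    have h3 : ⟪v, v⟫_ℝ = 2 * ⟪v, b⟫_ℝ := by
      nth_rewrite 2 [hv]
      rw [inner_sub_right, ← h.sym, hWv, inner_neg_left]; ring
    have h4 : ⟪v, v⟫_ℝ = 0 := by
      rcases mul_eq_zero.1 h2 with h5 | h5
      · rw [h3, h5, mul_zero]
      · exact h5
    have h5 : b - d.W b = 0 := by rw [← hv]; exact inner_self_eq_zero.1 h4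
    have h6 : ⟪w, b - d.W b⟫_ℝ = 0 := by rw [h5, inner_zero_right]
    rw [hb] at h6
    simp only [map_add, map_neg, map_smul, inner_sub_right, inner_add_right, inner_neg_right,
      inner_smul_right] at h6
    simp only [inner_sub_right]
    linarith

end Dat

/-- The linear algebra of three mirrors. -/
theorem no_dat (hd : 3 ≤ Module.finrank ℝ E) {d : Dat E} (h0 : d.OK) (h1 : d.rot.OK)
    (h2 : d.rot.rot.OK) : False := by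
  obtain ⟨u, W, y0, y1, y2, L0, L1, L2⟩ := d
  -- the facts
  have r0 : (Dat.mk u W y0 y1 y2 L0 L1 L2).OK := h0
  have r1 : (Dat.mk u W y1 y2 (W y0) L1 L2 L0).OK := h1
  have r2 : (Dat.mk u W y2 (W y0) (W y1) L2 L0 L1).OK := h2
  clear h0 h1 h2
  have p0 : 0 < L0 := r0.L0pos
  have p1 : 0 < L1 := r0.L1pos
  have p2 : 0 < L2 := r0.L2pos
  have WW : ∀ v, W (W v) = v := r0.WW
  have Wu : W u = u := r0.Wu
  have sym : ∀ v w, ⟪W v, w⟫_ℝ = ⟪v, W w⟫_ℝ := r0.sym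
  -- a vector in the even part
  by_cases hA : ∀ v, ⟪u, v⟫_ℝ = 0 → W v = -v
  · have a0 : L0 + L1 - L2 = 0 := r0.caseA hd hA
    have a1 : L1 + L2 - L0 = 0 := r1.caseA hd hA
    linarith
  push Not at hA
  obtain ⟨v, hv, hvW⟩ := hA
  obtain ⟨e', he'⟩ : ∃ e', e' = v + W v := ⟨_, rfl⟩
  have he'0 : e' ≠ 0 := by
    intro h
    apply hvW
    rw [h] at he'
    exact eq_neg_of_add_eq_zero_right he'.symm
  have he'u : ⟪u, e'⟫_ℝ = 0 := by rw [he', inner_add_right, ← sym, Wu, hv, add_zero]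
  have he'W : W e' = e' := by rw [he', map_add, WW, add_comm]
  -- normalise
  obtain ⟨e, he⟩ : ∃ e, e = (‖e'‖⁻¹ : ℝ) • e' := ⟨_, rfl⟩
  have hne' : ‖e'‖ ≠ 0 := norm_ne_zero_iff.2 he'0
  have hee : ⟪e, e⟫_ℝ = 1 := by
    rw [he, inner_smul_left, inner_smul_right, real_inner_self_eq_norm_sq]
    simp only [conj_trivial]
    field_simp
  have heu : ⟪u, e⟫_ℝ = 0 := by rw [he, inner_smul_right, he'u, mul_zero]
  have heW : W e = e := by rw [he, map_smul, he'W]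
  have he0 : e ≠ 0 := by
    intro h; rw [h, inner_zero_left] at hee; exact zero_ne_one hee
  clear he he'W he'u he'0 he' hne' hvW hv
  -- the even part is spanned by `e`
  have one : ∀ v, ⟪u, v⟫_ℝ = 0 → W v = v → v = ⟪e, v⟫_ℝ • e := by
    intro v hv hWv
    have hs : y1 + W y1 ≠ 0 := r0.even_ne he0 heu heW
    -- both `e` and `v` are orthogonal to each other's complement
    have key : ∀ a b : ℝ, a * ⟪v, y1⟫_ℝ + b * ⟪e, y1⟫_ℝ = 0 → a • v + b • e = 0 := by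
      intro a b hab
      refine r0.one_dim (v := a • v + b • e) ?_ ?_ ?_
      · change ⟪u, a • v + b • e⟫_ℝ = 0
        rw [inner_add_right, inner_smul_right, inner_smul_right, hv, heu]; ring
      · change W (a • v + b • e) = a • v + b • e
        rw [map_add, map_smul, map_smul, hWv, heW]
      · change ⟪a • v + b • e, y1⟫_ℝ = 0
        rw [inner_add_left, real_inner_smul_left, real_inner_smul_left, hab]
    have hey : ⟪e, y1⟫_ℝ ≠ 0 := by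
      intro h
      have := key 0 1 (by rw [h]; ring)
      rw [zero_smul, one_smul, zero_add] at this
      exact he0 this
    have h1 := key ⟪e, y1⟫_ℝ (-⟪v, y1⟫_ℝ) (by ring)
    have h2 : v = (⟪v, y1⟫_ℝ / ⟪e, y1⟫_ℝ) • e := by
      have h3 : ⟪e, y1⟫_ℝ • v = ⟪v, y1⟫_ℝ • e := by
        rw [neg_smul, ← sub_eq_add_neg, sub_eq_zero] at h1; exact h1
      rw [div_eq_inv_mul, mul_smul, ← h3, smul_smul, inv_mul_cancel₀ hey, one_smul]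
    have h3 : ⟪e, v⟫_ℝ = ⟪v, y1⟫_ℝ / ⟪e, y1⟫_ℝ := by
      nth_rewrite 1 [h2]
      rw [inner_smul_right, hee, mul_one]
    rw [h3]; exact h2
  -- a vector in the odd part
  obtain ⟨m, hm0, hmu, hme⟩ := exists_perp hd u e
  have hmW : W m = -m := by
    have h1 := one (m + W m) (by rw [inner_add_right, ← sym, Wu, hmu, add_zero])
      (by rw [map_add, WW, add_comm])
    rw [inner_add_right, ← sym, heW, hme, add_zero, zero_smul] at h1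
    exact eq_neg_of_add_eq_zero_right h1
  have hmm : ⟪m, m⟫_ℝ ≠ 0 := fun h => hm0 (inner_self_eq_zero.1 h)
  have hem : ⟪m, e⟫_ℝ = 0 := by rw [real_inner_comm]; exact hme
  -- even components of a vector
  have dec : ∀ y, ⟪u, y⟫_ℝ = 0 → y + W y = (2 * ⟪e, y⟫_ℝ) • e := by
    intro y hy
    have h1 := one (y + W y) (by rw [inner_add_right, ← sym, Wu, hy, add_zero])
      (by rw [map_add, WW, add_comm])
    rw [h1, inner_add_right, ← sym, heW]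
    congr 1; ring
  have uy0 : ⟪u, y0⟫_ℝ = 0 := r0.uy0
  have uy1 : ⟪u, y1⟫_ℝ = 0 := r0.uy1
  have uy2 : ⟪u, y2⟫_ℝ = 0 := r0.uy2
  obtain ⟨a0, ha0⟩ : ∃ a0, a0 = ⟪e, y0⟫_ℝ := ⟨_, rfl⟩
  obtain ⟨a1, ha1⟩ : ∃ a1, a1 = ⟪e, y1⟫_ℝ := ⟨_, rfl⟩
  obtain ⟨a2, ha2⟩ : ∃ a2, a2 = ⟪e, y2⟫_ℝ := ⟨_, rfl⟩
  have eW : ∀ y, ⟪e, W y⟫_ℝ = ⟪e, y⟫_ℝ := fun y => by rw [← sym, heW]
  have n1 : a1 ≠ 0 := by
    intro h
    have : y1 + W y1 ≠ 0 := r0.even_ne he0 heu heW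
    apply this
    rw [dec y1 uy1, ← ha1, h]; simp
  have n2 : a2 ≠ 0 := by
    intro h
    have : y2 + W y2 ≠ 0 := r1.even_ne he0 heu heW
    apply this
    rw [dec y2 uy2, ← ha2, h]; simp
  have n0 : a0 ≠ 0 := by
    intro h
    have : W y0 + W (W y0) ≠ 0 := r2.even_ne he0 heu heW
    apply this
    rw [WW, add_comm, dec y0 uy0, ← ha0, h]; simp
  -- the first relation
  have s1 : a0 + a1 + a2 = 0 := by
    have h1 : ⟪e, y1 - y2 - y0⟫_ℝ * ⟪e, e⟫_ℝ = 2 * ⟪e, e⟫_ℝ * ⟪e, y1⟫_ℝ := r0.Qp e e heu heu heW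
    rw [hee, inner_sub_right, inner_sub_right, ← ha1, ← ha2, ← ha0] at h1
    linarith
  have s2 : (L0 + L1 - L2) * a1 + (L1 + L2 - L0) * a2 + (L0 + L2 - L1) * a0 = 0 := by
    have h1 : ⟪e, (L0 + L1 - L2) • y1 + (L1 + L2 - L0) • y2 + (L0 + L2 - L1) • y0⟫_ℝ * ⟪m, m⟫_ℝ =
      2 * (L0 + L1 - L2) * ⟪m, e⟫_ℝ * ⟪m, y1⟫_ℝ := r0.Qm m e hmu heu hmW
    rw [hem, mul_zero, zero_mul] at h1
    have h2 := (mul_eq_zero.1 h1).resolve_right hmm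
    simp only [inner_add_right, inner_smul_right, ← ha1, ← ha2, ← ha0] at h2
    exact h2
  -- the sides are different
  have neL : ¬ (L0 = L1 ∧ L1 = L2) := fun h => r1.ne (r0.neL h.1 h.2)
  have k12 : a1 * (L2 - L1) = a2 * (L1 - L0) := by
    have : 2 * (a1 * (L2 - L1) - a2 * (L1 - L0)) = 0 := by
      linear_combination (L0 + L2 - L1) * s1 - s2
    linarith
  have k20 : a2 * (L0 - L2) = a0 * (L2 - L1) := by
    have : 2 * (a2 * (L0 - L2) - a0 * (L2 - L1)) = 0 := by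
      linear_combination (L0 + L1 - L2) * s1 - s2
    linarith
  have m1 : L0 ≠ L1 := by
    intro h
    rw [h, sub_self, mul_zero] at k12
    have := (mul_eq_zero.1 k12).resolve_left n1
    exact neL ⟨h, by linarith⟩
  have m2 : L1 ≠ L2 := by
    intro h
    rw [h, sub_self, mul_zero] at k12
    have := (mul_eq_zero.1 k12.symm).resolve_left n2
    exact neL ⟨by linarith, h⟩
  have m0 : L2 ≠ L0 := by
    intro h
    rw [← h, sub_self, mul_zero] at k20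
    have := (mul_eq_zero.1 k20.symm).resolve_left n0
    exact neL ⟨by linarith, by linarith⟩
  obtain ⟨c1, c2, c0⟩ := alg1 s1 s2 m1
  obtain ⟨α, hα⟩ : ∃ α, α = a1 / (L1 - L0) := ⟨_, rfl⟩
  rw [← hα] at c1 c2 c0
  have hα0 : α ≠ 0 := by
    intro h; rw [h, zero_mul] at c1; exact n1 c1
  -- the odd parts vanish
  have C0 : W (y1 - y2 - y0) = y1 - y2 - y0 := r0.caseC he0 heu heW
  have C1 : W (y2 - W y0 - y1) = y2 - W y0 - y1 := r1.caseC he0 heu heW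
  have C2 : W (W y0 - W y1 - y2) = W y0 - W y1 - y2 := r2.caseC he0 heu heW
  have Z0 : (2 * L2) • (-(⟪e, y1⟫_ℝ • (y1 - W y1)) + ⟪e, y2⟫_ℝ • (y2 - W y2) +
      ⟪e, y0⟫_ℝ • (y0 - W y0)) +
      ((L0 + L1 + L2) * ⟪e, y1 - y2 - y0⟫_ℝ) • ((y2 - W y2) + (y0 - W y0)) = 0 :=
    r0.Z4 C0 e heu heW
  have Z1 : (2 * L0) • (-(⟪e, y2⟫_ℝ • (y2 - W y2)) + ⟪e, W y0⟫_ℝ • (W y0 - W (W y0)) +
      ⟪e, y1⟫_ℝ • (y1 - W y1)) +
      ((L1 + L2 + L0) * ⟪e, y2 - W y0 - y1⟫_ℝ) • ((W y0 - W (W y0)) + (y1 - W y1)) = 0 :=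
    r1.Z4 C1 e heu heW
  have Z2 : (2 * L1) • (-(⟪e, W y0⟫_ℝ • (W y0 - W (W y0))) + ⟪e, W y1⟫_ℝ • (W y1 - W (W y1)) +
      ⟪e, y2⟫_ℝ • (y2 - W y2)) +
      ((L2 + L0 + L1) * ⟪e, W y0 - W y1 - y2⟫_ℝ) • ((W y1 - W (W y1)) + (y2 - W y2)) = 0 :=
    r2.Z4 C2 e heu heW
  have odd0 : ∀ w, ⟪w, y1 - W y1⟫_ℝ = 0 := by
    intro w
    obtain ⟨t1, t2⟩ := r0.odd he0 heu heW w
    change ⟪w, y1 - W y1⟫_ℝ = ⟪w, y2 - W y2⟫_ℝ + ⟪w, y0 - W y0⟫_ℝ at t1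
    change (L0 + L1 - L2) * ⟪w, y1 - W y1⟫_ℝ = (L1 + L2 - L0) * ⟪w, y2 - W y2⟫_ℝ +
      (L0 + L2 - L1) * ⟪w, y0 - W y0⟫_ℝ at t2
    have z0 := congrArg (fun x => ⟪w, x⟫_ℝ) Z0
    have z1 := congrArg (fun x => ⟪w, x⟫_ℝ) Z1
    have z2 := congrArg (fun x => ⟪w, x⟫_ℝ) Z2
    simp only [WW, eW] at z1 z2
    have e0 : ⟪e, y1 - y2 - y0⟫_ℝ = 2 * a1 := by
      rw [inner_sub_right, inner_sub_right, ← ha1, ← ha2, ← ha0]; linarith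
    have e1 : ⟪e, y2 - W y0 - y1⟫_ℝ = 2 * a2 := by
      rw [inner_sub_right, inner_sub_right, eW, ← ha1, ← ha2, ← ha0]; linarith
    have e2 : ⟪e, W y0 - W y1 - y2⟫_ℝ = 2 * a0 := by
      rw [inner_sub_right, inner_sub_right, eW, eW, ← ha1, ← ha2, ← ha0]; linarith
    have g0 : ⟪w, W y0 - y0⟫_ℝ = -⟪w, y0 - W y0⟫_ℝ := by rw [← inner_neg_right, neg_sub]
    have g1 : ⟪w, W y1 - y1⟫_ℝ = -⟪w, y1 - W y1⟫_ℝ := by rw [← inner_neg_right, neg_sub]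
    rw [e0] at z0
    rw [e1] at z1
    rw [e2] at z2
    simp only [inner_add_right, inner_smul_right, inner_neg_right, inner_zero_right,
      ← ha0, ← ha1, ← ha2, g0, g1] at z0 z1 z2
    generalize ⟪w, y1 - W y1⟫_ℝ = q1 at *
    generalize ⟪w, y2 - W y2⟫_ℝ = q2 at *
    generalize ⟪w, y0 - W y0⟫_ℝ = q0 at *
    refine alg2 (x := L0) (y := L1) (z := L2) (α := α) (q0 := q0) (q1 := q1) (q2 := q2)
      p0 p1 p2 hα0 m1 m2 m0 t1 t2 ?_ ?_ ?_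
    · rw [← c1, ← c2, ← c0]; linear_combination z0 / 2
    · rw [← c1, ← c2, ← c0]; linear_combination z1 / 2
    · rw [← c1, ← c2, ← c0]; linear_combination z2 / 2
  have odd2 : ∀ w, ⟪w, y2 - W y2⟫_ℝ = 0 ∧ ⟪w, y0 - W y0⟫_ℝ = 0 := by
    intro w
    obtain ⟨t1, t2⟩ := r0.odd he0 heu heW w
    change ⟪w, y1 - W y1⟫_ℝ = ⟪w, y2 - W y2⟫_ℝ + ⟪w, y0 - W y0⟫_ℝ at t1
    change (L0 + L1 - L2) * ⟪w, y1 - W y1⟫_ℝ = (L1 + L2 - L0) * ⟪w, y2 - W y2⟫_ℝ +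
      (L0 + L2 - L1) * ⟪w, y0 - W y0⟫_ℝ at t2
    rw [odd0 w] at t1 t2
    have h1 : (L0 - L1) * ⟪w, y0 - W y0⟫_ℝ = 0 := by
      linear_combination (-1 / 2 : ℝ) * t2 + ((L1 + L2 - L0) / 2) * t1
    have h2 := (mul_eq_zero.1 h1).resolve_left (sub_ne_zero.2 m1)
    exact ⟨by linarith, h2⟩
  have v1 : W y1 = y1 := (sub_eq_zero.1 (inner_self_eq_zero.1 (odd0 (y1 - W y1)))).symm
  have v2 : W y2 = y2 := (sub_eq_zero.1 (inner_self_eq_zero.1 (odd2 (y2 - W y2)).1)).symm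
  have v0 : W y0 = y0 := (sub_eq_zero.1 (inner_self_eq_zero.1 (odd2 (y0 - W y0)).2)).symm
  have w1 : y1 = a1 • e := by rw [ha1]; exact one _ uy1 v1
  have w2 : y2 = a2 • e := by rw [ha2]; exact one _ uy2 v2
  have w0 : y0 = a0 • e := by rw [ha0]; exact one _ uy0 v0
  have X0 : ((L1 + L2 - L0) * (1 + ⟪y2, y1⟫_ℝ) + (L0 + L2 - L1) * (1 + ⟪y0, y1⟫_ℝ)) • m = 0 :=
    r0.Z7 v1 m hmu hmW
  have X1 : ((L2 + L0 - L1) * (1 + ⟪W y0, y2⟫_ℝ) + (L1 + L0 - L2) * (1 + ⟪y1, y2⟫_ℝ)) • m = 0 :=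
    r1.Z7 v2 m hmu hmW
  have X2 : ((L0 + L1 - L2) * (1 + ⟪W y1, W y0⟫_ℝ) + (L2 + L1 - L0) * (1 + ⟪y2, W y0⟫_ℝ)) • m = 0 :=
    r2.Z7 (by change W (W y0) = W y0; rw [v0, v0]) m hmu hmW
  rw [v0] at X1 X2
  rw [v1] at X2
  have ii : ∀ a b : ℝ, ⟪a • e, b • e⟫_ℝ = a * b := by
    intro a b
    rw [real_inner_smul_left, inner_smul_right, hee, mul_one]
  rw [w0, w1, w2] at X0 X1 X2
  simp only [ii] at X0 X1 X2
  have x0 := (smul_eq_zero.1 X0).resolve_right hm0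
  have x1 := (smul_eq_zero.1 X1).resolve_right hm0
  have x2 := (smul_eq_zero.1 X2).resolve_right hm0
  exact alg3 (x := L0) (y := L1) (z := L2) p0 p1 p2 m1 m2 m0 c1 c2 c0 hα0 x0
    (by linear_combination x1) (by linear_combination x2)

end Pool.Agent.TH746
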