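import Pool.Agent.TH746.Cyc
import Pool.Agent.H721R2.Ivrii.Flat

set_option autoImplicit false

open MeasureTheory Set Filter Topology
open scoped InnerProductSpace
open Pool.Agent.H721R2.Quart Pool.Agent.H721R2.Ivrii

namespace Pool.Agent.TH746

/-! ### Quasi-periodic extension of sequences -/

/-- The extension of the first `n` terms of a sequence. -/
def qext {α : Type*} (φ : α → α) (n : ℕ) (f : ℕ → α) (k : ℕ) : α := φ^[k / n] (f (k % n))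

theorem qext_lt {α : Type*} (φ : α → α) {n : ℕ} (f : ℕ → α) {k : ℕ} (h : k < n) :
    qext φ n f k = f k := by
  unfold qext
  rw [Nat.div_eq_of_lt h, Nat.mod_eq_of_lt h]
  rfl

theorem qext_add {α : Type*} (φ : α → α) {n : ℕ} (hn : 0 < n) (f : ℕ → α) (k : ℕ) :
    qext φ n f (k + n) = φ (qext φ n f k) := by
  unfold qext
  rw [Nat.add_div_right k hn, Nat.add_mod_right, Function.iterate_succ_apply']

theorem per_ind {P : ℕ → Prop} {n : ℕ} (hn : 0 < n) (h0 : ∀ k < n, P k)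
    (hs : ∀ k, P k → P (k + n)) : ∀ k, P k := by
  intro k
  induction k using Nat.strong_induction_on with
  | _ k ih =>
    rcases lt_or_ge k n with h | h
    · exact h0 k h
    · obtain ⟨j, rfl⟩ : ∃ j, k = j + n := ⟨k - n, by omega⟩
      exact hs j (ih j (by omega))

/-! ### The linear algebra of the variations -/

/-- The variations are arbitrary on all sides if they are arbitrary on the side `0`. -/
theorem surj_all {E Z : Type*} [NormedAddCommGroup E] [InnerProductSpace ℝ E]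
    (e n : ℕ → E) (L : ℕ → ℝ) (S : ℕ → E → E) (X D : ℕ → Z → E)
    (ℓ : ℕ → Z → ℝ) (hn : ∀ k, ⟪n k, n k⟫_ℝ = 1)
    (hrefl : ∀ k, e (k + 1) = rf (n (k + 1)) (e k))
    (htr : ∀ k, ⟪n k, e k⟫_ℝ ≠ 0) (hsym : ∀ k v w, ⟪S k v, w⟫_ℝ = ⟪v, S k w⟫_ℝ)
    (hSn : ∀ k, S k (n k) = 0) (hX : ∀ k ζ, ⟪n k, X k ζ⟫_ℝ = 0)
    (hstep : ∀ k ζ, X (k + 1) ζ = X k ζ + ℓ k ζ • e k + L k • D k ζ)
    (hrj : ∀ k ζ, D (k + 1) ζ = rf (n (k + 1)) (D k ζ)
      - (2 * ⟪-S (k + 1) (X (k + 1) ζ), e k⟫_ℝ) • n (k + 1)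
      - (2 * ⟪n (k + 1), e k⟫_ℝ) • (-S (k + 1) (X (k + 1) ζ)))
    (h0 : ∀ Y δ, ⟪n 0, Y⟫_ℝ = 0 → ⟪e 0, δ⟫_ℝ = 0 → ∃ ζ, X 0 ζ = Y ∧ D 0 ζ = δ) :
    ∀ k Y δ, ⟪n k, Y⟫_ℝ = 0 → ⟪e k, δ⟫_ℝ = 0 → ∃ ζ, X k ζ = Y ∧ D k ζ = δ := by
  have htr' : ∀ k, ⟪n (k + 1), e k⟫_ℝ ≠ 0 := by
    intro k h
    apply htr (k + 1)
    rw [hrefl k]
    unfold rf
    rw [inner_sub_right, inner_smul_right, h]
    simp
  intro k
  induction k with
  | zero => exact h0
  | succ k ih =>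
    intro Y δ hY hδ
    -- the kick at the vertex `k + 1`
    obtain ⟨K, hK⟩ : ∃ K, K = -S (k + 1) Y := ⟨_, rfl⟩
    have hKn : ⟪K, n (k + 1)⟫_ℝ = 0 := by
      rw [hK, inner_neg_left, hsym, hSn, inner_zero_right, neg_zero]
    obtain ⟨DD, hDD⟩ : ∃ DD, DD = rf (n (k + 1)) (δ + (2 * ⟪K, e k⟫_ℝ) • n (k + 1) +
      (2 * ⟪n (k + 1), e k⟫_ℝ) • K) := ⟨_, rfl⟩
    have hDDe : ⟪e k, DD⟫_ℝ = 0 := by
      rw [hDD, ← G3_rf_sym, ← hrefl k, inner_add_right, inner_add_right, hδ, inner_smul_right,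
        inner_smul_right]
      have h1 : ⟪e (k + 1), n (k + 1)⟫_ℝ = -⟪n (k + 1), e k⟫_ℝ := by
        rw [hrefl k, real_inner_comm]
        unfold rf
        rw [inner_sub_right, inner_smul_right, hn]
        ring
      have h2 : ⟪e (k + 1), K⟫_ℝ = ⟪K, e k⟫_ℝ := by
        rw [hrefl k, real_inner_comm]
        unfold rf
        rw [inner_sub_right, inner_smul_right, hKn]
        ring
      rw [h1, h2]
      ring
    -- the previous vertex
    obtain ⟨s, hs⟩ : ∃ s, s = ⟪n k, Y - L k • DD⟫_ℝ / ⟪n k, e k⟫_ℝ := ⟨_, rfl⟩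
    obtain ⟨ζ, h1, h2⟩ := ih (Y - L k • DD - s • e k) DD (by
      rw [inner_sub_right, inner_smul_right, hs, div_mul_cancel₀ _ (htr k), sub_self]) hDDe
    have h3 : X (k + 1) ζ = Y + (ℓ k ζ - s) • e k := by
      rw [hstep, h1, h2]; module
    have h4 : ℓ k ζ - s = 0 := by
      have h5 := hX (k + 1) ζ
      rw [h3, inner_add_right, hY, zero_add, inner_smul_right] at h5
      exact (mul_eq_zero.1 h5).resolve_right (htr' k)
    rw [h4, zero_smul, add_zero] at h3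
    refine ⟨ζ, h3, ?_⟩
    rw [hrj k ζ, h3, h2, ← hK, hDD, G3_rf_invol (hn _)]
    module

/-- A chain of mirrors: a family of trajectories with `N` bounces, parametrised by the initial
position and direction. -/
structure Chn (E Z : Type*) [NormedAddCommGroup E] [InnerProductSpace ℝ E]
    [NormedAddCommGroup Z] [NormedSpace ℝ Z] where
  U : Set Z
  hU : IsOpen U
  N : ℕ
  hN : 0 < N
  g : E ≃ᵃⁱ[ℝ] E
  x : ℕ → Z → E
  e : ℕ → Z → E
  n : ℕ → Z → E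
  L : ℕ → Z → ℝ
  S : ℕ → Z → E →L[ℝ] E
  dx : ∀ k ≤ N, ∀ z ∈ U, DifferentiableAt ℝ (x k) z
  de : ∀ k ≤ N, ∀ z ∈ U, DifferentiableAt ℝ (e k) z
  dn : ∀ k ≤ N, ∀ z ∈ U, DifferentiableAt ℝ (n k) z
  dL : ∀ k < N, ∀ z ∈ U, DifferentiableAt ℝ (L k) z
  dS : ∀ k < N, ∀ z ∈ U, DifferentiableAt ℝ (S k) z
  Lpos : ∀ k < N, ∀ z ∈ U, 0 < L k z
  ee : ∀ k < N, ∀ z ∈ U, ⟪e k z, e k z⟫_ℝ = 1
  nn : ∀ k < N, ∀ z ∈ U, ⟪n k z, n k z⟫_ℝ = 1
  step : ∀ k < N, ∀ z, x (k + 1) z = x k z + L k z • e k z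
  refl : ∀ k < N, ∀ z, e (k + 1) z = rf (n (k + 1) z) (e k z)
  tr : ∀ k < N, ∀ z ∈ U, ⟪n k z, e k z⟫_ℝ ≠ 0
  sym : ∀ k < N, ∀ z ∈ U, ∀ v w, ⟪S k z v, w⟫_ℝ = ⟪v, S k z w⟫_ℝ
  Sn : ∀ k < N, ∀ z ∈ U, S k z (n k z) = 0
  tan : ∀ k < N, ∀ z ∈ U, ∀ ζ, ⟪n k z, fderiv ℝ (x k) z ζ⟫_ℝ = 0
  njac : ∀ k < N, ∀ z ∈ U, ∀ ζ, fderiv ℝ (n k) z ζ = -S k z (fderiv ℝ (x k) z ζ)
  Sjac : ∀ k < N, ∀ z ∈ U, ∀ ζ, fderiv ℝ (x k) z ζ = 0 → fderiv ℝ (S k) z ζ = 0
  surj : ∀ z ∈ U, ∀ Y δ, ⟪n 0 z, Y⟫_ℝ = 0 → ⟪e 0 z, δ⟫_ℝ = 0 →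
    ∃ ζ, fderiv ℝ (x 0) z ζ = Y ∧ fderiv ℝ (e 0) z ζ = δ

namespace Chn

section
variable {E Z : Type*} [NormedAddCommGroup E] [InnerProductSpace ℝ E]
  [NormedAddCommGroup Z] [NormedSpace ℝ Z] (C : Chn E Z)

/-- The linear part of the isometry. -/
noncomputable def G : E →L[ℝ] E := (C.g.linearIsometryEquiv.toContinuousLinearEquiv : E →L[ℝ] E)

/-- Its inverse. -/
noncomputable def Gi : E →L[ℝ] E :=
  (C.g.linearIsometryEquiv.symm.toContinuousLinearEquiv : E →L[ℝ] E)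

theorem G_apply (v : E) : C.G v = C.g.linearIsometryEquiv v := rfl

theorem G_iso (v w : E) : ⟪C.G v, C.G w⟫_ℝ = ⟪v, w⟫_ℝ := C.g.linearIsometryEquiv.inner_map_map v w

theorem G_Gi (v : E) : C.G (C.Gi v) = v := C.g.linearIsometryEquiv.apply_symm_apply v

theorem Gi_G (v : E) : C.Gi (C.G v) = v := C.g.linearIsometryEquiv.symm_apply_apply v

theorem G_adj (v w : E) : ⟪C.G v, w⟫_ℝ = ⟪v, C.Gi w⟫_ℝ := by
  nth_rewrite 1 [← C.G_Gi w]
  rw [C.G_iso]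

theorem G_rf (n v : E) : C.G (rf n v) = rf (C.G n) (C.G v) := by
  unfold rf
  rw [map_sub, map_smul, C.G_iso]

/-- The closed trajectories, the mirrors not in `M` being flat. -/
def A (M : Set ℕ) : Set Z :=
  {z | z ∈ C.U ∧ C.x C.N z = C.g (C.x 0 z) ∧ C.e C.N z = C.G (C.e 0 z) ∧
    C.n C.N z = C.G (C.n 0 z) ∧ ∀ k < C.N, k ∉ M → C.S k z = 0}

theorem meas_zero {F' : Type*} [NormedAddCommGroup F'] [MeasurableSpace Z] [BorelSpace Z]
    {f : Z → F'} (hf : ∀ z ∈ C.U, ContinuousAt f z) : MeasurableSet (C.U ∩ f ⁻¹' {0}) := by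
  have hc : ContinuousOn f C.U := fun z hz => (hf z hz).continuousWithinAt
  have ho := hc.isOpen_inter_preimage C.hU (isOpen_compl_singleton (x := (0 : F')))
  have he : C.U ∩ f ⁻¹' {0} = C.U \ (C.U ∩ f ⁻¹' {0}ᶜ) := by
    ext z; simp only [mem_inter_iff, mem_preimage, mem_singleton_iff, Set.mem_sdiff, mem_compl_iff]
    tauto
  rw [he]
  exact C.hU.measurableSet.diff ho.measurableSet

end

variable {E Z : Type*} [NormedAddCommGroup E] [InnerProductSpace ℝ E] [FiniteDimensional ℝ E]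
  [NormedAddCommGroup Z] [NormedSpace ℝ Z] [FiniteDimensional ℝ Z] [MeasurableSpace Z]
  [BorelSpace Z] (C : Chn E Z)

theorem exists_good (μ : Measure Z) [μ.IsAddHaarMeasure] (M : Set ℕ) :
    ∃ B ⊆ C.A M, MeasurableSet B ∧ μ (C.A M \ B) = 0 ∧ ∀ z ∈ B,
      (∀ ζ, fderiv ℝ (C.x C.N) z ζ = C.G (fderiv ℝ (C.x 0) z ζ)) ∧
      (∀ ζ, fderiv ℝ (C.e C.N) z ζ = C.G (fderiv ℝ (C.e 0) z ζ)) ∧
      (∀ ζ, fderiv ℝ (C.n C.N) z ζ = C.G (fderiv ℝ (C.n 0) z ζ)) := by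
  have hN := C.hN
  have d1 : ∀ z ∈ C.U, HasFDerivAt (fun z => C.x C.N z - C.g (C.x 0 z))
      (fderiv ℝ (C.x C.N) z - C.G.comp (fderiv ℝ (C.x 0) z)) z := by
    intro z hz
    exact (C.dx C.N le_rfl z hz).hasFDerivAt.sub
      ((isom_hasFDerivAt C.g (C.x 0 z)).comp z (C.dx 0 hN.le z hz).hasFDerivAt)
  have d2 : ∀ z ∈ C.U, HasFDerivAt (fun z => C.e C.N z - C.G (C.e 0 z))
      (fderiv ℝ (C.e C.N) z - C.G.comp (fderiv ℝ (C.e 0) z)) z := by
    intro z hz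
    exact (C.de C.N le_rfl z hz).hasFDerivAt.sub
      (C.G.hasFDerivAt.comp z (C.de 0 hN.le z hz).hasFDerivAt)
  have d3 : ∀ z ∈ C.U, HasFDerivAt (fun z => C.n C.N z - C.G (C.n 0 z))
      (fderiv ℝ (C.n C.N) z - C.G.comp (fderiv ℝ (C.n 0) z)) z := by
    intro z hz
    exact (C.dn C.N le_rfl z hz).hasFDerivAt.sub
      (C.G.hasFDerivAt.comp z (C.dn 0 hN.le z hz).hasFDerivAt)
  have hAm : MeasurableSet (C.A M) := by
    have hA : C.A M = ((C.U ∩ (fun z => C.x C.N z - C.g (C.x 0 z)) ⁻¹' {0}) ∩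
        ((C.U ∩ (fun z => C.e C.N z - C.G (C.e 0 z)) ⁻¹' {0}) ∩
        (C.U ∩ (fun z => C.n C.N z - C.G (C.n 0 z)) ⁻¹' {0}))) ∩
        ⋂ k ∈ {k : ℕ | k < C.N ∧ k ∉ M}, (C.U ∩ (C.S k) ⁻¹' {0}) := by
      ext z
      simp only [A, mem_ofPred_eq, mem_inter_iff, mem_preimage, mem_singleton_iff, sub_eq_zero,
        mem_iInter]
      constructor
      · rintro ⟨h1, h2, h3, h4, h5⟩
        exact ⟨⟨⟨h1, h2⟩, ⟨h1, h3⟩, ⟨h1, h4⟩⟩, fun k hk => ⟨h1, h5 k hk.1 hk.2⟩⟩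
      · rintro ⟨⟨⟨h1, h2⟩, ⟨-, h3⟩, ⟨-, h4⟩⟩, h5⟩
        exact ⟨h1, h2, h3, h4, fun k hk hkM => (h5 k ⟨hk, hkM⟩).2⟩
    rw [hA]
    refine ((C.meas_zero fun z hz => (d1 z hz).continuousAt).inter
      ((C.meas_zero fun z hz => (d2 z hz).continuousAt).inter
      (C.meas_zero fun z hz => (d3 z hz).continuousAt))).inter
      (MeasurableSet.biInter (Set.to_countable _) fun k hk => ?_)
    exact C.meas_zero fun z hz => (C.dS k hk.1 z hz).continuousAt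
  obtain ⟨B1, s1, m1, n1, g1⟩ := ae_zero μ hAm (f := fun z => C.x C.N z - C.g (C.x 0 z))
    (fun z hz => (d1 z hz.1).differentiableAt)
  obtain ⟨B2, s2, m2, n2, g2⟩ := ae_zero μ hAm (f := fun z => C.e C.N z - C.G (C.e 0 z))
    (fun z hz => (d2 z hz.1).differentiableAt)
  obtain ⟨B3, s3, m3, n3, g3⟩ := ae_zero μ hAm (f := fun z => C.n C.N z - C.G (C.n 0 z))
    (fun z hz => (d3 z hz.1).differentiableAt)
  refine ⟨B1 ∩ (B2 ∩ B3), fun z hz => s1 hz.1, m1.inter (m2.inter m3), ?_, ?_⟩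
  · have h : C.A M \ (B1 ∩ (B2 ∩ B3)) ⊆ (C.A M \ B1) ∪ ((C.A M \ B2) ∪ (C.A M \ B3)) := by
      rw [Set.sdiff_inter, Set.sdiff_inter]
    exact measure_mono_null h (measure_union_null n1 (measure_union_null n2 n3))
  · rintro z ⟨h1, h2, h3⟩
    have hzA := s1 h1
    have hz := hzA.1
    refine ⟨fun ζ => ?_, fun ζ => ?_, fun ζ => ?_⟩
    · have h4 := g1 z h1 (sub_eq_zero.2 hzA.2.1)
      rw [(d1 z hz).fderiv, sub_eq_zero] at h4
      rw [h4]; rfl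
    · have h4 := g2 z h2 (sub_eq_zero.2 hzA.2.2.1)
      rw [(d2 z hz).fderiv, sub_eq_zero] at h4
      rw [h4]; rfl
    · have h4 := g3 z h3 (sub_eq_zero.2 hzA.2.2.2.1)
      rw [(d3 z hz).fderiv, sub_eq_zero] at h4
      rw [h4]; rfl

theorem exists_cyc (μ : Measure Z) [μ.IsAddHaarMeasure] (M : Set ℕ)
    (hM : ∀ k, k + C.N ∈ M ↔ k ∈ M) :
    ∃ F : Cyc E Z, F.q = C.N ∧ F.A ⊆ C.A M ∧ MeasurableSet F.A ∧ μ (C.A M \ F.A) = 0 ∧
      (∀ z v w, ⟪F.V z v, F.V z w⟫_ℝ = ⟪v, w⟫_ℝ) ∧ (∀ k, k ∉ M → ∀ z ∈ F.A, F.S k z = 0) := by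
  obtain ⟨B, hB, hBm, hBn, hd⟩ := C.exists_good μ M
  have hN := C.hN
  have hU : ∀ z ∈ B, z ∈ C.U := fun z hz => (hB hz).1
  obtain ⟨xt, xt0, xta⟩ : ∃ xt : ℕ → Z → E, (∀ k < C.N, xt k = C.x k) ∧
      ∀ k, xt (k + C.N) = fun z => C.g (xt k z) :=
    ⟨qext (fun f z => C.g (f z)) C.N C.x, fun k hk => qext_lt _ _ hk, fun k => qext_add _ hN _ _⟩
  obtain ⟨et, et0, eta⟩ : ∃ xt : ℕ → Z → E, (∀ k < C.N, xt k = C.e k) ∧
      ∀ k, xt (k + C.N) = fun z => C.G (xt k z) :=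
    ⟨qext (fun f z => C.G (f z)) C.N C.e, fun k hk => qext_lt _ _ hk, fun k => qext_add _ hN _ _⟩
  obtain ⟨nt, nt0, nta⟩ : ∃ xt : ℕ → Z → E, (∀ k < C.N, xt k = C.n k) ∧
      ∀ k, xt (k + C.N) = fun z => C.G (xt k z) :=
    ⟨qext (fun f z => C.G (f z)) C.N C.n, fun k hk => qext_lt _ _ hk, fun k => qext_add _ hN _ _⟩
  obtain ⟨Lt, Lt0, Lta⟩ : ∃ xt : ℕ → Z → ℝ, (∀ k < C.N, xt k = C.L k) ∧
      ∀ k, xt (k + C.N) = xt k :=
    ⟨qext (fun f => f) C.N C.L, fun k hk => qext_lt _ _ hk, fun k => qext_add _ hN _ _⟩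
  obtain ⟨St, St0, Sta⟩ : ∃ xt : ℕ → Z → E →L[ℝ] E, (∀ k < C.N, xt k = C.S k) ∧
      ∀ k, xt (k + C.N) = fun z => C.G.comp ((xt k z).comp C.Gi) :=
    ⟨qext (fun f z => C.G.comp ((f z).comp C.Gi)) C.N C.S, fun k hk => qext_lt _ _ hk,
      fun k => qext_add _ hN _ _⟩
  -- differentiability
  have dx : ∀ k, ∀ z ∈ B, DifferentiableAt ℝ (xt k) z := by
    refine per_ind hN (fun k hk z hz => ?_) (fun k h z hz => ?_)
    · rw [xt0 k hk]; exact C.dx k hk.le z (hU z hz)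
    · rw [xta]
      exact ((isom_hasFDerivAt C.g (xt k z)).comp z (h z hz).hasFDerivAt).differentiableAt
  have de : ∀ k, ∀ z ∈ B, DifferentiableAt ℝ (et k) z := by
    refine per_ind hN (fun k hk z hz => ?_) (fun k h z hz => ?_)
    · rw [et0 k hk]; exact C.de k hk.le z (hU z hz)
    · rw [eta]
      exact (C.G.hasFDerivAt.comp z (h z hz).hasFDerivAt).differentiableAt
  have dn : ∀ k, ∀ z ∈ B, DifferentiableAt ℝ (nt k) z := by
    refine per_ind hN (fun k hk z hz => ?_) (fun k h z hz => ?_)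
    · rw [nt0 k hk]; exact C.dn k hk.le z (hU z hz)
    · rw [nta]
      exact (C.G.hasFDerivAt.comp z (h z hz).hasFDerivAt).differentiableAt
  have dL : ∀ k, ∀ z ∈ B, DifferentiableAt ℝ (Lt k) z := by
    refine per_ind hN (fun k hk z hz => ?_) (fun k h z hz => ?_)
    · rw [Lt0 k hk]; exact C.dL k hk z (hU z hz)
    · rw [Lta]; exact h z hz
  have dS : ∀ k, ∀ z ∈ B, DifferentiableAt ℝ (St k) z := by
    refine per_ind hN (fun k hk z hz => ?_) (fun k h z hz => ?_)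
    · rw [St0 k hk]; exact C.dS k hk z (hU z hz)
    · rw [Sta]
      exact (differentiableAt_const _).clm_comp ((h z hz).clm_comp (differentiableAt_const _))
  -- quasi-periodicity of the derivatives
  have fx : ∀ k, ∀ z ∈ B, ∀ ζ, fderiv ℝ (xt (k + C.N)) z ζ = C.G (fderiv ℝ (xt k) z ζ) := by
    intro k z hz ζ
    have h := (isom_hasFDerivAt C.g (xt k z)).comp z (dx k z hz).hasFDerivAt
    have h2 : xt (k + C.N) = C.g ∘ xt k := by rw [xta]; rfl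
    rw [h2, h.fderiv]; rfl
  have fe : ∀ k, ∀ z ∈ B, ∀ ζ, fderiv ℝ (et (k + C.N)) z ζ = C.G (fderiv ℝ (et k) z ζ) := by
    intro k z hz ζ
    have h := C.G.hasFDerivAt.comp z (de k z hz).hasFDerivAt
    have h2 : et (k + C.N) = C.G ∘ et k := by rw [eta]; rfl
    rw [h2, h.fderiv]; rfl
  have fn : ∀ k, ∀ z ∈ B, ∀ ζ, fderiv ℝ (nt (k + C.N)) z ζ = C.G (fderiv ℝ (nt k) z ζ) := by
    intro k z hz ζ
    have h := C.G.hasFDerivAt.comp z (dn k z hz).hasFDerivAt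
    have h2 : nt (k + C.N) = C.G ∘ nt k := by rw [nta]; rfl
    rw [h2, h.fderiv]; rfl
  -- the values up to the index `N`
  have ve : ∀ k ≤ C.N, ∀ z ∈ B, et k z = C.e k z := by
    intro k hk z hz
    rcases Nat.lt_or_ge k C.N with h | h
    · rw [et0 k h]
    · obtain rfl : k = C.N := le_antisymm hk h
      have h1 := eta 0
      rw [zero_add] at h1
      rw [h1, et0 0 hN, (hB hz).2.2.1]
  have vn : ∀ k ≤ C.N, ∀ z ∈ B, nt k z = C.n k z := by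
    intro k hk z hz
    rcases Nat.lt_or_ge k C.N with h | h
    · rw [nt0 k h]
    · obtain rfl : k = C.N := le_antisymm hk h
      have h1 := nta 0
      rw [zero_add] at h1
      rw [h1, nt0 0 hN, (hB hz).2.2.2.1]
  have wx : ∀ k ≤ C.N, ∀ z ∈ B, ∀ ζ, fderiv ℝ (xt k) z ζ = fderiv ℝ (C.x k) z ζ := by
    intro k hk z hz ζ
    rcases Nat.lt_or_ge k C.N with h | h
    · rw [xt0 k h]
    · obtain rfl : k = C.N := le_antisymm hk h
      have h1 := fx 0 z hz ζ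
      rw [zero_add] at h1
      rw [h1, xt0 0 hN, (hd z hz).1]
  have we : ∀ k ≤ C.N, ∀ z ∈ B, ∀ ζ, fderiv ℝ (et k) z ζ = fderiv ℝ (C.e k) z ζ := by
    intro k hk z hz ζ
    rcases Nat.lt_or_ge k C.N with h | h
    · rw [et0 k h]
    · obtain rfl : k = C.N := le_antisymm hk h
      have h1 := fe 0 z hz ζ
      rw [zero_add] at h1
      rw [h1, et0 0 hN, (hd z hz).2.1]
  have wn : ∀ k ≤ C.N, ∀ z ∈ B, ∀ ζ, fderiv ℝ (nt k) z ζ = fderiv ℝ (C.n k) z ζ := by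
    intro k hk z hz ζ
    rcases Nat.lt_or_ge k C.N with h | h
    · rw [nt0 k h]
    · obtain rfl : k = C.N := le_antisymm hk h
      have h1 := fn 0 z hz ζ
      rw [zero_add] at h1
      rw [h1, nt0 0 hN, (hd z hz).2.2]
  -- the relations
  have ee : ∀ k, ∀ z ∈ B, ⟪et k z, et k z⟫_ℝ = 1 := by
    refine per_ind hN (fun k hk z hz => ?_) (fun k h z hz => ?_)
    · rw [et0 k hk]; exact C.ee k hk z (hU z hz)
    · simp only [eta, C.G_iso]; exact h z hz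
  have nn : ∀ k, ∀ z ∈ B, ⟪nt k z, nt k z⟫_ℝ = 1 := by
    refine per_ind hN (fun k hk z hz => ?_) (fun k h z hz => ?_)
    · rw [nt0 k hk]; exact C.nn k hk z (hU z hz)
    · simp only [nta, C.G_iso]; exact h z hz
  have refl : ∀ k, ∀ z ∈ B, et (k + 1) z = rf (nt (k + 1) z) (et k z) := by
    refine per_ind hN (fun k hk z hz => ?_) (fun k h z hz => ?_)
    · rw [ve (k + 1) hk z hz, vn (k + 1) hk z hz, ve k hk.le z hz, C.refl k hk]
    · rw [show k + C.N + 1 = k + 1 + C.N by omega]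
      simp only [eta, nta]
      rw [h z hz, C.G_rf]
  have tr : ∀ k, ∀ z ∈ B, ⟪nt k z, et k z⟫_ℝ ≠ 0 := by
    refine per_ind hN (fun k hk z hz => ?_) (fun k h z hz => ?_)
    · rw [nt0 k hk, et0 k hk]; exact C.tr k hk z (hU z hz)
    · simp only [eta, nta, C.G_iso]; exact h z hz
  have sym : ∀ k, ∀ z ∈ B, ∀ v w, ⟪St k z v, w⟫_ℝ = ⟪v, St k z w⟫_ℝ := by
    refine per_ind hN (fun k hk z hz => ?_) (fun k h z hz v w => ?_)
    · rw [St0 k hk]; exact C.sym k hk z (hU z hz)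
    · simp only [Sta, ContinuousLinearMap.comp_apply]
      rw [C.G_adj, h z hz, ← C.G_iso (C.Gi v), C.G_Gi]
  have Sn : ∀ k, ∀ z ∈ B, St k z (nt k z) = 0 := by
    refine per_ind hN (fun k hk z hz => ?_) (fun k h z hz => ?_)
    · rw [St0 k hk, nt0 k hk]; exact C.Sn k hk z (hU z hz)
    · simp only [Sta, nta, ContinuousLinearMap.comp_apply]
      rw [C.Gi_G, h z hz, map_zero]
  have ejac : ∀ k, ∀ z ∈ B, ∀ ζ, ⟪et k z, fderiv ℝ (et k) z ζ⟫_ℝ = 0 := by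
    refine per_ind hN (fun k hk z hz ζ => ?_) (fun k h z hz ζ => ?_)
    · rw [et0 k hk]
      exact G3_unit C.hU (hU z hz) (C.de k hk.le z (hU z hz)) (C.ee k hk) ζ
    · rw [fe k z hz]
      simp only [eta, C.G_iso]; exact h z hz ζ
  have tan : ∀ k, ∀ z ∈ B, ∀ ζ, ⟪nt k z, fderiv ℝ (xt k) z ζ⟫_ℝ = 0 := by
    refine per_ind hN (fun k hk z hz ζ => ?_) (fun k h z hz ζ => ?_)
    · rw [nt0 k hk, xt0 k hk]; exact C.tan k hk z (hU z hz) ζ
    · rw [fx k z hz]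
      simp only [nta, C.G_iso]; exact h z hz ζ
  have njac : ∀ k, ∀ z ∈ B, ∀ ζ, fderiv ℝ (nt k) z ζ = -St k z (fderiv ℝ (xt k) z ζ) := by
    refine per_ind hN (fun k hk z hz ζ => ?_) (fun k h z hz ζ => ?_)
    · rw [nt0 k hk, xt0 k hk, St0 k hk]; exact C.njac k hk z (hU z hz) ζ
    · rw [fx k z hz, fn k z hz, h z hz]
      simp only [Sta, ContinuousLinearMap.comp_apply]
      rw [C.Gi_G, map_neg]
  have Sjac : ∀ k, ∀ z ∈ B, ∀ ζ, fderiv ℝ (xt k) z ζ = 0 → fderiv ℝ (St k) z ζ = 0 := by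
    refine per_ind hN (fun k hk z hz ζ => ?_) (fun k h z hz ζ hζ => ?_)
    · rw [xt0 k hk, St0 k hk]; exact C.Sjac k hk z (hU z hz) ζ
    · rw [fx k z hz] at hζ
      have h1 : fderiv ℝ (xt k) z ζ = 0 := by
        rw [← C.Gi_G (fderiv ℝ (xt k) z ζ), hζ, map_zero]
      have h2 := h z hz ζ h1
      have h3 := (hasFDerivAt_const C.G z).clm_comp
        ((dS k z hz).hasFDerivAt.clm_comp (hasFDerivAt_const C.Gi z))
      rw [Sta, h3.fderiv]
      ext v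
      simp [h2]
  have stepjac : ∀ k, ∀ z ∈ B, ∀ ζ, fderiv ℝ (xt (k + 1)) z ζ =
      fderiv ℝ (xt k) z ζ + fderiv ℝ (Lt k) z ζ • et k z + Lt k z • fderiv ℝ (et k) z ζ := by
    refine per_ind hN (fun k hk z hz ζ => ?_) (fun k h z hz ζ => ?_)
    · rw [wx (k + 1) hk z hz, xt0 k hk, Lt0 k hk, et0 k hk]
      exact G3_step C.hU (hU z hz) (C.dx k hk.le z (hU z hz)) (C.de k hk.le z (hU z hz))
        (C.dL k hk z (hU z hz)) (fun z _ => C.step k hk z) ζ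
    · rw [show k + C.N + 1 = k + 1 + C.N by omega, fx (k + 1) z hz, fx k z hz, fe k z hz, h z hz,
        Lta, map_add, map_add, map_smul, map_smul]
      simp only [eta]
  have refljac : ∀ k, ∀ z ∈ B, ∀ ζ, fderiv ℝ (et (k + 1)) z ζ =
      rf (nt (k + 1) z) (fderiv ℝ (et k) z ζ)
      - (2 * ⟪fderiv ℝ (nt (k + 1)) z ζ, et k z⟫_ℝ) • nt (k + 1) z
      - (2 * ⟪nt (k + 1) z, et k z⟫_ℝ) • fderiv ℝ (nt (k + 1)) z ζ := by
    refine per_ind hN (fun k hk z hz ζ => ?_) (fun k h z hz ζ => ?_)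
    · rw [we (k + 1) hk z hz, wn (k + 1) hk z hz, vn (k + 1) hk z hz, et0 k hk]
      have h1 : C.e (k + 1) = fun z => rf (C.n (k + 1) z) (C.e k z) := by
        funext z; exact C.refl k hk z
      rw [h1]
      exact G3_rf_fderiv (C.dn (k + 1) hk z (hU z hz)) (C.de k hk.le z (hU z hz)) ζ
    · rw [show k + C.N + 1 = k + 1 + C.N by omega, fe (k + 1) z hz, fe k z hz, fn (k + 1) z hz,
        h z hz]
      simp only [eta, nta, map_sub, map_smul, C.G_iso, C.G_rf]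
  have flat : ∀ k, k ∉ M → ∀ z ∈ B, St k z = 0 := by
    refine per_ind hN (fun k hk hkM z hz => ?_) (fun k h hkM z hz => ?_)
    · rw [St0 k hk]; exact (hB hz).2.2.2.2 k hk hkM
    · rw [Sta]
      simp only
      rw [h (fun h' => hkM ((hM k).2 h')) z hz]
      ext; simp
  refine ⟨{
    q := C.N
    A := B
    e := et
    n := nt
    L := Lt
    S := St
    X := fun k z ζ => fderiv ℝ (xt k) z ζ
    V := fun _ => C.G
    pe := fun k z => by rw [eta]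
    pn := fun k z => by rw [nta]
    pL := fun k z => by rw [Lta]
    pX := fx
    de := de
    dn := dn
    dL := dL
    dS := dS
    dV := fun z _ => hasFDerivAt_const _ _
    iso := fun z _ => C.G_iso
    Lpos := ?_
    ee := ee
    nn := nn
    refl := refl
    tr := tr
    sym := sym
    Sn := Sn
    ejac := ejac
    tan := tan
    njac := njac
    Sjac := Sjac
    stepjac := stepjac
    refljac := refljac
    surj := ?_ }, rfl, hB, hBm, hBn, fun z => C.G_iso, flat⟩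
  · refine per_ind hN (fun k hk z hz => ?_) (fun k h z hz => ?_)
    · rw [Lt0 k hk]; exact C.Lpos k hk z (hU z hz)
    · rw [Lta]; exact h z hz
  · intro k z hz
    exact surj_all (fun k => et k z) (fun k => nt k z) (fun k => Lt k z) (fun k => St k z)
      (fun k ζ => fderiv ℝ (xt k) z ζ) (fun k ζ => fderiv ℝ (et k) z ζ)
      (fun k ζ => fderiv ℝ (Lt k) z ζ) (fun k => nn k z hz) (fun k => refl k z hz)
      (fun k => tr k z hz) (fun k => sym k z hz) (fun k => Sn k z hz) (fun k => tan k z hz)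
      (fun k => stepjac k z hz)
      (fun k ζ => by rw [← njac (k + 1) z hz]; exact refljac k z hz ζ)
      (fun Y δ hY hδ => by
        simp only [xt0 0 hN, et0 0 hN, nt0 0 hN] at hY hδ ⊢
        exact C.surj z (hU z hz) Y δ hY hδ) k

end Chn

end Pool.Agent.TH746
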