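import Pool.Agent.H721R2.Quart.G3

set_option autoImplicit false

open MeasureTheory Set Filter Topology
open scoped InnerProductSpace
open Pool.Agent.H721R2.Quart

namespace Pool.Agent.TH746

/-- A family of billiard trajectories which are closed after `q` bounces modulo an isometry, with
all first order information at the points of `A`. The side `k` has direction `e k` and length `L k`,
the normal at the vertex `k` (between the sides `k - 1` and `k`) is `n k`, the shape operator `S k`;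
`X k z` is the derivative of the position of the vertex `k`; the linear part of the isometry is
`V z`, it is stationary at the points of `A`. -/
structure Cyc (E Z : Type*) [NormedAddCommGroup E] [InnerProductSpace ℝ E]
    [NormedAddCommGroup Z] [NormedSpace ℝ Z] where
  q : ℕ
  A : Set Z
  e : ℕ → Z → E
  n : ℕ → Z → E
  L : ℕ → Z → ℝ
  S : ℕ → Z → E →L[ℝ] E
  X : ℕ → Z → Z → E
  V : Z → E →L[ℝ] E
  pe : ∀ k z, e (k + q) z = V z (e k z)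
  pn : ∀ k z, n (k + q) z = V z (n k z)
  pL : ∀ k z, L (k + q) z = L k z
  pX : ∀ k, ∀ z ∈ A, ∀ ζ, X (k + q) z ζ = V z (X k z ζ)
  de : ∀ k, ∀ z ∈ A, DifferentiableAt ℝ (e k) z
  dn : ∀ k, ∀ z ∈ A, DifferentiableAt ℝ (n k) z
  dL : ∀ k, ∀ z ∈ A, DifferentiableAt ℝ (L k) z
  dS : ∀ k, ∀ z ∈ A, DifferentiableAt ℝ (S k) z
  dV : ∀ z ∈ A, HasFDerivAt V (0 : Z →L[ℝ] E →L[ℝ] E) z
  iso : ∀ z ∈ A, ∀ v w, ⟪V z v, V z w⟫_ℝ = ⟪v, w⟫_ℝ
  Lpos : ∀ k, ∀ z ∈ A, 0 < L k z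
  ee : ∀ k, ∀ z ∈ A, ⟪e k z, e k z⟫_ℝ = 1
  nn : ∀ k, ∀ z ∈ A, ⟪n k z, n k z⟫_ℝ = 1
  refl : ∀ k, ∀ z ∈ A, e (k + 1) z = rf (n (k + 1) z) (e k z)
  tr : ∀ k, ∀ z ∈ A, ⟪n k z, e k z⟫_ℝ ≠ 0
  sym : ∀ k, ∀ z ∈ A, ∀ v w, ⟪S k z v, w⟫_ℝ = ⟪v, S k z w⟫_ℝ
  Sn : ∀ k, ∀ z ∈ A, S k z (n k z) = 0
  ejac : ∀ k, ∀ z ∈ A, ∀ ζ, ⟪e k z, fderiv ℝ (e k) z ζ⟫_ℝ = 0
  tan : ∀ k, ∀ z ∈ A, ∀ ζ, ⟪n k z, X k z ζ⟫_ℝ = 0
  njac : ∀ k, ∀ z ∈ A, ∀ ζ, fderiv ℝ (n k) z ζ = -S k z (X k z ζ)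
  Sjac : ∀ k, ∀ z ∈ A, ∀ ζ, X k z ζ = 0 → fderiv ℝ (S k) z ζ = 0
  stepjac : ∀ k, ∀ z ∈ A, ∀ ζ, X (k + 1) z ζ =
    X k z ζ + fderiv ℝ (L k) z ζ • e k z + L k z • fderiv ℝ (e k) z ζ
  refljac : ∀ k, ∀ z ∈ A, ∀ ζ, fderiv ℝ (e (k + 1)) z ζ = rf (n (k + 1) z) (fderiv ℝ (e k) z ζ)
    - (2 * ⟪fderiv ℝ (n (k + 1)) z ζ, e k z⟫_ℝ) • n (k + 1) z
    - (2 * ⟪n (k + 1) z, e k z⟫_ℝ) • fderiv ℝ (n (k + 1)) z ζ
  surj : ∀ k, ∀ z ∈ A, ∀ Y δ, ⟪n k z, Y⟫_ℝ = 0 → ⟪e k z, δ⟫_ℝ = 0 →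
    ∃ ζ, X k z ζ = Y ∧ fderiv ℝ (e k) z ζ = δ

namespace Cyc

variable {E Z : Type*} [NormedAddCommGroup E] [InnerProductSpace ℝ E]
  [NormedAddCommGroup Z] [NormedSpace ℝ Z] (F : Cyc E Z)

/-- Renumbering the vertices. -/
def shift (j : ℕ) : Cyc E Z where
  q := F.q
  A := F.A
  e k := F.e (k + j)
  n k := F.n (k + j)
  L k := F.L (k + j)
  S k := F.S (k + j)
  X k := F.X (k + j)
  V := F.V
  pe k z := by rw [← F.pe (k + j)]; congr 1; omega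
  pn k z := by rw [← F.pn (k + j)]; congr 1; omega
  pL k z := by rw [← F.pL (k + j)]; congr 1; omega
  pX k z hz ζ := by rw [← F.pX (k + j) z hz]; congr 1; omega
  de k := F.de (k + j)
  dn k := F.dn (k + j)
  dL k := F.dL (k + j)
  dS k := F.dS (k + j)
  dV := F.dV
  iso := F.iso
  Lpos k := F.Lpos (k + j)
  ee k := F.ee (k + j)
  nn k := F.nn (k + j)
  refl k := by have := F.refl (k + j); rwa [show k + j + 1 = k + 1 + j by omega] at this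
  tr k := F.tr (k + j)
  sym k := F.sym (k + j)
  Sn k := F.Sn (k + j)
  ejac k := F.ejac (k + j)
  tan k := F.tan (k + j)
  njac k := F.njac (k + j)
  Sjac k := F.Sjac (k + j)
  stepjac k := by have := F.stepjac (k + j); rwa [show k + j + 1 = k + 1 + j by omega] at this
  refljac k := by have := F.refljac (k + j); rwa [show k + j + 1 = k + 1 + j by omega] at this
  surj k := F.surj (k + j)

variable {F} {z : Z}

theorem tr' (hz : z ∈ F.A) (k : ℕ) : ⟪F.n (k + 1) z, F.e k z⟫_ℝ ≠ 0 := by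
  intro h
  apply F.tr (k + 1) z hz
  rw [F.refl k z hz, rf, inner_sub_right, inner_smul_right, h]
  simp

theorem refl' (hz : z ∈ F.A) (k : ℕ) : rf (F.n (k + 1) z) (F.e (k + 1) z) = F.e k z := by
  rw [F.refl k z hz, G3_rf_invol (F.nn (k + 1) z hz)]

/-- the component orthogonal to the side -/
theorem perp (hz : z ∈ F.A) (k : ℕ) (ζ : Z) :
    F.X (k + 1) z ζ - ⟪F.e k z, F.X (k + 1) z ζ⟫_ℝ • F.e k z =
      (F.X k z ζ - ⟪F.e k z, F.X k z ζ⟫_ℝ • F.e k z) + F.L k z • fderiv ℝ (F.e k) z ζ := by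
  rw [F.stepjac k z hz ζ]
  simp only [inner_add_right, inner_smul_right, F.ee k z hz, F.ejac k z hz]
  module

theorem next (hz : z ∈ F.A) (k : ℕ) (ζ : Z) :
    F.X (k + 1) z ζ - ⟪F.e (k + 1) z, F.X (k + 1) z ζ⟫_ℝ • F.e (k + 1) z =
      rf (F.n (k + 1) z) (F.X (k + 1) z ζ - ⟪F.e k z, F.X (k + 1) z ζ⟫_ℝ • F.e k z) := by
  have h1 : ⟪F.e (k + 1) z, F.X (k + 1) z ζ⟫_ℝ = ⟪F.e k z, F.X (k + 1) z ζ⟫_ℝ := by
    rw [F.refl k z hz, G3_rf_sym, G3_rf_tan (F.tan _ z hz _)]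
  rw [h1, G3_rf_sub, G3_rf_smul, G3_rf_tan (F.tan _ z hz _), ← F.refl k z hz]

theorem side (hz : z ∈ F.A) (k : ℕ) (ζ : Z) :
    fderiv ℝ (F.L k) z ζ = ⟪F.e (k + 1) z, F.X (k + 1) z ζ⟫_ℝ - ⟪F.e k z, F.X k z ζ⟫_ℝ := by
  have h1 : ⟪F.e (k + 1) z, F.X (k + 1) z ζ⟫_ℝ = ⟪F.e k z, F.X (k + 1) z ζ⟫_ℝ := by
    rw [F.refl k z hz, G3_rf_sym, G3_rf_tan (F.tan _ z hz _)]
  rw [h1, F.stepjac k z hz ζ]
  simp only [inner_add_right, inner_smul_right, F.ee k z hz, F.ejac k z hz]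
  ring

theorem Vrf (hz : z ∈ F.A) (n v : E) : F.V z (rf n v) = rf (F.V z n) (F.V z v) := by
  unfold rf
  rw [map_sub, map_smul, F.iso z hz]

theorem Vinj (hz : z ∈ F.A) {v w : E} (h : F.V z v = F.V z w) : v = w := by
  have h1 : F.V z (v - w) = 0 := by rw [map_sub, h, sub_self]
  have h2 := F.iso z hz (v - w) (v - w)
  rw [h1, inner_zero_left] at h2
  exact sub_eq_zero.1 (inner_self_eq_zero.1 h2.symm)

/-- The derivative of a function along a line. -/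
theorem path {F' : Type*} [NormedAddCommGroup F'] [NormedSpace ℝ F'] {f : Z → F'} {z : Z}
    (hf : DifferentiableAt ℝ f z) (ζ : Z) :
    HasDerivAt (fun t : ℝ => f (z + t • ζ)) (fderiv ℝ f z ζ) 0 := by
  have h1 : HasDerivAt (fun t : ℝ => z + t • ζ) ζ 0 := by
    simpa using ((hasDerivAt_id (0 : ℝ)).smul_const ζ).const_add z
  have h2 : HasFDerivAt f (fderiv ℝ f z) ((fun t : ℝ => z + t • ζ) 0) := by
    simpa using hf.hasFDerivAt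
  exact h2.comp_hasDerivAt (0 : ℝ) h1

/-- The derivative of a reflected vector. -/
theorem rf_hasDerivAt {a b : ℝ → E} {a' b' : E} (ha : HasDerivAt a a' 0) (hb : HasDerivAt b b' 0) :
    HasDerivAt (fun t => rf (a t) (b t))
      (rf (a 0) b' - (2 * ⟪a', b 0⟫_ℝ) • a 0 - (2 * ⟪a 0, b 0⟫_ℝ) • a') 0 := by
  unfold rf
  have h1 := hb.sub (((ha.inner ℝ hb).const_mul 2).smul ha)
  refine h1.congr_deriv ?_
  module

theorem pD (hz : z ∈ F.A) (k : ℕ) (ζ : Z) :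
    fderiv ℝ (F.e (k + F.q)) z ζ = F.V z (fderiv ℝ (F.e k) z ζ) := by
  have h1 : F.e (k + F.q) = fun z => F.V z (F.e k z) := by funext z; exact F.pe k z
  have h2 := (F.dV z hz).clm_apply (F.de k z hz).hasFDerivAt
  rw [h1, h2.fderiv]
  simp

theorem pdn (hz : z ∈ F.A) (k : ℕ) (ζ : Z) :
    fderiv ℝ (F.n (k + F.q)) z ζ = F.V z (fderiv ℝ (F.n k) z ζ) := by
  have h1 : F.n (k + F.q) = fun z => F.V z (F.n k z) := by funext z; exact F.pn k z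
  have h2 := (F.dV z hz).clm_apply (F.dn k z hz).hasFDerivAt
  rw [h1, h2.fderiv]
  simp

end Cyc

end Pool.Agent.TH746
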