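import Pool.Agent.TH746.Piv

set_option autoImplicit false

open MeasureTheory Set Filter Topology
open scoped InnerProductSpace
open Pool.Agent.H721R2.Quart

namespace Pool.Agent.TH746

variable {E Z : Type*} [NormedAddCommGroup E] [InnerProductSpace ℝ E]
  [NormedAddCommGroup Z] [NormedSpace ℝ Z]

/-- The skew operator of two vectors. -/
def wd (a b x : E) : E := ⟪b, x⟫_ℝ • a - ⟪a, x⟫_ℝ • b

theorem wd_skew (a b x y : E) : ⟪wd a b x, y⟫_ℝ = -⟪x, wd a b y⟫_ℝ := by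
  unfold wd
  simp only [inner_sub_left, inner_sub_right, real_inner_smul_left, inner_smul_right]
  rw [real_inner_comm x a, real_inner_comm x b]
  ring

theorem rf_neg (n v : E) : rf n (-v) = -rf n v := by
  rw [← neg_one_smul ℝ, G3_rf_smul, neg_one_smul]

theorem wd_self (a b x : E) : ⟪wd a b x, x⟫_ℝ = 0 := by
  unfold wd
  simp only [inner_sub_left, real_inner_smul_left]
  ring

namespace Cyc

variable (F : Cyc E Z)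

/-- The vector `N1 - N2 - N0`. -/
noncomputable def H (z : Z) : E := F.N1 z - F.N2 z - F.N0 z

/-- The projection along the normal `1`. -/
noncomputable def Pr (z : Z) (v : E) : E := v - ⟪F.n 1 z, v⟫_ℝ • F.n 1 z

/-- The quadratic relation as a function. -/
noncomputable def f2 (v : E) (z : Z) : E :=
  F.Pr z (((-2 * ⟪F.n 1 z, F.e 0 z⟫_ℝ) * F.L 0 z * F.L 1 z) • F.S 1 z (F.Pr z v)
    - (F.L 0 z + F.L 1 z) • F.Pr z v - F.L 2 z • F.W z (F.Pr z v)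
    + ((F.L 0 z + F.L 1 z + F.L 2 z) * ⟪F.e 0 z, F.Pr z v⟫_ℝ) • F.e 0 z)

/-- The points at which the relevant functions have zero derivative if they vanish. -/
structure Good (z : Z) : Prop where
  g1 : F.N1 z - F.e 0 z = 0 → fderiv ℝ (fun z => F.N1 z - F.e 0 z) z = 0
  g2 : ∀ v, DifferentiableAt ℝ (F.f2 v) z ∧ fderiv ℝ (F.f2 v) z = 0
  g3 : F.N1 z + F.W z (F.N1 z) - (2 : ℝ) • F.e 0 z = 0 →
    fderiv ℝ (fun z => F.N1 z + F.W z (F.N1 z) - (2 : ℝ) • F.e 0 z) z = 0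
  g4 : F.H z - F.W z (F.H z) = 0 → fderiv ℝ (fun z => F.H z - F.W z (F.H z)) z = 0
  g5 : F.L 0 z - F.L 1 z = 0 → fderiv ℝ (fun z => F.L 0 z - F.L 1 z) z = 0
  g6 : F.L 1 z - F.L 2 z = 0 → fderiv ℝ (fun z => F.L 1 z - F.L 2 z) z = 0
  g7 : F.N1 z - F.W z (F.N1 z) = 0 → fderiv ℝ (fun z => F.N1 z - F.W z (F.N1 z)) z = 0

variable {F} {z : Z}

/-! ### Differentiability -/

theorem dN0 (hz : z ∈ F.A) : DifferentiableAt ℝ F.N0 z :=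
  (((F.dn 0 z hz).inner ℝ (F.de 0 z hz)).inv (F.tr 0 z hz)).smul (F.dn 0 z hz)

theorem dN1 (hz : z ∈ F.A) : DifferentiableAt ℝ F.N1 z :=
  (((F.dn 1 z hz).inner ℝ (F.de 0 z hz)).inv (tr' hz 0)).smul (F.dn 1 z hz)

theorem dN2 (hz : z ∈ F.A) : DifferentiableAt ℝ F.N2 z :=
  (((F.dn 2 z hz).inner ℝ (F.de 1 z hz)).inv (tr' hz 1)).smul
    (G3_rf_diff (F.dn 1 z hz) (F.dn 2 z hz))

theorem dW (hz : z ∈ F.A) {v : Z → E} (hv : DifferentiableAt ℝ v z) :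
    DifferentiableAt ℝ (fun z => F.W z (v z)) z :=
  G3_rf_diff (F.dn 1 z hz) (G3_rf_diff (F.dn 2 z hz)
    ((F.dV z hz).differentiableAt.clm_apply (G3_rf_diff (F.dn 0 z hz) hv)))

theorem dPr (hz : z ∈ F.A) {v : Z → E} (hv : DifferentiableAt ℝ v z) :
    DifferentiableAt ℝ (fun z => F.Pr z (v z)) z :=
  hv.sub (((F.dn 1 z hz).inner ℝ hv).smul (F.dn 1 z hz))

theorem dH (hz : z ∈ F.A) : DifferentiableAt ℝ F.H z :=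
  ((dN1 hz).sub (dN2 hz)).sub (dN0 hz)

theorem df2 (hz : z ∈ F.A) (v : E) : DifferentiableAt ℝ (F.f2 v) z := by
  have hP : DifferentiableAt ℝ (fun z => F.Pr z v) z := dPr hz (differentiableAt_const v)
  have hn := F.dn 1 z hz
  have he := F.de 0 z hz
  have h0 := F.dL 0 z hz
  have h1 := F.dL 1 z hz
  have h2 := F.dL 2 z hz
  have hc : DifferentiableAt ℝ (fun z => (-2 * ⟪F.n 1 z, F.e 0 z⟫_ℝ) * F.L 0 z * F.L 1 z) z :=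
    (((hn.inner ℝ he).const_mul (-2)).mul h0).mul h1
  have hS : DifferentiableAt ℝ (fun z => F.S 1 z (F.Pr z v)) z := (F.dS 1 z hz).clm_apply hP
  exact dPr hz ((((hc.smul hS).sub ((h0.add h1).smul hP)).sub (h2.smul (dW hz hP))).add
    ((((h0.add h1).add h2).mul (he.inner ℝ hP)).smul he))

/-! ### Derivatives along the pivot -/

/-- The kicks. -/
noncomputable def K2 (F : Cyc E Z) (z ζ : Z) : E :=
  rf (F.n 1 z) ((2 * ⟪F.n 2 z, F.e 1 z⟫_ℝ) • fderiv ℝ (F.n 2) z ζ -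
      (2 * ⟪fderiv ℝ (F.n 2) z ζ, F.e 1 z⟫_ℝ) • F.n 2 z)

noncomputable def K0 (F : Cyc E Z) (z ζ : Z) : E :=
  (2 * ⟪F.n 0 z, F.e 0 z⟫_ℝ) • fderiv ℝ (F.n 0) z ζ -
      (2 * ⟪fderiv ℝ (F.n 0) z ζ, F.e 0 z⟫_ℝ) • F.n 0 z

section Paths

variable {ζ : Z} {μ : E} (P : PivD F z ζ μ) (hz : z ∈ F.A)
include P hz

theorem hK2 : F.L 2 z • K2 F z ζ = (F.L 1 z + F.L 2 z) • μ + F.L 0 z • F.W z μ := by
  unfold K2
  rw [← G3_rf_smul, P.k2, G3_rf_invol (F.nn 1 z hz)]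

omit hz in
theorem hK0 : F.L 2 z • K0 F z ζ = (F.L 0 z + F.L 2 z) • μ + F.L 1 z • F.W z μ := P.k0

theorem path_N1 : HasDerivAt (fun t : ℝ => F.N1 (z + t • ζ)) (-(⟪F.N1 z, μ⟫_ℝ • F.N1 z)) 0 := by
  have hn := path (F.dn 1 z hz) ζ
  have he := path (F.de 0 z hz) ζ
  rw [P.n1] at hn
  rw [P.e0] at he
  have tr1 := tr' hz 0
  norm_num at tr1
  have h := ((hn.inner ℝ he).inv (by simpa using tr1)).smul hn
  refine h.congr_deriv ?_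
  simp only [zero_smul, add_zero, inner_zero_left, smul_zero, zero_add]
  unfold N1
  rw [smul_smul, ← neg_smul]
  congr 1
  rw [real_inner_smul_left]
  field_simp

theorem path_N0 : HasDerivAt (fun t : ℝ => F.N0 (z + t • ζ))
    (-(⟪F.N0 z, μ⟫_ℝ • F.N0 z) + (⟪F.N0 z, F.N0 z⟫_ℝ / 2) • K0 F z ζ) 0 := by
  have hn := path (F.dn 0 z hz) ζ
  have he := path (F.de 0 z hz) ζ
  rw [P.e0] at he
  have tr0 := F.tr 0 z hz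
  have h := ((hn.inner ℝ he).inv (by simpa using tr0)).smul hn
  refine h.congr_deriv ?_
  simp only [zero_smul, add_zero, Pi.inv_apply]
  unfold N0 K0
  simp only [real_inner_smul_left, inner_smul_right, F.nn 0 z hz]
  simp only [smul_sub, smul_smul]
  have e1 : (⟪F.n 0 z, F.e 0 z⟫_ℝ)⁻¹ = (⟪F.n 0 z, F.e 0 z⟫_ℝ)⁻¹ *
      ((⟪F.n 0 z, F.e 0 z⟫_ℝ)⁻¹ * 1) / 2 * (2 * ⟪F.n 0 z, F.e 0 z⟫_ℝ) := by
    field_simp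
  rw [← e1]
  have e2 : -(⟪F.n 0 z, μ⟫_ℝ + ⟪fderiv ℝ (F.n 0) z ζ, F.e 0 z⟫_ℝ) / ⟪F.n 0 z, F.e 0 z⟫_ℝ ^ 2 =
      -((⟪F.n 0 z, F.e 0 z⟫_ℝ)⁻¹ * ⟪F.n 0 z, μ⟫_ℝ * (⟪F.n 0 z, F.e 0 z⟫_ℝ)⁻¹) -
      (⟪F.n 0 z, F.e 0 z⟫_ℝ)⁻¹ * ((⟪F.n 0 z, F.e 0 z⟫_ℝ)⁻¹ * 1) / 2 *
        (2 * ⟪fderiv ℝ (F.n 0) z ζ, F.e 0 z⟫_ℝ) := by
    field_simp
    ring
  rw [e2]
  module

theorem path_N2 : HasDerivAt (fun t : ℝ => F.N2 (z + t • ζ))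
    (-(⟪F.N2 z, μ⟫_ℝ • F.N2 z) + (⟪F.N2 z, F.N2 z⟫_ℝ / 2) • K2 F z ζ) 0 := by
  have hn1 := path (F.dn 1 z hz) ζ
  have hn := path (F.dn 2 z hz) ζ
  have he := path (F.de 1 z hz) ζ
  rw [P.n1] at hn1
  rw [P.e1] at he
  have tr0 := tr' hz 1
  norm_num at tr0
  have h := ((hn.inner ℝ he).inv (by simpa using tr0)).smul (rf_hasDerivAt hn1 hn)
  refine h.congr_deriv ?_
  simp only [zero_smul, add_zero, inner_zero_left, mul_zero, smul_zero, sub_zero, Pi.inv_apply]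
  unfold N2 K2
  have hR : ⟪F.n 2 z, rf (F.n 1 z) μ⟫_ℝ = ⟪rf (F.n 1 z) (F.n 2 z), μ⟫_ℝ := (G3_rf_sym _ _ _).symm
  simp only [real_inner_smul_left, inner_smul_right, G3_rf_inner (F.nn 1 z hz), F.nn 2 z hz,
    G3_rf_sub, G3_rf_smul, hR]
  simp only [smul_sub, smul_smul]
  have e1 : (⟪F.n 2 z, F.e 1 z⟫_ℝ)⁻¹ = (⟪F.n 2 z, F.e 1 z⟫_ℝ)⁻¹ *
      ((⟪F.n 2 z, F.e 1 z⟫_ℝ)⁻¹ * 1) / 2 * (2 * ⟪F.n 2 z, F.e 1 z⟫_ℝ) := by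
    field_simp
  rw [← e1]
  have e2 : -(⟪rf (F.n 1 z) (F.n 2 z), μ⟫_ℝ + ⟪fderiv ℝ (F.n 2) z ζ, F.e 1 z⟫_ℝ) /
      ⟪F.n 2 z, F.e 1 z⟫_ℝ ^ 2 =
      -((⟪F.n 2 z, F.e 1 z⟫_ℝ)⁻¹ * ⟪rf (F.n 1 z) (F.n 2 z), μ⟫_ℝ * (⟪F.n 2 z, F.e 1 z⟫_ℝ)⁻¹) -
      (⟪F.n 2 z, F.e 1 z⟫_ℝ)⁻¹ * ((⟪F.n 2 z, F.e 1 z⟫_ℝ)⁻¹ * 1) / 2 *
        (2 * ⟪fderiv ℝ (F.n 2) z ζ, F.e 1 z⟫_ℝ) := by
    field_simp
    ring
  rw [e2]
  module

theorem path_W {v : ℝ → E} {v' : E} (hv : HasDerivAt v v' 0) :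
    HasDerivAt (fun t : ℝ => F.W (z + t • ζ) (v t))
      (F.W z v' + wd (K2 F z ζ) (F.N2 z) (F.W z (v 0)) - F.W z (wd (K0 F z ζ) (F.N0 z) (v 0)))
      0 := by
  have hn0 := path (F.dn 0 z hz) ζ
  have hn1 := path (F.dn 1 z hz) ζ
  have hn2 := path (F.dn 2 z hz) ζ
  rw [P.n1] at hn1
  have hV : HasDerivAt (fun t : ℝ => F.V (z + t • ζ)) 0 0 := by
    have h1 := path (F.dV z hz).differentiableAt ζ
    rw [(F.dV z hz).fderiv] at h1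
    simpa using h1
  have h1 := rf_hasDerivAt hn0 hv
  have h2 := hV.clm_apply h1
  have h3 := rf_hasDerivAt hn2 h2
  have h4 := rf_hasDerivAt hn1 h3
  refine h4.congr_deriv ?_
  simp only [zero_smul, add_zero, inner_zero_left, mul_zero, smul_zero, sub_zero, _root_.zero_apply,
    zero_add]
  obtain ⟨x, hx⟩ : ∃ x, x = v 0 := ⟨_, rfl⟩
  rw [← hx]
  obtain ⟨d0, hd0⟩ : ∃ d0, d0 = fderiv ℝ (F.n 0) z ζ := ⟨_, rfl⟩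
  obtain ⟨d2, hd2⟩ : ∃ d2, d2 = fderiv ℝ (F.n 2) z ζ := ⟨_, rfl⟩
  have tr0 := F.tr 0 z hz
  have tr2 := tr' hz 1
  norm_num at tr2
  have Rn0 : rf (F.n 0 z) (F.n 0 z) = -F.n 0 z := by
    unfold rf
    rw [F.nn 0 z hz]
    module
  have Rn2 : rf (F.n 2 z) (F.n 2 z) = -F.n 2 z := by
    unfold rf
    rw [F.nn 2 z hz]
    module
  have Rd0 : rf (F.n 0 z) d0 = d0 := by
    apply G3_rf_tan
    rw [hd0, F.njac 0 z hz, inner_neg_right, ← F.sym 0 z hz, F.Sn 0 z hz, inner_zero_left,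
      neg_zero]
  have Rd2 : rf (F.n 2 z) d2 = d2 := by
    apply G3_rf_tan
    rw [hd2, F.njac 2 z hz, inner_neg_right, ← F.sym 2 z hz, F.Sn 2 z hz, inner_zero_left,
      neg_zero]
  have k0 : wd (K0 F z ζ) (F.N0 z) x = (2 * ⟪F.n 0 z, x⟫_ℝ) • d0 - (2 * ⟪d0, x⟫_ℝ) • F.n 0 z := by
    unfold wd K0 N0
    rw [← hd0, inner_sub_left]
    simp only [real_inner_smul_left]
    rw [smul_sub, smul_smul, smul_smul, smul_smul]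
    have e1 : (⟪F.n 0 z, F.e 0 z⟫_ℝ)⁻¹ * ⟪F.n 0 z, x⟫_ℝ * (2 * ⟪F.n 0 z, F.e 0 z⟫_ℝ) =
        2 * ⟪F.n 0 z, x⟫_ℝ := by field_simp
    have e2 : (2 * ⟪F.n 0 z, F.e 0 z⟫_ℝ * ⟪d0, x⟫_ℝ - 2 * ⟪d0, F.e 0 z⟫_ℝ * ⟪F.n 0 z, x⟫_ℝ) *
        (⟪F.n 0 z, F.e 0 z⟫_ℝ)⁻¹ = 2 * ⟪d0, x⟫_ℝ -
          (⟪F.n 0 z, F.e 0 z⟫_ℝ)⁻¹ * ⟪F.n 0 z, x⟫_ℝ * (2 * ⟪d0, F.e 0 z⟫_ℝ) := by field_simp
    rw [e1, e2]
    module
  obtain ⟨b, hb⟩ : ∃ b, b = F.V z (rf (F.n 0 z) x) := ⟨_, rfl⟩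
  have hWx : F.W z x = rf (F.n 1 z) (rf (F.n 2 z) b) := by rw [W_apply, hb]
  have k2 : wd (K2 F z ζ) (F.N2 z) (F.W z x) =
      rf (F.n 1 z) (-(2 * ⟪d2, b⟫_ℝ) • F.n 2 z - (2 * ⟪F.n 2 z, b⟫_ℝ) • d2) := by
    have i1 : ∀ y, ⟪rf (F.n 1 z) y, F.W z x⟫_ℝ = ⟪rf (F.n 2 z) y, b⟫_ℝ := by
      intro y
      rw [hWx, G3_rf_inner (F.nn 1 z hz), G3_rf_sym]
    unfold wd K2 N2
    rw [← hd2, real_inner_smul_left, i1, i1]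
    simp only [G3_rf_sub, G3_rf_smul, Rn2, Rd2, inner_sub_left, inner_neg_left,
      real_inner_smul_left, smul_sub, smul_smul, smul_neg]
    have e1 : (⟪F.n 2 z, F.e 1 z⟫_ℝ)⁻¹ * -⟪F.n 2 z, b⟫_ℝ * (2 * ⟪F.n 2 z, F.e 1 z⟫_ℝ) =
        -(2 * ⟪F.n 2 z, b⟫_ℝ) := by field_simp
    have e2 : (2 * ⟪F.n 2 z, F.e 1 z⟫_ℝ * ⟪d2, b⟫_ℝ - -(2 * ⟪d2, F.e 1 z⟫_ℝ * ⟪F.n 2 z, b⟫_ℝ)) *
        (⟪F.n 2 z, F.e 1 z⟫_ℝ)⁻¹ = 2 * ⟪d2, b⟫_ℝ -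
          (⟪F.n 2 z, F.e 1 z⟫_ℝ)⁻¹ * -⟪F.n 2 z, b⟫_ℝ * (2 * ⟪d2, F.e 1 z⟫_ℝ) := by field_simp
    rw [e1, e2]
    module
  rw [k0, k2, W_apply, W_apply, ← hb, ← hd0, ← hd2]
  simp only [G3_rf_sub, G3_rf_smul, Rn0, Rd0, map_sub, map_smul, map_neg, rf_neg]
  module

end Paths

/-! ### Values -/

theorem Pr_perp (hz : z ∈ F.A) (v : E) : ⟪F.n 1 z, F.Pr z v⟫_ℝ = 0 := by
  unfold Pr
  rw [inner_sub_right, inner_smul_right, F.nn 1 z hz]; ring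

theorem Pr_inner {v w : E} (hw : ⟪F.n 1 z, w⟫_ℝ = 0) : ⟪F.Pr z v, w⟫_ℝ = ⟪v, w⟫_ℝ := by
  unfold Pr
  rw [inner_sub_left, real_inner_smul_left, hw]; ring

theorem f2_zero (hq : F.q = 3) (hz : z ∈ F.A) (v : E) : F.f2 v z = 0 := by
  obtain ⟨x, hx⟩ : ∃ x, x = F.f2 v z := ⟨_, rfl⟩
  have h1 : ⟪F.n 1 z, x⟫_ℝ = 0 := by rw [hx]; exact Pr_perp hz _
  have h2 : ⟪x, x⟫_ℝ = 0 := by
    nth_rewrite 1 [hx]
    unfold f2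
    rw [Pr_inner h1]
    have h3 := quad hq hz (Pr_perp hz v) h1
    simp only [inner_add_left, inner_sub_left, real_inner_smul_left]
    rw [h3, real_inner_comm (F.Pr z v) (F.e 0 z), real_inner_comm x (F.e 0 z)]
    ring
  rw [← hx]
  exact inner_self_eq_zero.1 h2

end Cyc

end Pool.Agent.TH746
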