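import Pool.Agent.TH746.Good

set_option autoImplicit false

open MeasureTheory Set Filter Topology
open scoped InnerProductSpace
open Pool.Agent.H721R2.Quart

namespace Pool.Agent.TH746

variable {E Z : Type*} [NormedAddCommGroup E] [InnerProductSpace ℝ E]
  [NormedAddCommGroup Z] [NormedSpace ℝ Z]

namespace Cyc

variable {F : Cyc E Z} {z : Z}

theorem N0u (hz : z ∈ F.A) : ⟪F.e 0 z, F.N0 z⟫_ℝ = 1 := by
  have h := F.tr 0 z hz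
  unfold N0
  rw [inner_smul_right, real_inner_comm (F.n 0 z) (F.e 0 z), inv_mul_cancel₀ h]

theorem N1u (hz : z ∈ F.A) : ⟪F.e 0 z, F.N1 z⟫_ℝ = 1 := by
  have h := tr' hz 0
  norm_num at h
  unfold N1
  rw [inner_smul_right, real_inner_comm (F.n 1 z) (F.e 0 z), inv_mul_cancel₀ h]

theorem N2u (hz : z ∈ F.A) : ⟪F.e 0 z, F.N2 z⟫_ℝ = 1 := by
  have h := tr' hz 1
  have h1 := F.refl 0 z hz
  norm_num at h h1
  unfold N2
  rw [inner_smul_right, ← G3_rf_sym, ← h1, real_inner_comm (F.n 2 z) (F.e 1 z),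
    inv_mul_cancel₀ h]

/-- The constant path has the derivative `0` if the function is stationary. -/
theorem path_zero {F' : Type*} [NormedAddCommGroup F'] [NormedSpace ℝ F'] {f : Z → F'} {z : Z}
    (hf : DifferentiableAt ℝ f z) (ζ : Z) (h : fderiv ℝ f z = 0) :
    HasDerivAt (fun t : ℝ => f (z + t • ζ)) 0 0 := by
  have := path hf ζ
  rwa [h] at this

section Paths

variable {ζ : Z} {μ : E} (P : PivD F z ζ μ) (hz : z ∈ F.A)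
include P hz

theorem path_Pr {v : ℝ → E} {v' : E} (hv : HasDerivAt v v' 0) :
    HasDerivAt (fun t : ℝ => F.Pr (z + t • ζ) (v t)) (F.Pr z v') 0 := by
  have hn := path (F.dn 1 z hz) ζ
  rw [P.n1] at hn
  have h := hv.sub ((hn.inner ℝ hv).smul hn)
  refine h.congr_deriv ?_
  simp only [zero_smul, add_zero, inner_zero_left, smul_zero, zero_add]
  rfl

theorem f2_path {w : E} (hw : ⟪F.n 1 z, w⟫_ℝ = 0) :
    HasDerivAt (fun t : ℝ => F.f2 w (z + t • ζ)) (F.Pr z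
      (((-2 * ⟪F.n 1 z, F.e 0 z⟫_ℝ) * F.L 0 z * F.L 1 z *
        (⟪F.N1 z, μ⟫_ℝ - ⟪F.N0 z, μ⟫_ℝ - ⟪F.N2 z, μ⟫_ℝ)) • F.S 1 z w
      + (F.L 0 z * ⟪F.N0 z, μ⟫_ℝ + F.L 1 z * ⟪F.N2 z, μ⟫_ℝ) • (w - F.W z w)
      - F.L 2 z • (wd (K2 F z ζ) (F.N2 z) (F.W z w) - F.W z (wd (K0 F z ζ) (F.N0 z) w))
      + ((F.L 0 z + F.L 1 z + F.L 2 z) * ⟪μ, w⟫_ℝ) • F.e 0 z
      + ((F.L 0 z + F.L 1 z + F.L 2 z) * ⟪F.e 0 z, w⟫_ℝ) • μ)) 0 := by
  have hPw : F.Pr z w = w := by unfold Pr; rw [hw]; simp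
  have hn := path (F.dn 1 z hz) ζ
  have he := path (F.de 0 z hz) ζ
  have h0 := path (F.dL 0 z hz) ζ
  have h1 := path (F.dL 1 z hz) ζ
  have h2 := path (F.dL 2 z hz) ζ
  have hS := path (F.dS 1 z hz) ζ
  have hP := path_Pr P hz (hasDerivAt_const (0 : ℝ) w)
  have hW := path_W P hz hP
  have tr1 := tr' hz 0
  norm_num at tr1
  have hNμ : ⟪F.n 1 z, μ⟫_ℝ = ⟪F.n 1 z, F.e 0 z⟫_ℝ * ⟪F.N1 z, μ⟫_ℝ := by
    unfold N1
    rw [real_inner_smul_left]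
    field_simp
  have hP0 : F.Pr z 0 = 0 := by unfold Pr; simp
  rw [P.n1] at hn
  rw [P.e0] at he
  rw [P.L0] at h0
  rw [P.L1] at h1
  rw [P.L2] at h2
  rw [P.S1] at hS
  have hc := (((hn.inner ℝ he).const_mul (-2)).mul h0).mul h1
  have hA := hc.smul (hS.clm_apply hP)
  have hB := (h0.add h1).smul hP
  have hC := h2.smul hW
  have hD := (((h0.add h1).add h2).mul (he.inner ℝ hP)).smul he
  have h := path_Pr P hz (((hA.sub hB).sub hC).add hD)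
  refine h.congr_deriv ?_
  simp only [zero_smul, add_zero, inner_zero_left, hP0, hPw, map_zero, smul_zero, zero_add,
    inner_zero_right, _root_.zero_apply, Pi.add_apply, Pi.mul_apply, hNμ]
  congr 1
  module

/-- The second order relation. -/
theorem f2_rel (hq : F.q = 3) (g : F.Good z) {w : E} (hw : ⟪F.n 1 z, w⟫_ℝ = 0) :
    (⟪F.N1 z, μ⟫_ℝ - ⟪F.N0 z, μ⟫_ℝ - ⟪F.N2 z, μ⟫_ℝ) *
      ((F.L 0 z + F.L 1 z) * ⟪w, w⟫_ℝ + F.L 2 z * ⟪F.W z w, w⟫_ℝ -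
      (F.L 0 z + F.L 1 z + F.L 2 z) * ⟪w, F.e 0 z⟫_ℝ * ⟪w, F.e 0 z⟫_ℝ)
    + (F.L 0 z * ⟪F.N0 z, μ⟫_ℝ + F.L 1 z * ⟪F.N2 z, μ⟫_ℝ) * (⟪w, w⟫_ℝ - ⟪F.W z w, w⟫_ℝ)
    - F.L 2 z * (⟪wd (K2 F z ζ) (F.N2 z) (F.W z w), w⟫_ℝ -
        ⟪wd (K0 F z ζ) (F.N0 z) w, F.W z w⟫_ℝ)
    + 2 * (F.L 0 z + F.L 1 z + F.L 2 z) * ⟪μ, w⟫_ℝ * ⟪F.e 0 z, w⟫_ℝ = 0 := by
  have h1 := f2_path P hz hw
  have h2 := path_zero (g.g2 w).1 ζ (g.g2 w).2
  have h3 := h1.unique h2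
  have h4 := congrArg (fun x => ⟪x, w⟫_ℝ) h3
  simp only [inner_zero_left] at h4
  rw [Pr_inner hw] at h4
  have h5 := quad hq hz hw hw
  simp only [inner_add_left, inner_sub_left, real_inner_smul_left, W_sym hq hz
    (wd (K0 F z ζ) (F.N0 z) w) w] at h4
  rw [← h5]
  linear_combination h4

end Paths

/-- The first order data. -/
noncomputable def dat (F : Cyc E Z) (z : Z) : Dat E :=
  ⟨F.e 0 z, F.W z, F.N0 z - F.e 0 z, F.N1 z - F.e 0 z, F.N2 z - F.e 0 z, F.L 0 z, F.L 1 z,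
    F.L 2 z⟩

section Values

variable (hq : F.q = 3) (hz : z ∈ F.A) (g : F.Good z)
include hq hz g

theorem ok_Qp (v μ : E) (hv : ⟪F.e 0 z, v⟫_ℝ = 0) (hμ : ⟪F.e 0 z, μ⟫_ℝ = 0)
    (hW : F.W z v = v) : (⟪F.N1 z, μ⟫_ℝ - ⟪F.N0 z, μ⟫_ℝ - ⟪F.N2 z, μ⟫_ℝ) * ⟪v, v⟫_ℝ =
      2 * ⟪v, μ⟫_ℝ * ⟪F.N1 z, v⟫_ℝ := by
  obtain ⟨ζ, P⟩ := exists_piv hq hz μ hμ
  have uu := F.ee 0 z hz
  have hvu : ⟪v, F.e 0 z⟫_ℝ = 0 := by rw [real_inner_comm]; exact hv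
  have hμu : ⟪μ, F.e 0 z⟫_ℝ = 0 := by rw [real_inner_comm]; exact hμ
  have h := f2_rel P hz hq g (N1n hz v)
  have hWw : F.W z (v - ⟪F.N1 z, v⟫_ℝ • F.e 0 z) = v - ⟪F.N1 z, v⟫_ℝ • F.e 0 z := by
    rw [map_sub, map_smul, hW, Wu hq hz]
  rw [hWw, wd_self, wd_self] at h
  simp only [inner_sub_left, inner_sub_right, real_inner_smul_left, inner_smul_right, hv, hvu,
    hμu, uu, real_inner_comm v μ] at h
  have hL : F.L 0 z + F.L 1 z + F.L 2 z ≠ 0 := by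
    have := F.Lpos 0 z hz
    have := F.Lpos 1 z hz
    have := F.Lpos 2 z hz
    positivity
  apply mul_left_cancel₀ hL
  linear_combination h

theorem ok_Qm (v μ : E) (hv : ⟪F.e 0 z, v⟫_ℝ = 0) (hμ : ⟪F.e 0 z, μ⟫_ℝ = 0)
    (hW : F.W z v = -v) :
    ((F.L 0 z + F.L 1 z - F.L 2 z) * ⟪F.N1 z, μ⟫_ℝ + (F.L 1 z + F.L 2 z - F.L 0 z) *
      ⟪F.N2 z, μ⟫_ℝ + (F.L 0 z + F.L 2 z - F.L 1 z) * ⟪F.N0 z, μ⟫_ℝ) * ⟪v, v⟫_ℝ =
      2 * (F.L 0 z + F.L 1 z - F.L 2 z) * ⟪v, μ⟫_ℝ * ⟪F.N1 z, v⟫_ℝ := by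
  obtain ⟨ζ, P⟩ := exists_piv hq hz μ hμ
  have uu := F.ee 0 z hz
  have hvu : ⟪v, F.e 0 z⟫_ℝ = 0 := by rw [real_inner_comm]; exact hv
  have hμu : ⟪μ, F.e 0 z⟫_ℝ = 0 := by rw [real_inner_comm]; exact hμ
  have h := f2_rel P hz hq g (N1n hz v)
  obtain ⟨s, hs⟩ : ∃ s, s = ⟪F.N1 z, v⟫_ℝ := ⟨_, rfl⟩
  rw [← hs] at h ⊢
  obtain ⟨w, hw⟩ : ∃ w, w = v - s • F.e 0 z := ⟨_, rfl⟩
  have hWw : F.W z w = -w - (2 * s) • F.e 0 z := by
    rw [hw, map_sub, map_smul, hW, Wu hq hz]; module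
  have hWμv : ⟪F.W z μ, v⟫_ℝ = -⟪μ, v⟫_ℝ := by
    rw [W_sym hq hz, hW, inner_neg_right]
  have hWμu : ⟪F.W z μ, F.e 0 z⟫_ℝ = 0 := by
    rw [W_sym hq hz, Wu hq hz, hμu]
  have hL2 := (F.Lpos 2 z hz).ne'
  -- the kicks
  have hk2 := hK2 P hz
  have hk0 := hK0 P
  have c2v : F.L 2 z * ⟪K2 F z ζ, v⟫_ℝ = (F.L 1 z + F.L 2 z - F.L 0 z) * ⟪μ, v⟫_ℝ := by
    rw [← real_inner_smul_left, hk2, inner_add_left, real_inner_smul_left, real_inner_smul_left,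
      hWμv]; ring
  have c0v : F.L 2 z * ⟪K0 F z ζ, v⟫_ℝ = (F.L 0 z + F.L 2 z - F.L 1 z) * ⟪μ, v⟫_ℝ := by
    rw [← real_inner_smul_left, hk0, inner_add_left, real_inner_smul_left, real_inner_smul_left,
      hWμv]; ring
  have c2u : ⟪K2 F z ζ, F.e 0 z⟫_ℝ = 0 := by
    apply (mul_eq_zero.1 _).resolve_left hL2
    rw [← real_inner_smul_left, hk2, inner_add_left, real_inner_smul_left, real_inner_smul_left,
      hWμu, hμu]; ring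
  have c0u : ⟪K0 F z ζ, F.e 0 z⟫_ℝ = 0 := by
    apply (mul_eq_zero.1 _).resolve_left hL2
    rw [← real_inner_smul_left, hk0, inner_add_left, real_inner_smul_left, real_inner_smul_left,
      hWμu, hμu]; ring
  have n2u := N2u hz
  have n0u := N0u hz
  rw [real_inner_comm] at n2u n0u
  have w2 : wd (K2 F z ζ) (F.N2 z) (F.e 0 z) = K2 F z ζ := by
    unfold wd; rw [n2u, c2u]; simp
  have w0 : wd (K0 F z ζ) (F.N0 z) (F.e 0 z) = K0 F z ζ := by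
    unfold wd; rw [n0u, c0u]; simp
  have wadd : ∀ a b x y : E, ∀ r : ℝ, wd a b (-x - r • y) = -wd a b x - r • wd a b y := by
    intro a b x y r
    unfold wd
    simp only [inner_sub_right, inner_neg_right, inner_smul_right]
    module
  rw [← hw, hWw, wadd, w2, inner_sub_left (-wd (K2 F z ζ) (F.N2 z) w), inner_neg_left, wd_self,
    inner_sub_right (wd (K0 F z ζ) (F.N0 z) w), inner_neg_right, wd_self,
    wd_skew (K0 F z ζ) (F.N0 z) w ((2 * s) • F.e 0 z)] at h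
  have wsm : ∀ a b y : E, ∀ r : ℝ, wd a b (r • y) = r • wd a b y := by
    intro a b y r
    unfold wd
    simp only [inner_smul_right]
    module
  rw [wsm, w0, hw] at h
  simp only [inner_sub_left, inner_sub_right, inner_neg_left, real_inner_smul_left,
    inner_smul_right, hv, hvu, hμu, uu, c2u, c0u, real_inner_comm (K0 F z ζ) v,
    real_inner_comm (K0 F z ζ) (F.e 0 z), real_inner_comm v μ] at h
  rw [real_inner_comm v μ] at c2v c0v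
  linear_combination h - 2 * s * c2v - 2 * s * c0v

/-- The normal `1` is not parallel to the side. -/
theorem ok_ne {μ : E} (hμ : ⟪F.e 0 z, μ⟫_ℝ = 0) (hμ0 : μ ≠ 0) : F.N1 z - F.e 0 z ≠ 0 := by
  intro h0
  obtain ⟨ζ, P⟩ := exists_piv hq hz μ hμ
  have h1 := (path_N1 P hz).sub (path (F.de 0 z hz) ζ)
  have h2 := path_zero ((dN1 hz).sub (F.de 0 z hz)) ζ (g.g1 h0)
  have h3 := h1.unique h2
  rw [P.e0, sub_eq_zero.1 h0, hμ, zero_smul, neg_zero, zero_sub] at h3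
  exact hμ0 (neg_eq_zero.1 h3)

theorem ok_neL (h01 : F.L 0 z = F.L 1 z) (h12 : F.L 1 z = F.L 2 z) (μ : E)
    (hμ : ⟪F.e 0 z, μ⟫_ℝ = 0) : ⟪F.N2 z, μ⟫_ℝ = 0 := by
  obtain ⟨ζ, P⟩ := exists_piv hq hz μ hμ
  have h1 := (path (F.dL 0 z hz) ζ).sub (path (F.dL 1 z hz) ζ)
  have h2 := path_zero ((F.dL 0 z hz).sub (F.dL 1 z hz)) ζ (g.g5 (sub_eq_zero.2 h01))
  have h3 := h1.unique h2
  have h4 := (path (F.dL 1 z hz) ζ).sub (path (F.dL 2 z hz) ζ)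
  have h5 := path_zero ((F.dL 1 z hz).sub (F.dL 2 z hz)) ζ (g.g6 (sub_eq_zero.2 h12))
  have h6 := h4.unique h5
  rw [P.L0, P.L1, h01] at h3
  rw [P.L1, P.L2, h01] at h6
  have hL := (F.Lpos 1 z hz).ne'
  have h7 : F.L 1 z * (3 * ⟪F.N2 z, μ⟫_ℝ) = 0 := by linear_combination -h6 + h3
  have h8 := (mul_eq_zero.1 h7).resolve_left hL
  linarith

theorem ok_Z3 (hy : F.W z (F.N1 z) = (2 : ℝ) • F.e 0 z - F.N1 z) (μ : E)
    (hμ : ⟪F.e 0 z, μ⟫_ℝ = 0) (hW : F.W z μ = μ) :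
    ((F.L 0 z + F.L 1 z + F.L 2 z) * (⟪F.N2 z, F.N1 z⟫_ℝ + ⟪F.N0 z, F.N1 z⟫_ℝ - 2) +
      2 * F.L 2 z) • μ = 0 := by
  obtain ⟨ζ, P⟩ := exists_piv hq hz μ hμ
  have h0 : F.N1 z + F.W z (F.N1 z) - (2 : ℝ) • F.e 0 z = 0 := by rw [hy]; module
  have hN := path_N1 P hz
  have h1 := (hN.add (path_W P hz hN)).sub ((path (F.de 0 z hz) ζ).const_smul (2 : ℝ))
  have h2 := path_zero (((dN1 hz).add (dW hz (dN1 hz))).sub
    ((F.de 0 z hz).const_smul (2 : ℝ))) ζ (g.g3 h0)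
  have h3 := h1.unique h2
  -- the values
  have hμN : ⟪F.N1 z, μ⟫_ℝ = 0 := by
    have h4 : ⟪F.W z (F.N1 z), μ⟫_ℝ = ⟪F.N1 z, μ⟫_ℝ := by rw [W_sym hq hz, hW]
    rw [hy, inner_sub_left, real_inner_smul_left, hμ] at h4
    linarith
  have hL2 := (F.Lpos 2 z hz).ne'
  obtain ⟨l, hl⟩ : ∃ l, l = (F.L 0 z + F.L 1 z + F.L 2 z) / F.L 2 z := ⟨_, rfl⟩
  have hk2 : K2 F z ζ = l • μ := by
    have h4 := hK2 P hz
    rw [hW] at h4
    rw [hl, div_eq_inv_mul, mul_smul, eq_inv_smul_iff₀ hL2, h4]; module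
  have hk0 : K0 F z ζ = l • μ := by
    have h4 := hK0 P
    rw [hW] at h4
    rw [hl, div_eq_inv_mul, mul_smul, eq_inv_smul_iff₀ hL2, h4]; module
  have n2u := N2u hz
  rw [real_inner_comm] at n2u
  have hμu : ⟪μ, F.e 0 z⟫_ℝ = 0 := by rw [real_inner_comm]; exact hμ
  have hμN' : ⟪μ, F.N1 z⟫_ℝ = 0 := by rw [real_inner_comm]; exact hμN
  rw [P.e0, hk2, hk0] at h3
  simp only [zero_smul, add_zero, hμN, neg_zero, map_zero, zero_add, hy] at h3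
  unfold wd at h3
  simp only [inner_sub_right, inner_smul_right, real_inner_smul_left, hμu, hμN', n2u,
    map_smul, hW, mul_zero, sub_zero, zero_smul] at h3
  have h4 : (F.L 2 z * l) = F.L 0 z + F.L 1 z + F.L 2 z := by rw [hl]; field_simp
  rw [← h4]
  have h5 := congrArg (fun x => -F.L 2 z • x) h3
  simp only [smul_zero] at h5
  rw [← h5]
  module

theorem ok_Z7 (hy : F.W z (F.N1 z) = F.N1 z) (μ : E)
    (hμ : ⟪F.e 0 z, μ⟫_ℝ = 0) (hW : F.W z μ = -μ) :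
    ((F.L 1 z + F.L 2 z - F.L 0 z) * ⟪F.N2 z, F.N1 z⟫_ℝ +
      (F.L 0 z + F.L 2 z - F.L 1 z) * ⟪F.N0 z, F.N1 z⟫_ℝ) • μ = 0 := by
  obtain ⟨ζ, P⟩ := exists_piv hq hz μ hμ
  have h0 : F.N1 z - F.W z (F.N1 z) = 0 := by rw [hy, sub_self]
  have hN := path_N1 P hz
  have h1 := hN.sub (path_W P hz hN)
  have h2 := path_zero ((dN1 hz).sub (dW hz (dN1 hz))) ζ (g.g7 h0)
  have h3 := h1.unique h2
  have hμN : ⟪F.N1 z, μ⟫_ℝ = 0 := by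
    have h4 : ⟪F.W z (F.N1 z), μ⟫_ℝ = -⟪F.N1 z, μ⟫_ℝ := by
      rw [W_sym hq hz, hW, inner_neg_right]
    rw [hy] at h4
    linarith
  have hL2 := (F.Lpos 2 z hz).ne'
  obtain ⟨l2, hl2⟩ : ∃ l, l = (F.L 1 z + F.L 2 z - F.L 0 z) / F.L 2 z := ⟨_, rfl⟩
  obtain ⟨l0, hl0⟩ : ∃ l, l = (F.L 0 z + F.L 2 z - F.L 1 z) / F.L 2 z := ⟨_, rfl⟩
  have hk2 : K2 F z ζ = l2 • μ := by
    have h4 := hK2 P hz
    rw [hW] at h4
    rw [hl2, div_eq_inv_mul, mul_smul, eq_inv_smul_iff₀ hL2, h4]; module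
  have hk0 : K0 F z ζ = l0 • μ := by
    have h4 := hK0 P
    rw [hW] at h4
    rw [hl0, div_eq_inv_mul, mul_smul, eq_inv_smul_iff₀ hL2, h4]; module
  have hμN' : ⟪μ, F.N1 z⟫_ℝ = 0 := by rw [real_inner_comm]; exact hμN
  rw [hk2, hk0] at h3
  simp only [zero_smul, add_zero, hμN, neg_zero, map_zero, zero_add, hy, zero_sub] at h3
  unfold wd at h3
  simp only [real_inner_smul_left, hμN', map_smul, hW, mul_zero, sub_zero, zero_smul] at h3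
  have h4 : (F.L 2 z * l2) = F.L 1 z + F.L 2 z - F.L 0 z := by rw [hl2]; field_simp
  have h5 : (F.L 2 z * l0) = F.L 0 z + F.L 2 z - F.L 1 z := by rw [hl0]; field_simp
  rw [← h4, ← h5]
  have h6 := congrArg (fun x => -F.L 2 z • x) h3
  simp only [smul_zero] at h6
  rw [← h6]
  module

theorem ok_Z4 (hy : F.W z (F.H z) = F.H z) (μ : E)
    (hμ : ⟪F.e 0 z, μ⟫_ℝ = 0) (hW : F.W z μ = μ) :
    (2 * F.L 2 z) • (-(⟪F.N1 z, μ⟫_ℝ • (F.N1 z - F.W z (F.N1 z))) +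
      ⟪F.N2 z, μ⟫_ℝ • (F.N2 z - F.W z (F.N2 z)) + ⟪F.N0 z, μ⟫_ℝ • (F.N0 z - F.W z (F.N0 z))) +
      ((F.L 0 z + F.L 1 z + F.L 2 z) * ⟪μ, F.H z⟫_ℝ) •
        ((F.N2 z - F.W z (F.N2 z)) + (F.N0 z - F.W z (F.N0 z))) = 0 := by
  obtain ⟨ζ, P⟩ := exists_piv hq hz μ hμ
  have h0 : F.H z - F.W z (F.H z) = 0 := by rw [hy, sub_self]
  have hH := ((path_N1 P hz).sub (path_N2 P hz)).sub (path_N0 P hz)
  have h1 := hH.sub (path_W P hz hH)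
  have h2 := path_zero ((dH hz).sub (dW hz (dH hz))) ζ (g.g4 h0)
  have h3 := h1.unique h2
  have hL2 := (F.Lpos 2 z hz).ne'
  obtain ⟨l, hl⟩ : ∃ l, l = (F.L 0 z + F.L 1 z + F.L 2 z) / F.L 2 z := ⟨_, rfl⟩
  have hk2 : K2 F z ζ = l • μ := by
    have h4 := hK2 P hz
    rw [hW] at h4
    rw [hl, div_eq_inv_mul, mul_smul, eq_inv_smul_iff₀ hL2, h4]; module
  have hk0 : K0 F z ζ = l • μ := by
    have h4 := hK0 P
    rw [hW] at h4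
    rw [hl, div_eq_inv_mul, mul_smul, eq_inv_smul_iff₀ hL2, h4]; module
  have hHd : (F.N1 (z + (0 : ℝ) • ζ) - F.N2 (z + (0 : ℝ) • ζ) - F.N0 (z + (0 : ℝ) • ζ)) =
      F.H z := by simp only [zero_smul, add_zero]; rfl
  rw [hk2, hk0] at h3
  have h5 : F.L 2 z * l = F.L 0 z + F.L 1 z + F.L 2 z := by rw [hl]; field_simp
  rw [← h5]
  have h4 := congrArg (fun x => F.L 2 z • (x - F.W z x)) h3
  simp only [Pi.sub_apply, hHd, hy] at h4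
  unfold wd at h4
  simp only [map_add, map_sub, map_neg, map_smul, hW, WW hq hz, map_zero, sub_zero, smul_zero,
    real_inner_smul_left] at h4
  rw [← h4]
  module

end Values

end Cyc

end Pool.Agent.TH746
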