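import Pool.Agent.TH746.Cyc
import Pool.Agent.TH746.Alg

set_option autoImplicit false

open MeasureTheory Set Filter Topology
open scoped InnerProductSpace
open Pool.Agent.H721R2.Quart

namespace Pool.Agent.TH746

variable {E Z : Type*} [NormedAddCommGroup E] [InnerProductSpace ℝ E]
  [NormedAddCommGroup Z] [NormedSpace ℝ Z]

/-- The reflection as a linear map. -/
noncomputable def rfL (n : E) : E →ₗ[ℝ] E where
  toFun v := rf n v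
  map_add' v w := G3_rf_add n v w
  map_smul' a v := G3_rf_smul n a v

theorem rfL_apply (n v : E) : rfL n v = rf n v := rfl

namespace Cyc

variable (F : Cyc E Z)

/-- The normalised normals seen from the side `0`. -/
noncomputable def N0 (z : Z) : E := (⟪F.n 0 z, F.e 0 z⟫_ℝ)⁻¹ • F.n 0 z
noncomputable def N1 (z : Z) : E := (⟪F.n 1 z, F.e 0 z⟫_ℝ)⁻¹ • F.n 1 z
noncomputable def N2 (z : Z) : E := (⟪F.n 2 z, F.e 1 z⟫_ℝ)⁻¹ • rf (F.n 1 z) (F.n 2 z)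

/-- The holonomy seen from the side `0`, for three mirrors. -/
noncomputable def W (z : Z) : E →ₗ[ℝ] E :=
  (rfL (F.n 1 z)).comp ((rfL (F.n 2 z)).comp ((F.V z).toLinearMap.comp (rfL (F.n 0 z))))

theorem W_apply (z : Z) (v : E) :
    F.W z v = rf (F.n 1 z) (rf (F.n 2 z) (F.V z (rf (F.n 0 z) v))) := rfl

variable {F} {z : Z}

theorem W_iso (hz : z ∈ F.A) (v w : E) : ⟪F.W z v, F.W z w⟫_ℝ = ⟪v, w⟫_ℝ := by
  rw [W_apply, W_apply, G3_rf_inner (F.nn 1 z hz), G3_rf_inner (F.nn 2 z hz), F.iso z hz,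
    G3_rf_inner (F.nn 0 z hz)]

section Three

variable (hq : F.q = 3)
include hq

theorem e3 : F.e 3 z = F.V z (F.e 0 z) := by
  have := F.pe 0 z; rwa [hq] at this

theorem n3 : F.n 3 z = F.V z (F.n 0 z) := by
  have := F.pn 0 z; rwa [hq] at this

theorem X3 (hz : z ∈ F.A) (ζ : Z) : F.X 3 z ζ = F.V z (F.X 0 z ζ) := by
  have := F.pX 0 z hz ζ; rwa [hq] at this

theorem D3 (hz : z ∈ F.A) (ζ : Z) :
    fderiv ℝ (F.e 3) z ζ = F.V z (fderiv ℝ (F.e 0) z ζ) := by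
  have := pD hz 0 ζ; rwa [hq] at this

theorem dn3 (hz : z ∈ F.A) (ζ : Z) :
    fderiv ℝ (F.n 3) z ζ = F.V z (fderiv ℝ (F.n 0) z ζ) := by
  have := pdn hz 0 ζ; rwa [hq] at this

/-- Moving a reflection through the isometry. -/
theorem R3V (hz : z ∈ F.A) (v : E) :
    rf (F.n 3 z) (F.V z v) = F.V z (rf (F.n 0 z) v) := by
  rw [n3 hq, ← Vrf hz]

theorem W_eq (hz : z ∈ F.A) (v : E) :
    F.W z v = rf (F.n 1 z) (rf (F.n 2 z) (rf (F.n 3 z) (F.V z v))) := by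
  rw [R3V hq hz, W_apply]

theorem e2_eq (hz : z ∈ F.A) : F.e 2 z = F.V z (rf (F.n 0 z) (F.e 0 z)) := by
  rw [← R3V hq hz, ← e3 hq]
  exact (refl' hz 2).symm

theorem Wu (hz : z ∈ F.A) : F.W z (F.e 0 z) = F.e 0 z := by
  rw [W_apply, ← e2_eq hq hz]
  have h1 := refl' hz 1
  have h0 := refl' hz 0
  rw [h1, h0]

theorem sumL (hz : z ∈ F.A) (ζ : Z) :
    fderiv ℝ (F.L 0) z ζ + fderiv ℝ (F.L 1) z ζ + fderiv ℝ (F.L 2) z ζ = 0 := by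
  have h0 := side hz 0 ζ
  have h1 := side hz 1 ζ
  have h2 := side hz 2 ζ
  simp only [zero_add] at h0
  norm_num at h1 h2
  rw [h0, h1, h2, e3 hq, X3 hq hz, F.iso z hz]
  ring

/-- The first order relation from the variations which fix the vertex `0`. -/
theorem first (hz : z ∈ F.A) (δ : E) (hδ : ⟪F.e 0 z, δ⟫_ℝ = 0) :
    ∃ X1 : E, X1 = F.L 0 z • (δ - ⟪F.N1 z, δ⟫_ℝ • F.e 0 z) ∧
      F.L 1 z • (δ - (2 * ⟪F.S 1 z X1, F.e 0 z⟫_ℝ) • F.n 1 z +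
        (2 * ⟪F.n 1 z, F.e 0 z⟫_ℝ) • F.S 1 z X1) =
      -(F.L 0 z • δ) - F.L 2 z • F.W z δ := by
  obtain ⟨ζ, h0, h1⟩ := F.surj 0 z hz 0 δ (inner_zero_right _) hδ
  have hX3 : F.X 3 z ζ = 0 := by rw [X3 hq hz, h0, map_zero]
  have tr1 := tr' hz 0
  norm_num at tr1
  -- the vertex 1
  have hX1 : F.X 1 z ζ = F.L 0 z • (δ - ⟪F.N1 z, δ⟫_ℝ • F.e 0 z) := by
    have h2 := F.stepjac 0 z hz ζ
    have h3 := F.tan 1 z hz ζ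
    norm_num at h2
    rw [h0, h1, zero_add] at h2
    rw [h2, inner_add_right, inner_smul_right, inner_smul_right] at h3
    have h4 : fderiv ℝ (F.L 0) z ζ = -(F.L 0 z * ⟪F.N1 z, δ⟫_ℝ) := by
      unfold N1
      rw [real_inner_smul_left]
      field_simp
      linarith
    rw [h2, h4]
    module
  refine ⟨F.X 1 z ζ, hX1, ?_⟩
  have p0 := perp hz 0 ζ
  have p1 := perp hz 1 ζ
  have p2 := perp hz 2 ζ
  have m0 := next hz 0 ζ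
  have m1 := next hz 1 ζ
  norm_num at p0 p1 p2 m0 m1
  -- the side 2
  have r2 := F.refljac 2 z hz ζ
  have dn3 : fderiv ℝ (F.n 3) z ζ = 0 := by rw [F.njac 3 z hz, hX3, map_zero, neg_zero]
  norm_num at r2
  rw [dn3, D3 hq hz, h1, inner_zero_left, mul_zero, zero_smul, smul_zero, sub_zero, sub_zero] at r2
  have d2 : fderiv ℝ (F.e 2) z ζ = F.V z (rf (F.n 0 z) δ) := by
    rw [← R3V hq hz, r2, G3_rf_invol (F.nn 3 z hz)]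
  -- the closing
  rw [hX3, inner_zero_right, zero_smul, sub_zero] at p2
  have hY2 : F.X 2 z ζ - ⟪F.e 2 z, F.X 2 z ζ⟫_ℝ • F.e 2 z =
      -(F.L 2 z • F.V z (rf (F.n 0 z) δ)) := by
    rw [← d2]; exact eq_neg_of_add_eq_zero_left p2.symm
  rw [hY2] at m1
  have m1' := congrArg (rf (F.n 2 z)) m1
  rw [G3_rf_invol (F.nn 2 z hz), p1, m0, p0, h0, h1, inner_zero_right, zero_smul, sub_zero,
    zero_add] at m1'
  have m2 := congrArg (rf (F.n 1 z)) m1'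
  rw [G3_rf_add, G3_rf_invol (F.nn 1 z hz)] at m2
  have r0 := F.refljac 0 z hz ζ
  norm_num at r0
  rw [F.njac 1 z hz, h1] at r0
  have Sn1 : rf (F.n 1 z) (F.S 1 z (F.X 1 z ζ)) = F.S 1 z (F.X 1 z ζ) := by
    apply G3_rf_tan
    rw [← F.sym 1 z hz, F.Sn 1 z hz, inner_zero_left]
  have Rn : rf (F.n 1 z) (F.n 1 z) = -F.n 1 z := by
    unfold rf
    rw [F.nn 1 z hz]
    module
  have r1 : rf (F.n 1 z) (fderiv ℝ (F.e 1) z ζ) = δ - (2 * ⟪F.S 1 z (F.X 1 z ζ), F.e 0 z⟫_ℝ) •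
      F.n 1 z + (2 * ⟪F.n 1 z, F.e 0 z⟫_ℝ) • F.S 1 z (F.X 1 z ζ) := by
    rw [r0, inner_neg_left]
    simp only [G3_rf_sub, G3_rf_smul, G3_rf_invol (F.nn 1 z hz), Rn]
    have : rf (F.n 1 z) (-F.S 1 z (F.X 1 z ζ)) = -F.S 1 z (F.X 1 z ζ) := by
      rw [← neg_one_smul ℝ, G3_rf_smul, Sn1]
    rw [this]
    module
  have m3 : F.L 0 z • δ + F.L 1 z • rf (F.n 1 z) (fderiv ℝ (F.e 1) z ζ) =
      -(F.L 2 z • F.W z δ) := by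
    rw [← G3_rf_smul, ← m2, W_apply, ← neg_smul, ← neg_smul, G3_rf_smul, G3_rf_smul]
  rw [← r1]
  rw [sub_eq_add_neg, ← m3]
  module

omit hq in
theorem N1n (hz : z ∈ F.A) (v : E) :
    ⟪F.n 1 z, v - ⟪F.N1 z, v⟫_ℝ • F.e 0 z⟫_ℝ = 0 := by
  have tr1 := tr' hz 0
  norm_num at tr1
  unfold N1
  rw [inner_sub_right, inner_smul_right, real_inner_smul_left]
  field_simp
  ring

/-- The first order relation as a relation between bilinear forms. -/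
theorem quad (hz : z ∈ F.A) {w w' : E} (hw : ⟪F.n 1 z, w⟫_ℝ = 0) (hw' : ⟪F.n 1 z, w'⟫_ℝ = 0) :
    (-2 * ⟪F.n 1 z, F.e 0 z⟫_ℝ) * F.L 0 z * F.L 1 z * ⟪F.S 1 z w, w'⟫_ℝ =
      (F.L 0 z + F.L 1 z) * ⟪w, w'⟫_ℝ + F.L 2 z * ⟪F.W z w, w'⟫_ℝ -
      (F.L 0 z + F.L 1 z + F.L 2 z) * ⟪w, F.e 0 z⟫_ℝ * ⟪w', F.e 0 z⟫_ℝ := by
  have tr1 := tr' hz 0
  norm_num at tr1
  have ee := F.ee 0 z hz
  obtain ⟨δ, hδ⟩ : ∃ δ, δ = w - ⟪w, F.e 0 z⟫_ℝ • F.e 0 z := ⟨_, rfl⟩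
  have h1 : ⟪F.e 0 z, δ⟫_ℝ = 0 := by
    rw [hδ, inner_sub_right, inner_smul_right, ee, real_inner_comm w]; ring
  obtain ⟨X1, hX1, h2⟩ := first hq hz δ h1
  have h3 : ⟪F.N1 z, δ⟫_ℝ = -⟪w, F.e 0 z⟫_ℝ := by
    unfold N1
    rw [hδ, inner_sub_right, inner_smul_right, real_inner_smul_left, real_inner_smul_left, hw]
    field_simp
    ring
  have h4 : X1 = F.L 0 z • w := by
    rw [hX1, h3, hδ]; module
  have hW : F.W z δ = F.W z w - ⟪w, F.e 0 z⟫_ℝ • F.e 0 z := by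
    rw [hδ, map_sub, map_smul, Wu hq hz]
  rw [hW] at h2
  have h5 := congrArg (fun x => ⟪x, w'⟫_ℝ) h2
  simp only [h4, hδ, map_smul, inner_add_left, inner_sub_left, inner_neg_left,
    real_inner_smul_left, hw', mul_zero, real_inner_comm w' (F.e 0 z)] at h5
  linear_combination -h5

theorem W_sym (hz : z ∈ F.A) (v w : E) : ⟪F.W z v, w⟫_ℝ = ⟪v, F.W z w⟫_ℝ := by
  have h1 := quad hq hz (N1n hz v) (N1n hz w)
  have h2 := quad hq hz (N1n hz w) (N1n hz v)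
  have hs : ⟪F.S 1 z (v - ⟪F.N1 z, v⟫_ℝ • F.e 0 z), w - ⟪F.N1 z, w⟫_ℝ • F.e 0 z⟫_ℝ =
      ⟪F.S 1 z (w - ⟪F.N1 z, w⟫_ℝ • F.e 0 z), v - ⟪F.N1 z, v⟫_ℝ • F.e 0 z⟫_ℝ :=
    (F.sym 1 z hz _ _).trans (real_inner_comm _ _)
  have hc : ⟪v - ⟪F.N1 z, v⟫_ℝ • F.e 0 z, w - ⟪F.N1 z, w⟫_ℝ • F.e 0 z⟫_ℝ =
      ⟪w - ⟪F.N1 z, w⟫_ℝ • F.e 0 z, v - ⟪F.N1 z, v⟫_ℝ • F.e 0 z⟫_ℝ := real_inner_comm _ _
  have h3 : F.L 2 z * (⟪F.W z (v - ⟪F.N1 z, v⟫_ℝ • F.e 0 z), w - ⟪F.N1 z, w⟫_ℝ • F.e 0 z⟫_ℝ -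
      ⟪F.W z (w - ⟪F.N1 z, w⟫_ℝ • F.e 0 z), v - ⟪F.N1 z, v⟫_ℝ • F.e 0 z⟫_ℝ) = 0 := by
    rw [hs, hc] at h1
    linear_combination h2 - h1
  have h4 := (mul_eq_zero.1 h3).resolve_left (F.Lpos 2 z hz).ne'
  have h5 : ∀ x, ⟪F.W z x, F.e 0 z⟫_ℝ = ⟪x, F.e 0 z⟫_ℝ := by
    intro x
    nth_rewrite 1 [← Wu hq hz]
    rw [W_iso hz]
  simp only [map_sub, map_smul, Wu hq hz, inner_sub_left, inner_sub_right, real_inner_smul_left,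
    inner_smul_right, h5, F.ee 0 z hz, real_inner_comm _ (F.e 0 z)] at h4
  rw [real_inner_comm _ v]
  linarith

theorem WW (hz : z ∈ F.A) (v : E) : F.W z (F.W z v) = v := by
  apply ext_inner_right ℝ
  intro w
  rw [W_sym hq hz, W_iso hz]

end Three

/-- The derivatives in the direction `ζ` which keeps the vertex `1` fixed and turns the side `0`
with velocity `μ`. -/
structure PivD (F : Cyc E Z) (z ζ : Z) (μ : E) : Prop where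
  e0 : fderiv ℝ (F.e 0) z ζ = μ
  e1 : fderiv ℝ (F.e 1) z ζ = rf (F.n 1 z) μ
  n1 : fderiv ℝ (F.n 1) z ζ = 0
  S1 : fderiv ℝ (F.S 1) z ζ = 0
  L0 : fderiv ℝ (F.L 0) z ζ = -(F.L 0 z * ⟪F.N0 z, μ⟫_ℝ)
  L1 : fderiv ℝ (F.L 1) z ζ = -(F.L 1 z * ⟪F.N2 z, μ⟫_ℝ)
  L2 : fderiv ℝ (F.L 2) z ζ = F.L 0 z * ⟪F.N0 z, μ⟫_ℝ + F.L 1 z * ⟪F.N2 z, μ⟫_ℝ
  k2 : F.L 2 z • ((2 * ⟪F.n 2 z, F.e 1 z⟫_ℝ) • fderiv ℝ (F.n 2) z ζ -
      (2 * ⟪fderiv ℝ (F.n 2) z ζ, F.e 1 z⟫_ℝ) • F.n 2 z) =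
      rf (F.n 1 z) ((F.L 1 z + F.L 2 z) • μ + F.L 0 z • F.W z μ)
  k0 : F.L 2 z • ((2 * ⟪F.n 0 z, F.e 0 z⟫_ℝ) • fderiv ℝ (F.n 0) z ζ -
      (2 * ⟪fderiv ℝ (F.n 0) z ζ, F.e 0 z⟫_ℝ) • F.n 0 z) =
      (F.L 0 z + F.L 2 z) • μ + F.L 1 z • F.W z μ

theorem exists_piv (hq : F.q = 3) (hz : z ∈ F.A) (μ : E) (hμ : ⟪F.e 0 z, μ⟫_ℝ = 0) :
    ∃ ζ, PivD F z ζ μ := by
  have tr0 := F.tr 0 z hz
  have tr1 := tr' hz 0
  have tr2 := tr' hz 1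
  norm_num at tr1 tr2
  have hN0 : ⟪F.n 0 z, μ - ⟪F.N0 z, μ⟫_ℝ • F.e 0 z⟫_ℝ = 0 := by
    unfold N0
    rw [inner_sub_right, inner_smul_right, real_inner_smul_left]
    field_simp
    ring
  obtain ⟨ζ, h0, h1⟩ := F.surj 0 z hz (-(F.L 0 z • (μ - ⟪F.N0 z, μ⟫_ℝ • F.e 0 z))) μ
    (by rw [inner_neg_right, inner_smul_right, hN0, mul_zero, neg_zero]) hμ
  -- the vertex 1
  have hX1' : F.X 1 z ζ = (F.L 0 z * ⟪F.N0 z, μ⟫_ℝ + fderiv ℝ (F.L 0) z ζ) • F.e 0 z := by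
    have h2 := F.stepjac 0 z hz ζ
    norm_num at h2
    rw [h2, h0, h1]; module
  have hL0 : F.L 0 z * ⟪F.N0 z, μ⟫_ℝ + fderiv ℝ (F.L 0) z ζ = 0 := by
    have h3 := F.tan 1 z hz ζ
    rw [hX1', inner_smul_right] at h3
    exact (mul_eq_zero.1 h3).resolve_right tr1
  have hX1 : F.X 1 z ζ = 0 := by rw [hX1', hL0, zero_smul]
  have hn1 : fderiv ℝ (F.n 1) z ζ = 0 := by rw [F.njac 1 z hz, hX1, map_zero, neg_zero]
  have he1 : fderiv ℝ (F.e 1) z ζ = rf (F.n 1 z) μ := by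
    have r0 := F.refljac 0 z hz ζ
    norm_num at r0
    rw [hn1, h1, inner_zero_left, mul_zero, zero_smul, smul_zero, sub_zero, sub_zero] at r0
    exact r0
  -- the vertex 2
  have hX2 : F.X 2 z ζ = fderiv ℝ (F.L 1) z ζ • F.e 1 z + F.L 1 z • rf (F.n 1 z) μ := by
    have h2 := F.stepjac 1 z hz ζ
    norm_num at h2
    rw [h2, hX1, he1, zero_add]
  have hL1 : fderiv ℝ (F.L 1) z ζ = -(F.L 1 z * ⟪F.N2 z, μ⟫_ℝ) := by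
    have h3 := F.tan 2 z hz ζ
    rw [hX2, inner_add_right, inner_smul_right, inner_smul_right, ← G3_rf_sym] at h3
    unfold N2
    rw [real_inner_smul_left]
    field_simp
    linarith
  have hL2 := sumL hq hz ζ
  -- the side 2
  have p1 := perp hz 1 ζ
  have p2 := perp hz 2 ζ
  have m1 := next hz 1 ζ
  have m2 := next hz 2 ζ
  norm_num at p1 p2 m1 m2
  rw [hX1, inner_zero_right, zero_smul, sub_zero, zero_add, he1] at p1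
  rw [p1] at m1
  have hY3 : F.X 3 z ζ - ⟪F.e 3 z, F.X 3 z ζ⟫_ℝ • F.e 3 z = -(F.L 0 z • F.V z μ) := by
    rw [X3 hq hz, e3 hq, F.iso z hz, ← map_smul, ← map_sub, ← map_smul, ← map_neg]
    congr 1
    rw [h0, inner_neg_right, inner_smul_right, inner_sub_right, inner_smul_right, hμ,
      F.ee 0 z hz]
    module
  have R3 : ∀ v, rf (F.n 3 z) (F.V z v) = F.V z (rf (F.n 0 z) v) := R3V hq hz
  have inv1 : ∀ v, rf (F.n 1 z) (rf (F.n 1 z) v) = v := G3_rf_invol (F.nn 1 z hz)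
  have inv2 : ∀ v, rf (F.n 2 z) (rf (F.n 2 z) v) = v := G3_rf_invol (F.nn 2 z hz)
  have inv3 : ∀ v, rf (F.n 3 z) (rf (F.n 3 z) v) = v := G3_rf_invol (F.nn 3 z hz)
  have inv0 : ∀ v, rf (F.n 0 z) (rf (F.n 0 z) v) = v := G3_rf_invol (F.nn 0 z hz)
  have hD2 : F.L 2 z • fderiv ℝ (F.e 2) z ζ = -(F.L 0 z • F.V z (rf (F.n 0 z) μ)) -
      F.L 1 z • rf (F.n 2 z) (rf (F.n 1 z) μ) := by
    rw [hY3, p2, m1] at m2
    have m3 := congrArg (rf (F.n 3 z)) m2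
    rw [inv3, ← neg_smul, G3_rf_smul, R3, G3_rf_smul] at m3
    rw [← sub_eq_iff_eq_add'] at m3
    rw [← m3]; module
  have hE2 : rf (F.n 2 z) (rf (F.n 1 z) μ) - fderiv ℝ (F.e 2) z ζ =
      (2 * ⟪fderiv ℝ (F.n 2) z ζ, F.e 1 z⟫_ℝ) • F.n 2 z +
        (2 * ⟪F.n 2 z, F.e 1 z⟫_ℝ) • fderiv ℝ (F.n 2) z ζ := by
    have r1 := F.refljac 1 z hz ζ
    norm_num at r1
    rw [r1, he1]
    module
  have Rn : ∀ k, rf (F.n k z) (F.n k z) = -F.n k z := by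
    intro k
    unfold rf
    rw [F.nn k z hz]
    module
  have Rdn : ∀ k, rf (F.n k z) (fderiv ℝ (F.n k) z ζ) = fderiv ℝ (F.n k) z ζ := by
    intro k
    apply G3_rf_tan
    rw [F.njac k z hz, inner_neg_right, ← F.sym k z hz, F.Sn k z hz, inner_zero_left, neg_zero]
  have hk2 : F.L 2 z • ((2 * ⟪F.n 2 z, F.e 1 z⟫_ℝ) • fderiv ℝ (F.n 2) z ζ -
      (2 * ⟪fderiv ℝ (F.n 2) z ζ, F.e 1 z⟫_ℝ) • F.n 2 z) =
      rf (F.n 1 z) ((F.L 1 z + F.L 2 z) • μ + F.L 0 z • F.W z μ) := by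
    have h3 := congrArg (rf (F.n 2 z)) hE2
    rw [G3_rf_add, G3_rf_smul, G3_rf_smul, Rn, Rdn, G3_rf_sub, inv2] at h3
    have h4 : (2 * ⟪F.n 2 z, F.e 1 z⟫_ℝ) • fderiv ℝ (F.n 2) z ζ -
      (2 * ⟪fderiv ℝ (F.n 2) z ζ, F.e 1 z⟫_ℝ) • F.n 2 z =
        rf (F.n 1 z) μ - rf (F.n 2 z) (fderiv ℝ (F.e 2) z ζ) := by
      rw [h3]; module
    rw [h4, smul_sub, ← G3_rf_smul (F.n 2 z), hD2, G3_rf_sub, G3_rf_smul (F.n 2 z) (F.L 1 z), inv2,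
      ← neg_smul, G3_rf_smul, G3_rf_add, G3_rf_smul, G3_rf_smul, W_apply, inv1]
    module
  have hk0 : F.L 2 z • ((2 * ⟪F.n 0 z, F.e 0 z⟫_ℝ) • fderiv ℝ (F.n 0) z ζ -
      (2 * ⟪fderiv ℝ (F.n 0) z ζ, F.e 0 z⟫_ℝ) • F.n 0 z) =
      (F.L 0 z + F.L 2 z) • μ + F.L 1 z • F.W z μ := by
    apply Vinj hz
    have r2 := F.refljac 2 z hz ζ
    norm_num at r2
    rw [D3 hq hz, dn3 hq hz, n3 hq, e2_eq hq hz, F.iso z hz, F.iso z hz, h1, ← G3_rf_sym, Rdn 0,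
      ← G3_rf_sym, Rn 0, inner_neg_left] at r2
    have h3 : F.V z ((2 * ⟪F.n 0 z, F.e 0 z⟫_ℝ) • fderiv ℝ (F.n 0) z ζ -
      (2 * ⟪fderiv ℝ (F.n 0) z ζ, F.e 0 z⟫_ℝ) • F.n 0 z) =
        F.V z μ - rf (F.n 3 z) (fderiv ℝ (F.e 2) z ζ) := by
      rw [map_sub, map_smul, map_smul, n3 hq]
      nth_rewrite 1 [r2]
      module
    have h4 : rf (F.n 3 z) (rf (F.n 2 z) (rf (F.n 1 z) μ)) = F.V z (F.W z μ) := by
      nth_rewrite 1 [← WW hq hz μ]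
      rw [W_eq hq hz (F.W z μ), inv1, inv2, inv3]
    rw [map_smul, h3, smul_sub, ← G3_rf_smul, hD2, G3_rf_sub, ← neg_smul, G3_rf_smul, R3, inv0,
      G3_rf_smul, h4, map_add, map_smul, map_smul]
    module
  refine ⟨ζ, h1, he1, hn1, F.Sjac 1 z hz ζ hX1, by linarith, hL1, by linarith, hk2, hk0⟩

end Cyc

end Pool.Agent.TH746
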