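import Mathlib

set_option autoImplicit false

namespace Pool.Agent.TH746

/-- The solutions of the two linear equations. -/
theorem alg1 {a0 a1 a2 x y z : ℝ} (h1 : a0 + a1 + a2 = 0)
    (h2 : (x + y - z) * a1 + (y + z - x) * a2 + (x + z - y) * a0 = 0)
    (hxy : x ≠ y) : a1 = (a1 / (y - x)) * (y - x) ∧ a2 = (a1 / (y - x)) * (z - y) ∧
      a0 = (a1 / (y - x)) * (x - z) := by
  have h3 : y - x ≠ 0 := sub_ne_zero.2 hxy.symm
  have h4 : a1 * (z - y) = a2 * (y - x) := by
    have : 2 * (a1 * (z - y) - a2 * (y - x)) = 0 := by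
      linear_combination (x + z - y) * h1 - h2
    linarith
  have h5 : a2 = (a1 / (y - x)) * (z - y) := by
    field_simp
    linarith
  refine ⟨by field_simp, h5, ?_⟩
  have h6 : a0 = -a1 - a2 := by linarith
  rw [h6, h5]
  field_simp
  ring

theorem mono1 {s p q : ℝ} (hs : 0 < s) (h1 : s < p) (h2 : p < q) :
    p * (p - s) ^ 2 < q * (q - s) ^ 2 := by
  have h3 : (p - s) ^ 2 < (q - s) ^ 2 := by nlinarith
  have h4 : 0 < (p - s) ^ 2 := by have : 0 < p - s := by linarith
                                  positivity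
  nlinarith

theorem ne1 {s p q : ℝ} (hs : 0 < s) (h1 : s < p) (h2 : s < q) (hpq : p ≠ q)
    (h : p * (p - s) ^ 2 = q * (q - s) ^ 2) : False := by
  rcases lt_or_gt_of_ne hpq with h3 | h3
  · have := mono1 hs h1 h3; linarith
  · have := mono1 hs h2 h3; linarith

theorem alg2a {x y z : ℝ} (hx : 0 < x) (hy : 0 < y) (hz : 0 < z) (h1 : x ≠ y) (h2 : y ≠ z)
    (h3 : z ≠ x) (e1 : x * (y - x) ^ 2 = z * (z - y) ^ 2) (e2 : y * (z - y) ^ 2 = x * (x - z) ^ 2)
    (e3 : z * (x - z) ^ 2 = y * (y - x) ^ 2) : False := by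
  rcases lt_or_ge x y with h | h
  · rcases lt_or_ge x z with h' | h'
    · exact ne1 hx h' h h2.symm (by linarith [e3])
    · have h'' : z < x := lt_of_le_of_ne h' h3
      exact ne1 hz (by linarith) h'' h1.symm (by linarith [e2])
  · have h0 : y < x := lt_of_le_of_ne h h1.symm
    rcases lt_or_ge y z with h' | h'
    · exact ne1 hy h0 h' h3.symm (by linarith [e1])
    · have h'' : z < y := lt_of_le_of_ne h' h2.symm
      exact ne1 hz h'' (by linarith) h1.symm (by linarith [e2])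

/-- The odd parts vanish. -/
theorem alg2 {x y z α q0 q1 q2 : ℝ} (hx : 0 < x) (hy : 0 < y) (hz : 0 < z) (hα : α ≠ 0)
    (n1 : x ≠ y) (n2 : y ≠ z) (n3 : z ≠ x) (h1 : q1 = q2 + q0)
    (h2 : (x + y - z) * q1 = (y + z - x) * q2 + (x + z - y) * q0)
    (e1 : z * (-(α * (y - x)) * q1 + α * (z - y) * q2 + α * (x - z) * q0) +
      (x + y + z) * (α * (y - x)) * (q2 + q0) = 0)
    (e2 : x * (-(α * (z - y)) * q2 - α * (x - z) * q0 + α * (y - x) * q1) +
      (x + y + z) * (α * (z - y)) * (-q0 + q1) = 0)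
    (e3 : y * (α * (x - z) * q0 - α * (y - x) * q1 + α * (z - y) * q2) +
      (x + y + z) * (α * (x - z)) * (-q1 + q2) = 0) : q1 = 0 := by
  by_contra hq
  obtain ⟨f1, f2, f3⟩ := alg1 (a0 := -q0) (a1 := q1) (a2 := -q2) (x := x) (y := y) (z := z)
    (by linarith) (by linarith) n1
  obtain ⟨Q, hQ⟩ : ∃ Q, Q = q1 / (y - x) := ⟨_, rfl⟩
  rw [← hQ] at f1 f2 f3
  have hQ0 : Q ≠ 0 := by
    intro h; rw [h] at f1; apply hq; rw [f1]; ring
  have f2' : q2 = -(Q * (z - y)) := by linarith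
  have f3' : q0 = -(Q * (x - z)) := by linarith
  have hαQ : α * Q ≠ 0 := mul_ne_zero hα hQ0
  rw [f1, f2', f3'] at e1 e2 e3
  obtain ⟨s, hs⟩ : ∃ s, s = (y - x) ^ 2 + (z - y) ^ 2 + (x - z) ^ 2 := ⟨_, rfl⟩
  have g1 : (x + y + z) * (y - x) ^ 2 = z * s := by
    apply mul_left_cancel₀ hαQ
    rw [hs]; linear_combination e1
  have g2 : (x + y + z) * (z - y) ^ 2 = x * s := by
    apply mul_left_cancel₀ hαQ
    rw [hs]; linear_combination -e2
  have g3 : (x + y + z) * (x - z) ^ 2 = y * s := by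
    apply mul_left_cancel₀ hαQ
    rw [hs]; linear_combination e3
  have hL : x + y + z ≠ 0 := by positivity
  refine alg2a hx hy hz n1 n2 n3 ?_ ?_ ?_
  · apply mul_left_cancel₀ hL
    linear_combination x * g1 - z * g2
  · apply mul_left_cancel₀ hL
    linear_combination y * g2 - x * g3
  · apply mul_left_cancel₀ hL
    linear_combination z * g3 - y * g1

theorem mono2 {s p q : ℝ} (hs : 0 < s) (h1 : s < p) (h2 : p < q) (h3 : 0 < s + p - q) :
    p * (s + p - q) * (p - s) ^ 2 < q * (s + q - p) * (q - s) ^ 2 := by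
  have h4 : (p - s) ^ 2 < (q - s) ^ 2 := by nlinarith
  have h5 : 0 < (p - s) ^ 2 := by have : 0 < p - s := by linarith
                                  positivity
  have h6 : p * (s + p - q) < q * (s + q - p) := by nlinarith
  have h7 : 0 < p * (s + p - q) := by
    have : 0 < p := by linarith
    positivity
  nlinarith

theorem ne2 {s p q : ℝ} (hs : 0 < s) (h1 : s < p) (h2 : s < q) (hpq : p ≠ q)
    (h3 : 0 < s + p - q) (h4 : 0 < s + q - p)
    (h : p * (s + p - q) * (p - s) ^ 2 = q * (s + q - p) * (q - s) ^ 2) : False := by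
  rcases lt_or_gt_of_ne hpq with h5 | h5
  · have := mono2 hs h1 h5 h3; linarith
  · have := mono2 hs h2 h5 h4; linarith

theorem alg3a {x y z : ℝ} (hx : 0 < x) (hy : 0 < y) (hz : 0 < z) (h1 : x ≠ y) (h2 : y ≠ z)
    (h3 : z ≠ x) (k1 : 0 < x + y - z) (k2 : 0 < y + z - x) (k0 : 0 < x + z - y)
    (e1 : x * (x + y - z) * (y - x) ^ 2 = z * (y + z - x) * (z - y) ^ 2)
    (e2 : y * (y + z - x) * (z - y) ^ 2 = x * (x + z - y) * (x - z) ^ 2)
    (e3 : z * (x + z - y) * (x - z) ^ 2 = y * (x + y - z) * (y - x) ^ 2) : False := by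
  rcases lt_or_ge x y with h | h
  · rcases lt_or_ge x z with h' | h'
    · exact ne2 hx h' h h2.symm (by linarith) (by linarith) (by linear_combination e3)
    · have h'' : z < x := lt_of_le_of_ne h' h3
      exact ne2 hz (by linarith) h'' h1.symm (by linarith) (by linarith)
        (by linear_combination e2)
  · have h0 : y < x := lt_of_le_of_ne h h1.symm
    rcases lt_or_ge y z with h' | h'
    · exact ne2 hy h0 h' h3.symm (by linarith) (by linarith) (by linear_combination e1)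
    · have h'' : z < y := lt_of_le_of_ne h' h2.symm
      exact ne2 hz h'' (by linarith) h1.symm (by linarith) (by linarith)
        (by linear_combination e2)

/-- The final contradiction. -/
theorem alg3 {x y z α a0 a1 a2 : ℝ} (hx : 0 < x) (hy : 0 < y) (hz : 0 < z)
    (n1 : x ≠ y) (n2 : y ≠ z) (n3 : z ≠ x) (h1 : a1 = α * (y - x)) (h2 : a2 = α * (z - y))
    (h0 : a0 = α * (x - z)) (hα : α ≠ 0)
    (e1 : (y + z - x) * (1 + a2 * a1) + (x + z - y) * (1 + a0 * a1) = 0)
    (e2 : (x + z - y) * (1 + a0 * a2) + (x + y - z) * (1 + a1 * a2) = 0)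
    (e3 : (x + y - z) * (1 + a1 * a0) + (y + z - x) * (1 + a2 * a0) = 0) : False := by
  have hK : (x + y - z) * a1 + (y + z - x) * a2 + (x + z - y) * a0 = 0 := by
    rw [h1, h2, h0]; ring
  have f1 : (x + y - z) * a1 ^ 2 = 2 * z := by linear_combination a1 * hK - e1
  have f2 : (y + z - x) * a2 ^ 2 = 2 * x := by linear_combination a2 * hK - e2
  have f0 : (x + z - y) * a0 ^ 2 = 2 * y := by linear_combination a0 * hK - e3
  have pos : ∀ k a c : ℝ, 0 < c → k * a ^ 2 = 2 * c → 0 < k := by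
    intro k a c hc h
    by_contra hk
    have : k * a ^ 2 ≤ 0 := mul_nonpos_of_nonpos_of_nonneg (not_lt.1 hk) (sq_nonneg a)
    linarith
  have k1 := pos _ _ _ hz f1
  have k2 := pos _ _ _ hx f2
  have k0 := pos _ _ _ hy f0
  rw [h1] at f1
  rw [h2] at f2
  rw [h0] at f0
  have hα2 : α ^ 2 ≠ 0 := pow_ne_zero 2 hα
  refine alg3a hx hy hz n1 n2 n3 k1 k2 k0 ?_ ?_ ?_
  · apply mul_left_cancel₀ hα2
    linear_combination x * f1 - z * f2
  · apply mul_left_cancel₀ hα2
    linear_combination y * f2 - x * f0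
  · apply mul_left_cancel₀ hα2
    linear_combination z * f0 - y * f1

end Pool.Agent.TH746
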