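import Pool.Agent.TH746.Ok

set_option autoImplicit false

open MeasureTheory Set Filter Topology
open scoped InnerProductSpace
open Pool.Agent.H721R2.Quart

namespace Pool.Agent.TH746

variable {E Z : Type*} [NormedAddCommGroup E] [InnerProductSpace ℝ E]
  [NormedAddCommGroup Z] [NormedSpace ℝ Z]

namespace Cyc

variable {F : Cyc E Z} {z : Z}

/-- The relations hold at good points. -/
theorem ok (hq : F.q = 3) (hz : z ∈ F.A) (g : F.Good z)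
    (hdim : ∃ μ : E, μ ≠ 0 ∧ ⟪F.e 0 z, μ⟫_ℝ = 0) : (F.dat z).OK := by
  have uu := F.ee 0 z hz
  have n0u := N0u hz
  have n1u := N1u hz
  have n2u := N2u hz
  have Wu' := Wu hq hz
  have hH : F.H z = (F.N1 z - F.e 0 z) - (F.N2 z - F.e 0 z) - (F.N0 z - F.e 0 z) -
      F.e 0 z := by unfold H; module
  have cm : ∀ x μ : E, ⟪F.e 0 z, μ⟫_ℝ = 0 → ⟪x - F.e 0 z, μ⟫_ℝ = ⟪x, μ⟫_ℝ := by
    intro x μ h; rw [inner_sub_left, h, sub_zero]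
  have cm' : ∀ x μ : E, ⟪F.e 0 z, μ⟫_ℝ = 0 → ⟪μ, x - F.e 0 z⟫_ℝ = ⟪x, μ⟫_ℝ := by
    intro x μ h; rw [real_inner_comm, cm x μ h]
  refine ⟨uu, Wu', WW hq hz, W_iso hz, ?_, ?_, ?_, F.Lpos 0 z hz, F.Lpos 1 z hz, F.Lpos 2 z hz,
    ?_, ?_, ?_, ?_, ?_, ?_, ?_⟩
  · change ⟪F.e 0 z, F.N0 z - F.e 0 z⟫_ℝ = 0
    rw [inner_sub_right, n0u, uu, sub_self]
  · change ⟪F.e 0 z, F.N1 z - F.e 0 z⟫_ℝ = 0
    rw [inner_sub_right, n1u, uu, sub_self]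
  · change ⟪F.e 0 z, F.N2 z - F.e 0 z⟫_ℝ = 0
    rw [inner_sub_right, n2u, uu, sub_self]
  · obtain ⟨μ, h1, h2⟩ := hdim
    exact ok_ne hq hz g h2 h1
  · intro h01 h12
    change F.N2 z - F.e 0 z = 0
    have h1 : ⟪F.e 0 z, F.N2 z - F.e 0 z⟫_ℝ = 0 := by rw [inner_sub_right, n2u, uu, sub_self]
    have h2 := ok_neL hq hz g h01 h12 _ h1
    have h3 : ⟪F.N2 z - F.e 0 z, F.N2 z - F.e 0 z⟫_ℝ = 0 := by
      rw [inner_sub_left, h2, h1, sub_zero]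
    exact inner_self_eq_zero.1 h3
  · intro v μ hv hμ hW
    change ⟪F.e 0 z, v⟫_ℝ = 0 at hv
    change ⟪F.e 0 z, μ⟫_ℝ = 0 at hμ
    change F.W z v = v at hW
    have h := ok_Qp hq hz g v μ hv hμ hW
    change ⟪μ, F.N1 z - F.e 0 z - (F.N2 z - F.e 0 z) - (F.N0 z - F.e 0 z)⟫_ℝ * ⟪v, v⟫_ℝ =
      2 * ⟪v, μ⟫_ℝ * ⟪v, F.N1 z - F.e 0 z⟫_ℝ
    rw [inner_sub_right (μ) (F.N1 z - F.e 0 z - (F.N2 z - F.e 0 z)),
      inner_sub_right (μ) (F.N1 z - F.e 0 z), cm' _ _ hμ, cm' _ _ hμ, cm' _ _ hμ, cm' _ _ hv]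
    linear_combination h
  · intro v μ hv hμ hW
    change ⟪F.e 0 z, v⟫_ℝ = 0 at hv
    change ⟪F.e 0 z, μ⟫_ℝ = 0 at hμ
    change F.W z v = -v at hW
    have h := ok_Qm hq hz g v μ hv hμ hW
    change ⟪μ, (F.L 0 z + F.L 1 z - F.L 2 z) • (F.N1 z - F.e 0 z) +
      (F.L 1 z + F.L 2 z - F.L 0 z) • (F.N2 z - F.e 0 z) +
      (F.L 0 z + F.L 2 z - F.L 1 z) • (F.N0 z - F.e 0 z)⟫_ℝ * ⟪v, v⟫_ℝ =
      2 * (F.L 0 z + F.L 1 z - F.L 2 z) * ⟪v, μ⟫_ℝ * ⟪v, F.N1 z - F.e 0 z⟫_ℝ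
    rw [inner_add_right, inner_add_right, inner_smul_right, inner_smul_right, inner_smul_right,
      cm' _ _ hμ, cm' _ _ hμ, cm' _ _ hμ, cm' _ _ hv]
    exact h
  · intro hy μ hμ hW
    change F.W z (F.N1 z - F.e 0 z) = -(F.N1 z - F.e 0 z) at hy
    change ⟪F.e 0 z, μ⟫_ℝ = 0 at hμ
    change F.W z μ = μ at hW
    have h := ok_Z3 hq hz g (by
      rw [map_sub, Wu'] at hy
      have : F.W z (F.N1 z) = F.W z (F.N1 z) - F.e 0 z + F.e 0 z := by abel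
      rw [this, hy]; module) μ hμ hW
    change ((F.L 0 z + F.L 1 z + F.L 2 z) * ⟪F.N1 z - F.e 0 z, (F.N2 z - F.e 0 z) +
      (F.N0 z - F.e 0 z)⟫_ℝ + 2 * F.L 2 z) • μ = 0
    rw [← h]
    congr 1
    have n1u' : ⟪F.N1 z, F.e 0 z⟫_ℝ = 1 := by rw [real_inner_comm]; exact n1u
    simp only [inner_sub_left, inner_add_right, inner_sub_right, n2u, n0u, uu, n1u',
      real_inner_comm (F.N2 z) (F.N1 z), real_inner_comm (F.N0 z) (F.N1 z)]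
    ring
  · intro hy μ hμ hW
    change F.W z (F.N1 z - F.e 0 z - (F.N2 z - F.e 0 z) - (F.N0 z - F.e 0 z)) =
      F.N1 z - F.e 0 z - (F.N2 z - F.e 0 z) - (F.N0 z - F.e 0 z) at hy
    change ⟪F.e 0 z, μ⟫_ℝ = 0 at hμ
    change F.W z μ = μ at hW
    have h := ok_Z4 hq hz g (by rw [hH, map_sub, hy, Wu']) μ hμ hW
    have hμu : ⟪μ, F.e 0 z⟫_ℝ = 0 := by rw [real_inner_comm]; exact hμ
    have hHμ : ⟪μ, F.H z⟫_ℝ = ⟪μ, F.N1 z - F.e 0 z - (F.N2 z - F.e 0 z) -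
        (F.N0 z - F.e 0 z)⟫_ℝ := by
      rw [hH, inner_sub_right _ _ (F.e 0 z), hμu, sub_zero]
    have sW : ∀ x : E, (x - F.e 0 z) - F.W z (x - F.e 0 z) = x - F.W z x := by
      intro x; rw [map_sub, Wu']; abel
    change (2 * F.L 2 z) • (-(⟪μ, F.N1 z - F.e 0 z⟫_ℝ • ((F.N1 z - F.e 0 z) -
        F.W z (F.N1 z - F.e 0 z))) +
      ⟪μ, F.N2 z - F.e 0 z⟫_ℝ • ((F.N2 z - F.e 0 z) - F.W z (F.N2 z - F.e 0 z)) +
      ⟪μ, F.N0 z - F.e 0 z⟫_ℝ • ((F.N0 z - F.e 0 z) - F.W z (F.N0 z - F.e 0 z))) +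
      ((F.L 0 z + F.L 1 z + F.L 2 z) * ⟪μ, F.N1 z - F.e 0 z - (F.N2 z - F.e 0 z) -
        (F.N0 z - F.e 0 z)⟫_ℝ) •
        (((F.N2 z - F.e 0 z) - F.W z (F.N2 z - F.e 0 z)) +
          ((F.N0 z - F.e 0 z) - F.W z (F.N0 z - F.e 0 z))) = 0
    rw [sW, sW, sW, cm' _ _ hμ, cm' _ _ hμ, cm' _ _ hμ, ← hHμ]
    exact h
  · intro hy μ hμ hW
    change F.W z (F.N1 z - F.e 0 z) = F.N1 z - F.e 0 z at hy
    change ⟪F.e 0 z, μ⟫_ℝ = 0 at hμ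
    change F.W z μ = -μ at hW
    have h := ok_Z7 hq hz g (by
      rw [map_sub, Wu'] at hy
      have : F.W z (F.N1 z) = F.W z (F.N1 z) - F.e 0 z + F.e 0 z := by abel
      rw [this, hy]; abel) μ hμ hW
    change ((F.L 1 z + F.L 2 z - F.L 0 z) * (1 + ⟪F.N2 z - F.e 0 z, F.N1 z - F.e 0 z⟫_ℝ) +
      (F.L 0 z + F.L 2 z - F.L 1 z) * (1 + ⟪F.N0 z - F.e 0 z, F.N1 z - F.e 0 z⟫_ℝ)) • μ = 0
    rw [← h]
    congr 1
    have n2u' : ⟪F.N2 z, F.e 0 z⟫_ℝ = 1 := by rw [real_inner_comm]; exact n2u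
    have n0u' : ⟪F.N0 z, F.e 0 z⟫_ℝ = 1 := by rw [real_inner_comm]; exact n0u
    simp only [inner_sub_left, inner_sub_right, n1u, n2u', n0u', uu]
    ring

/-- The data seen from the next side. -/
theorem conj_shift (hq : F.q = 3) (hz : z ∈ F.A) :
    Conj (rfL (F.n 1 z)) (F.dat z).rot ((F.shift 1).dat z) := by
  have inv1 : ∀ v, rf (F.n 1 z) (rf (F.n 1 z) v) = v := G3_rf_invol (F.nn 1 z hz)
  have inv3 : ∀ v, rf (F.n 3 z) (rf (F.n 3 z) v) = v := G3_rf_invol (F.nn 3 z hz)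
  have h1 : F.e 1 z = rf (F.n 1 z) (F.e 0 z) := F.refl 0 z hz
  have h2 : F.e 2 z = rf (F.n 2 z) (F.e 1 z) := F.refl 1 z hz
  have h3 : F.e 3 z = rf (F.n 3 z) (F.e 2 z) := F.refl 2 z hz
  have Rn : ∀ k, rf (F.n k z) (F.n k z) = -F.n k z := by
    intro k
    unfold rf
    rw [F.nn k z hz]
    module
  refine ⟨fun v w => G3_rf_inner (F.nn 1 z hz) v w, h1, ?_, ?_, ?_, ?_, rfl, rfl, ?_⟩
  · intro v
    change rf (F.n 2 z) (rf (F.n 3 z) (F.V z (rf (F.n 1 z) (rf (F.n 1 z) v)))) =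
      rf (F.n 1 z) (rf (F.n 1 z) (rf (F.n 2 z) (F.V z (rf (F.n 0 z) v))))
    rw [inv1, inv1, R3V hq hz]
  · change (⟪F.n 1 z, F.e 1 z⟫_ℝ)⁻¹ • F.n 1 z - F.e 1 z = rf (F.n 1 z) (F.N1 z - F.e 0 z)
    unfold N1
    rw [G3_rf_sub, ← h1, G3_rf_smul, Rn, h1, ← G3_rf_sym, Rn, inner_neg_left, inv_neg]
    module
  · change (⟪F.n 2 z, F.e 1 z⟫_ℝ)⁻¹ • F.n 2 z - F.e 1 z = rf (F.n 1 z) (F.N2 z - F.e 0 z)
    unfold N2
    rw [G3_rf_sub, ← h1, G3_rf_smul, inv1]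
  · change (⟪F.n 3 z, F.e 2 z⟫_ℝ)⁻¹ • rf (F.n 2 z) (F.n 3 z) - F.e 1 z =
      rf (F.n 1 z) (F.W z (F.N0 z - F.e 0 z))
    rw [map_sub, Wu hq hz, G3_rf_sub, ← h1, W_eq hq hz, inv1]
    congr 1
    have h4 : ⟪F.n 3 z, F.e 2 z⟫_ℝ = -⟪F.n 0 z, F.e 0 z⟫_ℝ := by
      have h5 : F.e 2 z = rf (F.n 3 z) (F.e 3 z) := by rw [h3, inv3]
      rw [h5, ← G3_rf_sym, Rn, inner_neg_left, n3 hq, e3 hq, F.iso z hz]
    unfold N0
    rw [map_smul, ← n3 hq, G3_rf_smul, G3_rf_smul, Rn, h4, inv_neg, rf_neg]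
    module
  · change F.L 3 z = F.L 0 z
    have := F.pL 0 z
    rwa [hq, zero_add] at this

/-- There are no good points. -/
theorem no_three [FiniteDimensional ℝ E] (hd : 3 ≤ Module.finrank ℝ E) (hq : F.q = 3)
    (hz : z ∈ F.A) (g : ∀ j, (F.shift j).Good z) : False := by
  have hdim : ∀ u : E, ∃ μ : E, μ ≠ 0 ∧ ⟪u, μ⟫_ℝ = 0 := by
    intro u
    obtain ⟨μ, h1, h2, -⟩ := exists_perp hd u u
    exact ⟨μ, h1, h2⟩
  have g0 : F.Good z := g 0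
  have k0 : (F.dat z).OK := ok hq hz g0 (hdim _)
  have k1 : ((F.shift 1).dat z).OK := ok hq hz (g 1) (hdim _)
  have k2 : (((F.shift 1).shift 1).dat z).OK := ok hq hz (g 2) (hdim _)
  have c1 := conj_shift hq hz
  have c2 := conj_shift (F := F.shift 1) hq hz
  exact no_dat hd k0 (c1.ok k1) (c1.rot.ok (c2.ok k2))

end Cyc

end Pool.Agent.TH746
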